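import Pool.Agent.U513.AP.Sharp

/-!
# Properties with a power saving in the number of exceptions, at simultaneous approximations

`G i` are properties of natural numbers, `i` in a countable set, such that for every `ε > 0` at most `O(X ^ (e + ε))` natural
numbers `n ≤ X` do not have the property `G i`.
-/

set_option autoImplicit false

open Finset Filter MeasureTheory Topology
open scoped ENNReal NNReal

namespace Pool.Agent.U513.AP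

/-- `(k, u)` is an approximation of `α` of exponent `τ` and shift `γ`: `|k α_i - γ_i - u_i| ≤ k ^ (-τ)` for all `i`. -/
def Approx {d : ℕ} (τ : ℝ) (γ α : Fin d → ℝ) (k : ℕ) (u : Fin d → ℤ) : Prop :=
  ∀ i, |(k : ℝ) * α i - γ i - u i| ≤ (k : ℝ) ^ (-τ)

/-- For all `d ≥ 1`, `D`, `τ, w ≥ 0`, `l`, `γ ∈ ℝ ^ d` there is a set `E` of Hausdorff dimension at most
`(d + 1 - l + e D + w) / (1 + τ)`, of Lebesgue measure zero if `e D + w + 1 < l + d τ`, such that for all `α ∉ E`, all integral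
polynomials `P` in `d + 1` variables of degree at most `D` with `Lev P l` (every nonconstant `P` has `Lev P 1`) and all `i`: for all
large `k` and ALL integral `u` with `|k α_j - γ_j - u_j| ≤ k ^ (-τ)`, ALL natural numbers `n ≥ 1` with
`|n - P(k, u)| ≤ k ^ w` have the property `G i`. -/
def AtApproximations {ι : Type} (e : ℝ) (G : ι → ℕ → Prop) : Prop :=
  ∀ (d D : ℕ) (τ w l : ℝ) (γ : Fin d → ℝ), 1 ≤ d → 0 ≤ τ → 0 ≤ w →
    ∃ E : Set (Fin d → ℝ), dimH E ≤ ENNReal.ofReal ((d + 1 - l + e * D + w) / (1 + τ)) ∧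
      (e * D + w + 1 < l + d * τ → volume E = 0) ∧
      ∀ α, α ∉ E → ∀ P : MvPolynomial (Fin (d + 1)) ℤ, P.totalDegree ≤ D → Lev P l → ∀ i : ι,
        ∀ᶠ k : ℕ in atTop, ∀ u : Fin d → ℤ, Approx τ γ α k u → ∀ n : ℕ, 1 ≤ n →
          |(n : ℝ) - (MvPolynomial.eval (Fin.cons (k : ℤ) u : Fin (d + 1) → ℤ) P : ℤ)| ≤ (k : ℝ) ^ w → G i n

lemma few_of {B : Set ℕ} {a C : ℝ} {X₀ : ℕ} (ha : 0 ≤ a)
    (h : ∀ X : ℕ, X₀ ≤ X → ({n : ℕ | n ∈ B ∧ 1 ≤ n ∧ n ≤ X}.ncard : ℝ) ≤ C * (X : ℝ) ^ a) :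
    Few ((fun b : ℕ => (b : ℝ)) '' {n : ℕ | n ∈ B ∧ 1 ≤ n}) a := by
  have hfin : ∀ X : ℕ, {n : ℕ | n ∈ B ∧ 1 ≤ n ∧ n ≤ X}.Finite := fun X =>
    (Set.finite_Icc 1 X).subset fun n hn => ⟨hn.2.1, hn.2.2⟩
  refine ⟨max C 0 + X₀, fun X hX => ?_⟩
  have hX0 : (0 : ℝ) ≤ X := by linarith
  have hs : {t | t ∈ (fun b : ℕ => (b : ℝ)) '' {n : ℕ | n ∈ B ∧ 1 ≤ n} ∧ t ≤ X} =
      (fun b : ℕ => (b : ℝ)) '' {n : ℕ | n ∈ B ∧ 1 ≤ n ∧ n ≤ ⌊X⌋₊} := by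
    ext t
    constructor
    · rintro ⟨⟨b, ⟨hb, hb1⟩, rfl⟩, h⟩
      exact ⟨b, ⟨hb, hb1, Nat.le_floor h⟩, rfl⟩
    · rintro ⟨b, ⟨hb, hb1, h⟩, rfl⟩
      exact ⟨⟨b, ⟨hb, hb1⟩, rfl⟩, (Nat.cast_le.2 h).trans (Nat.floor_le hX0)⟩
  rw [hs]
  refine ⟨(hfin _).image _, (Nat.cast_le.2 (Set.ncard_image_le (hfin _))).trans ?_⟩
  have hX1 : 1 ≤ X ^ a := Real.one_le_rpow hX ha
  have h0 : 0 ≤ max C 0 := le_max_right _ _
  have hN0 : (0 : ℝ) ≤ X₀ := Nat.cast_nonneg _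
  rcases le_total X₀ ⌊X⌋₊ with h1 | h1
  · refine (h _ h1).trans ?_
    have h2 : ((⌊X⌋₊ : ℕ) : ℝ) ^ a ≤ X ^ a := Real.rpow_le_rpow (Nat.cast_nonneg _) (Nat.floor_le hX0) ha
    have h3 : C * ((⌊X⌋₊ : ℕ) : ℝ) ^ a ≤ max C 0 * X ^ a :=
      mul_le_mul (le_max_left _ _) h2 (by positivity) h0
    nlinarith
  · have h2 : ({n : ℕ | n ∈ B ∧ 1 ≤ n ∧ n ≤ ⌊X⌋₊}.ncard : ℝ) ≤ X₀ := by
      refine Nat.cast_le.2 (le_trans (Set.ncard_le_ncard (t := Set.Icc 1 X₀) ?_ (Set.finite_Icc _ _)) ?_)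
      · intro n hn
        exact ⟨hn.2.1, hn.2.2.trans h1⟩
      · rw [← Finset.coe_Icc, Set.ncard_coe_finset, Nat.card_Icc]
        omega
    refine h2.trans ?_
    nlinarith

/-- **The law for sparse exceptional sets.** -/
theorem sparse_law {ι : Type} [Countable ι] {e : ℝ} (he : 0 ≤ e) (G : ι → ℕ → Prop)
    (h : ∀ (i : ι) (ε : ℝ), 0 < ε → ∃ (C : ℝ) (X₀ : ℕ), ∀ X : ℕ, X₀ ≤ X →
      ({n : ℕ | 1 ≤ n ∧ n ≤ X ∧ ¬ G i n}.ncard : ℝ) ≤ C * (X : ℝ) ^ (e + ε)) : AtApproximations e G := by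
  intro d D τ w l γ hd hτ hw
  have hF : ∀ (i : ι) (ε : ℝ), 0 < ε → Few ((fun b : ℕ => (b : ℝ)) '' {n : ℕ | n ∈ {n : ℕ | ¬ G i n} ∧ 1 ≤ n}) (e + ε) := by
    intro i ε hε
    obtain ⟨C, X₀, hC⟩ := h i ε hε
    refine few_of (C := C) (X₀ := X₀) (by linarith) fun X hX => ?_
    have hs : {n : ℕ | n ∈ {n : ℕ | ¬ G i n} ∧ 1 ≤ n ∧ n ≤ X} = {n : ℕ | 1 ≤ n ∧ n ≤ X ∧ ¬ G i n} := by
      ext n
      simp only [Set.mem_ofPred_eq]
      tauto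
    rw [hs]
    exact hC X hX
  choose E h1 h2 using fun i : ι => dim_polys_all (l := l) (hF i) he hw hτ γ D
  have hE : dimH (⋃ i, E i) ≤ ENNReal.ofReal ((d + 1 - l + e * D + w) / (1 + τ)) := by
    rw [dimH_iUnion]
    exact iSup_le h1
  refine ⟨⋃ i, E i, hE, fun hlt => null_of_dim hd hE ?_, fun α hα P hP1 hP2 i => ?_⟩
  · rw [div_lt_iff₀ (by linarith)]
    nlinarith
  · rw [Set.mem_iUnion, not_exists] at hα
    filter_upwards [h2 i α (hα i) P hP1 hP2] with k hk u hu n hn hle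
    by_contra hbad
    refine hk u hu n ⟨n, ⟨hbad, hn⟩, rfl⟩ ?_
    have : 0 ≤ (k : ℝ) ^ w := by positivity
    linarith

/-- the law for exceptional sets with at most `X ^ (1 - c)` elements up to `X`, for an unknown `c > 0` -/
theorem sparse_law_pow {ι : Type} [Countable ι] {c : ℝ} (hc1 : c ≤ 1) (G : ι → ℕ → Prop)
    (h : ∀ i : ι, ∃ (C : ℝ) (X₀ : ℕ), ∀ X : ℕ, X₀ ≤ X →
      ({n : ℕ | 1 ≤ n ∧ n ≤ X ∧ ¬ G i n}.ncard : ℝ) ≤ C * (X : ℝ) ^ (1 - c)) : AtApproximations (1 - c) G := by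
  refine sparse_law (by linarith) G fun i ε hε => ?_
  obtain ⟨C, X₀, hC⟩ := h i
  refine ⟨max C 0, max X₀ 1, fun X hX => (hC X (le_trans (le_max_left _ _) hX)).trans ?_⟩
  have hX1 : (1 : ℝ) ≤ X := by exact_mod_cast (le_trans (le_max_right _ _) hX)
  have h1 : (X : ℝ) ^ (1 - c) ≤ (X : ℝ) ^ (1 - c + ε) := Real.rpow_le_rpow_of_exponent_le hX1 (by linarith)
  exact mul_le_mul (le_max_left _ _) h1 (by positivity) (le_max_right _ _)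

/-- the law for integers -/
theorem sparse_law_int {ι : Type} [Countable ι] {e : ℝ} (he : 0 ≤ e) (G : ι → ℤ → Prop)
    (h : ∀ (i : ι) (ε : ℝ), 0 < ε → ∃ (C : ℝ) (X₀ : ℕ), ∀ X : ℕ, X₀ ≤ X →
      ({n : ℤ | |n| ≤ X ∧ ¬ G i n}.ncard : ℝ) ≤ C * (X : ℝ) ^ (e + ε)) :
    AtApproximations e (fun i (n : ℕ) => G i n ∧ G i (-n)) := by
  classical
  refine sparse_law he _ fun i ε hε => ?_
  obtain ⟨C, X₀, hC⟩ := h i ε hε
  refine ⟨C, X₀, fun X hX => le_trans (Nat.cast_le.2 ?_) (hC X hX)⟩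
  have hfin : {n : ℤ | |n| ≤ X ∧ ¬ G i n}.Finite := by
    refine (Set.finite_Icc (-(X : ℤ)) X).subset ?_
    rintro n ⟨hn, _⟩
    exact abs_le.1 hn
  refine Set.ncard_le_ncard_of_injOn (fun n : ℕ => if G i n then -(n : ℤ) else n) ?_ ?_ hfin
  · rintro n ⟨hn1, hn2, hn⟩
    have hnX : |(n : ℤ)| ≤ X := by
      rw [abs_of_nonneg (by positivity)]
      exact_mod_cast hn2
    by_cases hg : G i n
    · simp only [hg, if_true]
      refine ⟨by rw [abs_neg]; exact hnX, fun hcon => hn ⟨hg, hcon⟩⟩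
    · simp only [hg, if_false]
      exact ⟨hnX, hg⟩
  · rintro n ⟨hn1, _⟩ n' ⟨hn1', _⟩ heq
    simp only at heq
    split_ifs at heq <;> omega

/-- counting with filters -/
lemma ncard_le_filter {X : ℕ} {p Q : ℕ → Prop} [DecidablePred p] (h : ∀ n, 1 ≤ n → n ≤ X → ¬ Q n → p n) :
    ({n : ℕ | 1 ≤ n ∧ n ≤ X ∧ ¬ Q n}.ncard : ℝ) ≤ (((Icc 1 X).filter p).card : ℝ) := by
  rw [← Set.ncard_coe_finset]
  refine Nat.cast_le.2 (Set.ncard_le_ncard ?_ (Finset.finite_toSet _))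
  rintro n ⟨h1, h2, h3⟩
  rw [mem_coe, mem_filter, mem_Icc]
  exact ⟨⟨h1, h2⟩, h n h1 h2 h3⟩

end Pool.Agent.U513.AP
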