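import Pool.Agent.U513.AP.Log

/-!
# Sets with a saving `exp (- c (log X) ^ s)`
-/

set_option autoImplicit false

open Finset Filter MeasureTheory Topology

namespace Pool.Agent.U513.AP

lemma ev_exp (A : ℕ) (M : ℝ) {c s : ℝ} (hc : 0 < c) (hs : 0 < s) :
    ∀ᶠ X : ℕ in atTop, M * X * Real.exp (-(c * Real.log X ^ s)) ≤ X / Real.log X ^ A := by
  have h1 : Tendsto (fun z : ℝ => z ^ ((A : ℝ) / s) * Real.exp (-c * z)) atTop (𝓝 0) :=
    tendsto_rpow_mul_exp_neg_mul_atTop_nhds_zero _ _ hc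
  have h2 : Tendsto (fun X : ℕ => Real.log X ^ s) atTop atTop :=
    (tendsto_rpow_atTop hs).comp (Real.tendsto_log_atTop.comp tendsto_natCast_atTop_atTop)
  have h3 := h1.comp h2
  have h4 : ∀ᶠ X : ℕ in atTop, (Real.log X ^ s) ^ ((A : ℝ) / s) * Real.exp (-c * Real.log X ^ s) < 1 / (|M| + 1) :=
    h3.eventually_lt_const (by positivity)
  filter_upwards [h4, eventually_ge_atTop 3] with X hX hX3
  have hX3' : (3 : ℝ) ≤ X := by exact_mod_cast hX3
  have hlog : 0 < Real.log X := Real.log_pos (by linarith)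
  have h5 : (Real.log X ^ s) ^ ((A : ℝ) / s) = Real.log X ^ A := by
    rw [← Real.rpow_mul hlog.le, ← Real.rpow_natCast]
    congr 1
    field_simp
  rw [h5] at hX
  rw [le_div_iff₀ (by positivity)]
  have h6 : -c * Real.log X ^ s = -(c * Real.log X ^ s) := by ring
  rw [h6] at hX
  rw [lt_div_iff₀ (by positivity)] at hX
  have h7 : 0 ≤ Real.log X ^ A * Real.exp (-(c * Real.log X ^ s)) := by positivity
  have h8 : M * (Real.log X ^ A * Real.exp (-(c * Real.log X ^ s))) ≤ 1 := by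
    have := mul_le_mul_of_nonneg_right (le_abs_self M) h7
    nlinarith
  calc M * X * Real.exp (-(c * Real.log X ^ s)) * Real.log X ^ A
      = X * (M * (Real.log X ^ A * Real.exp (-(c * Real.log X ^ s)))) := by ring
    _ ≤ X * 1 := mul_le_mul_of_nonneg_left h8 (by linarith)
    _ = X := mul_one _

/-- sets with such a saving -/
theorem fewLog_exp {B : Set ℕ} {M c s : ℝ} (hc : 0 < c) (hs : 0 < s) (N₀ : ℕ)
    (h : ∀ X : ℕ, N₀ ≤ X → ({b : ℕ | b ∈ B ∧ 1 ≤ b ∧ b ≤ X}.ncard : ℝ) ≤ M * X * Real.exp (-(c * Real.log X ^ s)))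
    (A : ℕ) : FewLog B A := by
  obtain ⟨X₀, hX₀⟩ := eventually_atTop.1 (ev_exp A M hc hs)
  exact fewLog_of ⟨max N₀ X₀, fun X hX =>
    (h X (le_trans (le_max_left _ _) hX)).trans (hX₀ X (le_trans (le_max_right _ _) hX))⟩

end Pool.Agent.U513.AP
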