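import Pool.Agent.U513.AP.Log

/-!
# Properties of almost all integers, and integral affine forms at simultaneous approximations
-/

set_option autoImplicit false

open Finset Filter MeasureTheory Topology

namespace Pool.Agent.U513.AP

/-- all but `X / (log X) ^ U` of the integers `|k| ≤ X` have the property `G`, for every `U` and all large `X` -/
def FewInt (G : ℤ → Prop) : Prop :=
  ∀ U : ℕ, ∃ X₀ : ℕ, ∀ X : ℕ, X₀ ≤ X → ({k : ℤ | |k| ≤ (X : ℤ) ∧ ¬ G k}.ncard : ℝ) ≤ X / Real.log X ^ U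

lemma FewInt.of_true {G : ℤ → Prop} (h : ∀ k, G k) : FewInt G := by
  intro U
  refine ⟨1, fun X hX => ?_⟩
  have h1 : {k : ℤ | |k| ≤ (X : ℤ) ∧ ¬ G k} = ∅ := by
    ext k
    simp only [Set.mem_ofPred_eq, Set.mem_empty_iff_false, iff_false, not_and, not_not]
    exact fun _ => h k
  have hX1 : (1 : ℝ) ≤ X := by exact_mod_cast hX
  have := Real.log_nonneg hX1
  rw [h1, Set.ncard_empty, Nat.cast_zero]
  positivity

lemma fewLog_int {G : ℤ → Prop} (h : FewInt G) (A : ℕ) : FewLog {n : ℕ | ¬ (G n ∧ G (-n))} A := by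
  classical
  obtain ⟨X₀, hX₀⟩ := h A
  refine fewLog_of ⟨X₀, fun X hX => le_trans (Nat.cast_le.2 ?_) (hX₀ X hX)⟩
  have hfin : {k : ℤ | |k| ≤ (X : ℤ) ∧ ¬ G k}.Finite := by
    refine (Set.finite_Icc (-(X : ℤ)) X).subset ?_
    rintro k ⟨hk, _⟩
    exact abs_le.1 hk
  refine Set.ncard_le_ncard_of_injOn (fun n : ℕ => if G n then -(n : ℤ) else n) ?_ ?_ hfin
  · rintro n ⟨hn, hn1, hn2⟩
    have hnX : |(n : ℤ)| ≤ X := by
      rw [abs_of_nonneg (by positivity)]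
      exact_mod_cast hn2
    by_cases hg : G n
    · simp only [hg, if_true]
      refine ⟨by rw [abs_neg]; exact hnX, fun hcon => hn ⟨hg, hcon⟩⟩
    · simp only [hg, if_false]
      exact ⟨hnX, hg⟩
  · rintro n ⟨_, hn1, _⟩ n' ⟨_, hn1', _⟩ heq
    simp only at heq
    split_ifs at heq <;> omega

/-- **Properties of almost all integers near integral affine forms at simultaneous approximations**, for a countable family of
properties. -/
theorem near_int {ι : Type*} [Countable ι] (G : ι → ℤ → Prop) (hG : ∀ i, FewInt (G i)) {d : ℕ} {τ : ℝ} (hτ : 0 ≤ τ)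
    (γ : Fin d → ℝ) :
    ∃ E : Set (Fin d → ℝ), μH[((d : ℝ) + 1) / (1 + τ)] E = 0 ∧ (1 ≤ d * τ → volume E = 0) ∧
      ∀ α, α ∉ E → ∀ (i : ι) (W : ℕ) (g₀ g : ℤ) (h : Fin d → ℤ), ¬ (g = 0 ∧ h = 0) → ∀ᶠ q : ℕ in atTop,
        ∀ u : Fin d → ℤ, (∀ i, |(q : ℝ) * α i - γ i - u i| ≤ (q : ℝ) ^ (-τ)) →
          ∀ k : ℤ, k ≠ 0 → |(k : ℝ) - (g₀ + g * q + ∑ i, h i * u i : ℤ)| ≤ Real.log q ^ W → G i k := by
  choose E h1 h2 h3 using fun i : ι => null_forms_all (fewLog_int (hG i)) hτ γ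
  refine ⟨⋃ i, E i, measure_iUnion_null h1, fun h => measure_iUnion_null fun i => h2 i h, ?_⟩
  intro α hα i W g₀ g h hgh
  rw [Set.mem_iUnion, not_exists] at hα
  have hgh' : ¬ (-g = 0 ∧ -h = 0) := by
    rintro ⟨a1, a2⟩
    exact hgh ⟨neg_eq_zero.1 a1, neg_eq_zero.1 a2⟩
  filter_upwards [h3 i α (hα i) W g₀ g h hgh, h3 i α (hα i) W (-g₀) (-g) (-h) hgh'] with q hq hq' u hu k hk hle
  obtain ⟨n, hn⟩ : ∃ n : ℕ, n = k.natAbs := ⟨_, rfl⟩
  have hn1 : 1 ≤ n := by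
    have := Int.natAbs_pos.2 hk
    omega
  rcases Int.natAbs_eq k with h4 | h4
  · rw [← hn] at h4
    by_contra hbad
    refine hq u hu n (fun hcon => hbad (by rw [h4]; exact hcon.1)) hn1 ?_
    have e : ((n : ℕ) : ℝ) = (k : ℝ) := by rw [h4]; push_cast; ring
    rw [e]
    exact hle
  · rw [← hn] at h4
    by_contra hbad
    refine hq' u hu n (fun hcon => hbad (by rw [h4]; exact hcon.2)) hn1 ?_
    have e : ((n : ℕ) : ℝ) = -(k : ℝ) := by rw [h4]; push_cast; ring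
    have e2 : ((-g₀ + -g * q + ∑ i, (-h) i * u i : ℤ) : ℝ) = -((g₀ + g * q + ∑ i, h i * u i : ℤ) : ℝ) := by
      rw [← Int.cast_neg]
      congr 1
      simp only [Pi.neg_apply, neg_mul, Finset.sum_neg_distrib]
      ring
    rw [e, e2, show -(k : ℝ) - -((g₀ + g * q + ∑ i, h i * u i : ℤ) : ℝ) =
      -((k : ℝ) - ((g₀ + g * q + ∑ i, h i * u i : ℤ) : ℝ)) by ring, abs_neg]
    exact hle

end Pool.Agent.U513.AP
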