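import Pool.Agent.U513.AP.Rat

/-!
# Sets of rational numbers with few elements of bounded height, and rational approximations
-/

set_option autoImplicit false

open Finset Filter MeasureTheory Topology
open scoped ENNReal NNReal

namespace Pool.Agent.U513.AP

lemma num_le {b : ℚ} {A H : ℕ} (h1 : |(b : ℝ)| ≤ A) (h2 : b.den ≤ H) : b.num.natAbs ≤ A * H := by
  have h3 : (0 : ℝ) < b.den := by exact_mod_cast b.den_pos
  have h4 : (b.num : ℝ) = b * b.den := by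
    have h5 : (b : ℝ) = (b.num : ℝ) / (b.den : ℝ) := by
      have := Rat.num_div_den b
      calc (b : ℝ) = (((b.num : ℚ) / (b.den : ℚ) : ℚ) : ℝ) := by rw [this]
        _ = _ := by push_cast; rfl
    rw [h5]
    field_simp
  have h6 : |(b.num : ℝ)| ≤ A * H := by
    rw [h4, abs_mul, abs_of_pos h3]
    exact mul_le_mul h1 (by exact_mod_cast h2) h3.le (Nat.cast_nonneg _)
  have h7 : |b.num| ≤ ((A * H : ℕ) : ℤ) := by exact_mod_cast h6
  rw [← Int.natCast_natAbs] at h7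
  exact_mod_cast h7

lemma finite_height (H : ℕ) : {b : ℚ | b.num.natAbs ≤ H ∧ b.den ≤ H}.Finite := by
  refine Set.Finite.subset (Set.Finite.image (fun p : ℤ × ℤ => ((p.1 : ℚ) / (p.2 : ℚ)))
    (Set.Finite.prod (Set.finite_Icc (-(H : ℤ)) (H : ℤ)) (Set.finite_Icc (0 : ℤ) H))) ?_
  rintro b ⟨hb1, hb2⟩
  refine ⟨(b.num, (b.den : ℤ)), ⟨?_, ?_⟩, ?_⟩
  · rw [Set.mem_Icc, ← abs_le, ← Int.natCast_natAbs]
    exact_mod_cast hb1
  · show (b.den : ℤ) ∈ Set.Icc (0 : ℤ) H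
    rw [Set.mem_Icc]
    exact ⟨by positivity, by exact_mod_cast hb2⟩
  · dsimp only
    rw [Int.cast_natCast]
    exact Rat.num_div_den b

/-- **The law for rational numbers, by height.** -/
theorem rat_law_height {B : Set ℚ} {e : ℝ} (he : 0 ≤ e)
    (h : ∀ ε : ℝ, 0 < ε → ∃ (C : ℝ), ∀ H : ℕ, 1 ≤ H →
      ({b : ℚ | b ∈ B ∧ b.num.natAbs ≤ H ∧ b.den ≤ H}.ncard : ℝ) ≤ C * (H : ℝ) ^ (e + ε)) {τ : ℝ} (hτ : 0 < τ) :
    ∃ E : Set ℝ, dimH E ≤ ENNReal.ofReal (e / τ) ∧ (e < τ → volume E = 0) ∧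
      ∀ α : ℝ, α ∉ E → {b : ℚ | b ∈ B ∧ |α - b| ≤ (b.den : ℝ) ^ (-τ)}.Finite := by
  classical
  refine rat_law he (fun A ε hε => ?_) hτ
  obtain ⟨C, hC⟩ := h ε hε
  refine ⟨max C 0 * ((A : ℝ) + 1) ^ (e + ε), fun H hH => ?_⟩
  have hsub : {b : ℚ | b ∈ B ∧ |(b : ℝ)| ≤ A ∧ b.den ≤ H} ⊆
      {b : ℚ | b ∈ B ∧ b.num.natAbs ≤ (A + 1) * H ∧ b.den ≤ (A + 1) * H} := by
    rintro b ⟨h1, h2, h3⟩
    have h4 := num_le h2 h3
    refine ⟨h1, h4.trans (Nat.mul_le_mul_right _ (by omega)), h3.trans ?_⟩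
    exact Nat.le_mul_of_pos_left _ (by omega)
  have hfin : {b : ℚ | b ∈ B ∧ b.num.natAbs ≤ (A + 1) * H ∧ b.den ≤ (A + 1) * H}.Finite :=
    (finite_height ((A + 1) * H)).subset fun b hb => hb.2
  refine ⟨hfin.subset hsub, (Nat.cast_le.2 (Set.ncard_le_ncard hsub hfin)).trans ?_⟩
  refine (hC ((A + 1) * H) (Nat.mul_pos (by omega) hH)).trans ?_
  rw [mul_assoc, ← Real.mul_rpow (by positivity) (by positivity)]
  refine mul_le_mul (le_max_left _ _) (le_of_eq ?_) (by positivity) (le_max_right _ _)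
  congr 1
  push_cast
  ring

end Pool.Agent.U513.AP
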