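import Pool.Agent.U513.AP.Core

/-!
# Few exceptional tuples, and the approximations as tuples

`R c` are properties of tuples `s` of `d + 1` natural numbers such that at most `K N ^ a` of the tuples in `[N, κ N] ^ (d + 1)` have
it, for all `κ` and large `N`. Outside of a set of Hausdorff dimension at most `a / (1 + τ)`, the approximations `(k, u)` of
`α ∈ (0, ∞) ^ d` with `|k α_i - γ_i - u_i| ≤ k ^ (-τ)` and large `k` do not have it.
-/

set_option autoImplicit false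

open Finset Filter MeasureTheory Topology
open scoped ENNReal NNReal

namespace Pool.Agent.U513.AP

/-- the points of `[1 / m, m] ^ d` approximated by infinitely many tuples with the property `R` -/
def ExcTup {d : ℕ} (R : (Fin (d + 1) → ℕ) → Prop) (τ : ℝ) (γ : Fin d → ℝ) (m : ℕ) : Set (Fin d → ℝ) :=
  {α | (∀ i, 1 / (m : ℝ) ≤ α i ∧ α i ≤ m) ∧ ∀ N : ℕ, ∃ s : Fin (d + 1) → ℕ, N ≤ s 0 ∧
    α ∈ pts τ γ (fun i => (s i : ℤ)) ∧ R s}

theorem dim_tuples {d : ℕ} {a : ℝ} (ha : 0 ≤ a) (R : (Fin (d + 1) → ℕ) → Prop)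
    (h : ∀ κ : ℕ, ∃ K N₀ : ℕ, ∀ N : ℕ, N₀ ≤ N →
      ({s : Fin (d + 1) → ℕ | (∀ j, N ≤ s j ∧ s j ≤ κ * N) ∧ R s}.ncard : ℝ) ≤ K * (N : ℝ) ^ a)
    {τ : ℝ} (hτ : 0 ≤ τ) (γ : Fin d → ℝ) (m : ℕ) (hm : 1 ≤ m) :
    dimH (ExcTup R τ γ m) ≤ ENNReal.ofReal (a / (1 + τ)) := by
  classical
  obtain ⟨G, hG⟩ := exists_nat_ge (∑ i, |γ i|)
  have hG' : ∀ i, |γ i| ≤ G := fun i =>
    (Finset.single_le_sum (fun i _ => abs_nonneg (γ i)) (mem_univ i)).trans hG
  obtain ⟨κ, hκ⟩ : ∃ κ : ℕ, κ = 16 * m ^ 2 + 8 * m := ⟨_, rfl⟩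
  obtain ⟨K, N₀, hN⟩ := h κ
  have hfin : ∀ N : ℕ, {s : Fin (d + 1) → ℕ | (∀ j, N ≤ s j ∧ s j ≤ κ * N) ∧ R s}.Finite := by
    intro N
    refine (Set.Finite.pi' (t := fun _ : Fin (d + 1) => Set.Icc N (κ * N)) fun _ => Set.finite_Icc _ _).subset ?_
    intro s hs j
    exact ⟨(hs.1 j).1, (hs.1 j).2⟩
  have h1τ : 0 < 1 + τ := by linarith
  have hm1 : (1 : ℝ) ≤ m := by exact_mod_cast hm
  refine limsup_dim (Q := Fin (d + 1) → ℕ) _
    (fun j => if N₀ ≤ 2 ^ j / (2 * m) then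
      ((hfin (2 ^ j / (2 * m))).toFinset).filter (fun s => 2 ^ j ≤ s 0) else ∅)
    (fun s => pts τ γ (fun i => (s i : ℤ))) (a := a) (b := 1 + τ) (C := K) (D := 2) h1τ (Nat.cast_nonneg _) (by norm_num) ha
    ?_ ?_ ?_
  · intro j
    by_cases hj : N₀ ≤ 2 ^ j / (2 * m)
    · rw [if_pos hj]
      have h1 := hN _ hj
      have h2 : (((hfin (2 ^ j / (2 * m))).toFinset.filter (fun s => 2 ^ j ≤ s 0)).card : ℝ) ≤
          ({s : Fin (d + 1) → ℕ | (∀ i, 2 ^ j / (2 * m) ≤ s i ∧ s i ≤ κ * (2 ^ j / (2 * m))) ∧ R s}.ncard : ℝ) := by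
        rw [Set.ncard_eq_toFinset_card _ (hfin _)]
        exact_mod_cast card_filter_le _ _
      refine h2.trans (h1.trans ?_)
      apply mul_le_mul_of_nonneg_left _ (Nat.cast_nonneg _)
      apply Real.rpow_le_rpow (Nat.cast_nonneg _) _ ha
      have : 2 ^ j / (2 * m) ≤ 2 ^ j := Nat.div_le_self _ _
      exact_mod_cast this
    · rw [if_neg hj, card_empty, Nat.cast_zero]
      positivity
  · intro j s hs
    by_cases hj : N₀ ≤ 2 ^ j / (2 * m)
    · rw [if_pos hj, mem_filter] at hs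
      have := diam_pts hτ γ (fun i => (s i : ℤ)) (2 ^ j) Nat.one_le_two_pow (by exact_mod_cast hs.2)
      push_cast at this
      exact this
    · rw [if_neg hj] at hs
      exact absurd hs (notMem_empty _)
  · rintro α ⟨hα1, hα2⟩ N
    obtain ⟨j0, hj0⟩ : ∃ j0 : ℕ, N₀ + 2 * m * (G + 2) + 2 * m + N < 2 ^ j0 / (2 * m) := by
      obtain ⟨j0, hj0⟩ := (tendsto_pow_atTop_atTop_of_one_lt (by norm_num : (1 : ℕ) < 2)).eventually_gt_atTop
        ((N₀ + 2 * m * (G + 2) + 2 * m + N + 1) * (2 * m)) |>.exists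
      refine ⟨j0, ?_⟩
      rw [Nat.lt_iff_add_one_le, Nat.le_div_iff_mul_le (by omega)]
      exact hj0.le
    obtain ⟨s, hs0, hs1, hs2⟩ := hα2 (2 ^ (max N j0 + 1))
    have hk0 : s 0 ≠ 0 := by
      have : 1 ≤ 2 ^ (max N j0 + 1) := Nat.one_le_two_pow
      omega
    have h4 : 2 ^ (Nat.log 2 (s 0)) ≤ s 0 := Nat.pow_log_le_self 2 hk0
    have h5 : s 0 < 2 ^ (Nat.log 2 (s 0) + 1) := Nat.lt_pow_succ_log_self (by norm_num) _
    have h6 : max N j0 + 1 ≤ Nat.log 2 (s 0) := Nat.le_log_of_pow_le (by norm_num) hs0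
    have h7 : 2 ^ j0 / (2 * m) ≤ 2 ^ (Nat.log 2 (s 0)) / (2 * m) :=
      Nat.div_le_div_right (Nat.pow_le_pow_right (by norm_num) (by have := le_max_right N j0; omega))
    refine ⟨Nat.log 2 (s 0), by have := le_max_left N j0; omega, s, ?_, hs1⟩
    obtain ⟨n, hn⟩ : ∃ n, n = 2 ^ (Nat.log 2 (s 0)) := ⟨_, rfl⟩
    rw [pow_succ] at h5
    rw [← hn] at h4 h5 h7 ⊢
    obtain ⟨M, hM⟩ : ∃ M, M = n / (2 * m) := ⟨_, rfl⟩
    rw [← hM] at h7 ⊢
    have hM1 : M * (2 * m) ≤ n := by rw [hM]; exact Nat.div_mul_le_self _ _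
    have hM2 : n < (M + 1) * (2 * m) := by rw [hM]; exact (Nat.div_lt_iff_lt_mul (by omega)).1 (Nat.lt_succ_self _)
    rw [if_pos (by omega), mem_filter, Set.Finite.mem_toFinset]
    refine ⟨⟨?_, hs2⟩, h4⟩
    have hMr1 : (M : ℝ) * (2 * m) ≤ n := by exact_mod_cast hM1
    have hMr2 : (n : ℝ) < (M + 1) * (2 * m) := by exact_mod_cast hM2
    have hMbig : (2 * (m : ℝ) * (G + 2) + 2 * m) ≤ M := by
      have : 2 * m * (G + 2) + 2 * m ≤ M := by omega
      exact_mod_cast this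
    have hG0 : (0 : ℝ) ≤ G := Nat.cast_nonneg _
    have hs0r : (n : ℝ) ≤ s 0 := by exact_mod_cast h4
    have hs0r' : (s 0 : ℝ) ≤ 2 * n := by
      have : s 0 ≤ 2 * n := by omega
      exact_mod_cast this
    have hM0 : (1 : ℝ) ≤ M := by nlinarith
    have hnM : (n : ℝ) ≤ 4 * m * M := by nlinarith
    have hκr : (κ : ℝ) = 16 * (m : ℝ) ^ 2 + 8 * m := by rw [hκ]; push_cast; ring
    have hmm : (m : ℝ) ≤ (m : ℝ) ^ 2 := by nlinarith
    intro i
    rcases Fin.eq_zero_or_eq_succ i with rfl | ⟨i', rfl⟩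
    · constructor
      · have : (M : ℝ) ≤ s 0 := by nlinarith
        exact_mod_cast this
      · have : (s 0 : ℝ) ≤ κ * M := by
          rw [hκr]
          nlinarith
        exact_mod_cast this
    · have g1 := abs_le.1 (hs1 i')
      have g2 := abs_le.1 (hG' i')
      obtain ⟨g3, g4⟩ := hα1 i'
      simp only [Int.cast_natCast] at g1
      have hk1 : (1 : ℝ) ≤ s 0 := by exact_mod_cast Nat.one_le_iff_ne_zero.2 hk0
      have g5 : (s 0 : ℝ) ^ (-τ) ≤ 1 := Real.rpow_le_one_of_one_le_of_nonpos hk1 (by linarith)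
      have g6 : (s 0 : ℝ) / m ≤ s 0 * α i' := by
        calc (s 0 : ℝ) / m = s 0 * (1 / m) := by ring
          _ ≤ _ := mul_le_mul_of_nonneg_left g3 (by linarith)
      have g7 : (s 0 : ℝ) * α i' ≤ s 0 * m := mul_le_mul_of_nonneg_left g4 (by linarith)
      have g8 : 2 * (M : ℝ) ≤ s 0 / m := by
        rw [le_div_iff₀ (by linarith)]
        nlinarith
      constructor
      · have : (M : ℝ) ≤ s i'.succ := by nlinarith
        exact_mod_cast this
      · have : (s i'.succ : ℝ) ≤ κ * M := by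
          rw [hκr]
          have : (s 0 : ℝ) * m ≤ 8 * (m : ℝ) ^ 2 * M := by nlinarith
          nlinarith
        exact_mod_cast this

/-- **The law for tuples.** -/
theorem tuple_law {d : ℕ} {a : ℝ} (ha : 0 ≤ a) (R : ℕ → (Fin (d + 1) → ℕ) → Prop)
    (h : ∀ c κ : ℕ, ∃ K N₀ : ℕ, ∀ N : ℕ, N₀ ≤ N →
      ({s : Fin (d + 1) → ℕ | (∀ j, N ≤ s j ∧ s j ≤ κ * N) ∧ R c s}.ncard : ℝ) ≤ K * (N : ℝ) ^ a)
    {τ : ℝ} (hτ : 0 ≤ τ) (γ : Fin d → ℝ) :
    ∃ E : Set (Fin d → ℝ), dimH E ≤ ENNReal.ofReal (a / (1 + τ)) ∧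
      ∀ α, α ∉ E → (∀ i, 0 < α i) → ∀ c : ℕ, ∀ᶠ k : ℕ in atTop, ∀ u : Fin d → ℕ,
        (∀ i, |(k : ℝ) * α i - γ i - u i| ≤ (k : ℝ) ^ (-τ)) → ¬ R c (Fin.cons k u : Fin (d + 1) → ℕ) := by
  classical
  refine ⟨⋃ c : ℕ, ⋃ m : ℕ, ExcTup (R c) τ γ (m + 1), ?_, ?_⟩
  · rw [dimH_iUnion]
    refine iSup_le fun c => ?_
    rw [dimH_iUnion]
    exact iSup_le fun m => dim_tuples ha (R c) (h c) hτ γ (m + 1) (by omega)
  · intro α hα hpos c
    rw [Set.mem_iUnion, not_exists] at hα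
    have hα := hα c
    rw [Set.mem_iUnion, not_exists] at hα
    obtain ⟨m, hm⟩ := exists_nat_ge (∑ i, (α i + 1 / α i))
    have h1 := hα m
    unfold ExcTup at h1
    simp only [Set.mem_ofPred_eq, not_and, not_forall, not_exists] at h1
    have h2 : ∀ i, α i + 1 / α i ≤ m := fun i => by
      refine le_trans ?_ hm
      exact Finset.single_le_sum (f := fun i => α i + 1 / α i)
        (fun i _ => by have := hpos i; positivity) (mem_univ i)
    obtain ⟨N, hN⟩ := h1 (fun i => by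
      have h3 := hpos i
      have h4 := h2 i
      have h5 : 0 < 1 / α i := by positivity
      have hm1 : (0 : ℝ) < (m : ℝ) + 1 := by positivity
      push_cast
      constructor
      · rw [div_le_iff₀ hm1]
        have h6 : 1 / α i ≤ m + 1 := by linarith
        rw [div_le_iff₀ h3] at h6
        linarith
      · linarith)
    rw [eventually_atTop]
    refine ⟨N, fun k hk u hu hR => hN (Fin.cons k u) (by simpa using hk) ?_ hR⟩
    intro i
    have := hu i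
    simpa using this

end Pool.Agent.U513.AP
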