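import Pool.Agent.U513.AP.Core

/-!
# Few exceptional integral tuples

`R c` are properties of tuples `s` of `d + 1` integers, `c` in a countable set, such that at most `K N ^ a` of the tuples in
`[-N, N] ^ (d + 1)` have it, for large `N`. Outside of a set of Hausdorff dimension at most `a / (1 + τ)`, the approximations
`(k, u)` of `α ∈ ℝ ^ d` with `|k α_i - γ_i - u_i| ≤ k ^ (-τ)` and large `k` do not have it. Also the number of integral points
whose image by a nonsingular matrix begins with a tuple in a given set.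
-/

set_option autoImplicit false

open Finset Filter MeasureTheory Topology
open scoped ENNReal NNReal

namespace Pool.Agent.U513.AP

/-- the points of `[-A, A] ^ d` approximated by infinitely many tuples with the property `R` -/
def ExcInt {d : ℕ} (R : (Fin (d + 1) → ℤ) → Prop) (τ : ℝ) (γ : Fin d → ℝ) (A : ℕ) : Set (Fin d → ℝ) :=
  {α | (∀ i, |α i| ≤ A) ∧ ∀ N : ℕ, ∃ q : Fin (d + 1) → ℤ, (N : ℤ) ≤ q 0 ∧ α ∈ pts τ γ q ∧ R q}

theorem dim_int {d : ℕ} {a : ℝ} (ha : 0 ≤ a) (R : (Fin (d + 1) → ℤ) → Prop)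
    (h : ∃ K N₀ : ℕ, ∀ N : ℕ, N₀ ≤ N →
      ({s : Fin (d + 1) → ℤ | (∀ j, |s j| ≤ (N : ℤ)) ∧ R s}.ncard : ℝ) ≤ K * (N : ℝ) ^ a)
    {τ : ℝ} (hτ : 0 ≤ τ) (γ : Fin d → ℝ) (A : ℕ) :
    dimH (ExcInt R τ γ A) ≤ ENNReal.ofReal (a / (1 + τ)) := by
  classical
  obtain ⟨G, hG⟩ := exists_nat_ge (∑ i, |γ i|)
  have hG' : ∀ i, |γ i| ≤ G := fun i =>
    (Finset.single_le_sum (fun i _ => abs_nonneg (γ i)) (mem_univ i)).trans hG
  obtain ⟨r, hr⟩ : ∃ r : ℕ, r = 2 * (A + G + 1) := ⟨_, rfl⟩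
  obtain ⟨K, N₀, hN⟩ := h
  have hfin : ∀ N : ℕ, {s : Fin (d + 1) → ℤ | (∀ j, |s j| ≤ (N : ℤ)) ∧ R s}.Finite := by
    intro N
    refine (SBox (d + 1) N).finite_toSet.subset ?_
    intro s hs
    rw [mem_coe, mem_SBox]
    exact hs.1
  refine limsup_dim (Q := Fin (d + 1) → ℤ) _
    (fun j => if N₀ ≤ r * 2 ^ j then ((hfin (r * 2 ^ j)).toFinset).filter (fun s => ((2 ^ j : ℕ) : ℤ) ≤ s 0) else ∅)
    (fun s => pts τ γ s) (a := a) (b := 1 + τ) (C := K * (r : ℝ) ^ a) (D := 2) (by linarith) (by positivity)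
    (by norm_num) ha ?_ ?_ ?_
  · intro j
    by_cases hj : N₀ ≤ r * 2 ^ j
    · rw [if_pos hj]
      have h1 := hN _ hj
      have h2 : (((hfin (r * 2 ^ j)).toFinset.filter (fun s => ((2 ^ j : ℕ) : ℤ) ≤ s 0)).card : ℝ) ≤
          ({s : Fin (d + 1) → ℤ | (∀ i, |s i| ≤ ((r * 2 ^ j : ℕ) : ℤ)) ∧ R s}.ncard : ℝ) := by
        rw [Set.ncard_eq_toFinset_card _ (hfin _)]
        exact_mod_cast card_filter_le _ _
      refine h2.trans (h1.trans ?_)
      rw [mul_assoc, ← Real.mul_rpow (by positivity) (by positivity)]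
      apply mul_le_mul_of_nonneg_left _ (Nat.cast_nonneg _)
      apply Real.rpow_le_rpow (Nat.cast_nonneg _) _ ha
      push_cast
      exact le_refl _
    · rw [if_neg hj, card_empty, Nat.cast_zero]
      positivity
  · intro j s hs
    by_cases hj : N₀ ≤ r * 2 ^ j
    · rw [if_pos hj, mem_filter] at hs
      have := diam_pts hτ γ s (2 ^ j) Nat.one_le_two_pow hs.2
      push_cast at this
      exact this
    · rw [if_neg hj] at hs
      exact absurd hs (notMem_empty _)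
  · rintro α ⟨hA, hα⟩ N
    obtain ⟨j0, hj0⟩ : ∃ j0 : ℕ, N₀ < 2 ^ j0 :=
      ((tendsto_pow_atTop_atTop_of_one_lt (by norm_num : (1 : ℕ) < 2)).eventually_gt_atTop N₀).exists
    obtain ⟨q, h1, h2, h3⟩ := hα (2 ^ (max N j0))
    obtain ⟨k, hk⟩ : ∃ k : ℕ, (k : ℤ) = q 0 := ⟨(q 0).toNat, Int.toNat_of_nonneg (le_trans (by positivity) h1)⟩
    rw [← hk] at h1
    have h1' : 2 ^ (max N j0) ≤ k := by exact_mod_cast h1
    have hk0 : k ≠ 0 := by
      have : 1 ≤ 2 ^ (max N j0) := Nat.one_le_two_pow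
      omega
    have h4 : 2 ^ (Nat.log 2 k) ≤ k := Nat.pow_log_le_self 2 hk0
    have h5 : k < 2 ^ (Nat.log 2 k + 1) := Nat.lt_pow_succ_log_self (by norm_num) k
    have h6 : max N j0 ≤ Nat.log 2 k := Nat.le_log_of_pow_le (by norm_num) h1'
    have h7 : 2 ^ j0 ≤ 2 ^ (Nat.log 2 k) :=
      Nat.pow_le_pow_right (by norm_num) (by have := le_max_right N j0; omega)
    refine ⟨Nat.log 2 k, by have := le_max_left N j0; omega, q, ?_, h2⟩
    obtain ⟨n, hn⟩ : ∃ n, n = 2 ^ (Nat.log 2 k) := ⟨_, rfl⟩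
    rw [pow_succ] at h5
    rw [← hn] at h4 h5 h7 ⊢
    have hr1 : 1 ≤ r := by omega
    have hrn : n ≤ r * n := Nat.le_mul_of_pos_left n hr1
    rw [if_pos (by omega), mem_filter, Set.Finite.mem_toFinset]
    have hsz := size hτ hA hG' h2 (by rw [← hk]; exact_mod_cast Nat.one_le_iff_ne_zero.2 hk0)
    rw [← hk] at hsz
    have hkR : (k : ℝ) ≤ 2 * n := by
      have : k ≤ n * 2 := h5.le
      have : (k : ℝ) ≤ n * 2 := by exact_mod_cast this
      linarith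
    refine ⟨⟨?_, h3⟩, by rw [← hk]; exact_mod_cast h4⟩
    intro i
    have h8 : |(q i : ℝ)| ≤ ((r * n : ℕ) : ℝ) := by
      refine (hsz i).trans ?_
      rw [hr]
      push_cast
      have : (0 : ℝ) ≤ A + G + 1 := by positivity
      nlinarith
    exact_mod_cast h8

/-- **The law for integral tuples.** -/
theorem int_law {d : ℕ} {a : ℝ} (ha : 0 ≤ a) {ι : Type*} [Countable ι] (R : ι → (Fin (d + 1) → ℤ) → Prop)
    (h : ∀ c, ∃ K N₀ : ℕ, ∀ N : ℕ, N₀ ≤ N →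
      ({s : Fin (d + 1) → ℤ | (∀ j, |s j| ≤ (N : ℤ)) ∧ R c s}.ncard : ℝ) ≤ K * (N : ℝ) ^ a)
    {τ : ℝ} (hτ : 0 ≤ τ) (γ : Fin d → ℝ) :
    ∃ E : Set (Fin d → ℝ), dimH E ≤ ENNReal.ofReal (a / (1 + τ)) ∧
      ∀ α, α ∉ E → ∀ c, ∀ᶠ k : ℕ in atTop, ∀ u : Fin d → ℤ,
        (∀ i, |(k : ℝ) * α i - γ i - u i| ≤ (k : ℝ) ^ (-τ)) → ¬ R c (Fin.cons (k : ℤ) u : Fin (d + 1) → ℤ) := by
  classical
  refine ⟨⋃ c : ι, ⋃ m : ℕ, ExcInt (R c) τ γ m, ?_, ?_⟩
  · rw [dimH_iUnion]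
    refine iSup_le fun c => ?_
    rw [dimH_iUnion]
    exact iSup_le fun m => dim_int ha (R c) (h c) hτ γ m
  · intro α hα c
    rw [Set.mem_iUnion, not_exists] at hα
    have hα := hα c
    rw [Set.mem_iUnion, not_exists] at hα
    obtain ⟨m, hm⟩ := exists_nat_ge (∑ i, |α i|)
    have h1 := hα m
    unfold ExcInt at h1
    simp only [Set.mem_ofPred_eq, not_and, not_forall, not_exists] at h1
    obtain ⟨N, hN⟩ := h1 fun i => (Finset.single_le_sum (fun i _ => abs_nonneg (α i)) (mem_univ i)).trans hm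
    rw [eventually_atTop]
    refine ⟨N, fun k hk u hu hR => hN (Fin.cons (k : ℤ) u) (by simpa using hk) ?_ hR⟩
    intro i
    have := hu i
    simpa using this

/-- the first entries of `G s + c` -/
def first {d m : ℕ} (hm : m ≤ d + 1) (G : Matrix (Fin (d + 1)) (Fin (d + 1)) ℤ) (c s : Fin (d + 1) → ℤ) : Fin m → ℤ :=
  fun i => (G.mulVec s + c) (Fin.castLE hm i)

lemma bound_mulVec {n : ℕ} (G : Matrix (Fin n) (Fin n) ℤ) (c : Fin n → ℤ) :
    ∃ K : ℕ, 1 ≤ K ∧ ∀ N : ℕ, 1 ≤ N → ∀ s : Fin n → ℤ, (∀ j, |s j| ≤ (N : ℤ)) →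
      ∀ i, |(G.mulVec s + c) i| ≤ ((K * N : ℕ) : ℤ) := by
  refine ⟨1 + ∑ i, ((∑ j, (G i j).natAbs) + (c i).natAbs), by omega, fun N hN s hs i => ?_⟩
  have h1 : (∑ j, (G i j).natAbs) + (c i).natAbs ≤ ∑ i, ((∑ j, (G i j).natAbs) + (c i).natAbs) :=
    Finset.single_le_sum (f := fun i => (∑ j, (G i j).natAbs) + (c i).natAbs) (fun i _ => Nat.zero_le _) (mem_univ i)
  have h2 : |(G.mulVec s + c) i| ≤ (((∑ j, (G i j).natAbs) + (c i).natAbs : ℕ) : ℤ) * N := by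
    have h3 : (G.mulVec s + c) i = (∑ j, G i j * s j) + c i := rfl
    rw [h3]
    have h4 : |∑ j, G i j * s j| ≤ ((∑ j, (G i j).natAbs : ℕ) : ℤ) * N := by
      push_cast
      rw [Finset.sum_mul]
      refine (Finset.abs_sum_le_sum_abs _ _).trans (Finset.sum_le_sum fun j _ => ?_)
      rw [abs_mul]
      exact mul_le_mul_of_nonneg_left (hs j) (abs_nonneg _)
    have h5 : |c i| ≤ ((c i).natAbs : ℤ) * N := by
      rw [Int.natCast_natAbs]
      have : (1 : ℤ) ≤ N := by exact_mod_cast hN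
      nlinarith [abs_nonneg (c i)]
    refine (abs_add_le _ _).trans ?_
    push_cast at h4 h5 ⊢
    rw [add_mul]
    exact add_le_add h4 h5
  refine h2.trans ?_
  have h6 : ((∑ j, (G i j).natAbs) + (c i).natAbs) * N ≤ (1 + ∑ i, ((∑ j, (G i j).natAbs) + (c i).natAbs)) * N :=
    Nat.mul_le_mul_right _ (by omega)
  exact_mod_cast h6

/-- the number of integral points whose image begins with a tuple in `S` -/
theorem count_first {d m : ℕ} (hm : m ≤ d + 1) {S : Set (Fin m → ℤ)} {C b : ℝ}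
    (hS : ∀ T : ℕ, 1 ≤ T → ({α : Fin m → ℤ | (∀ i, |α i| ≤ (T : ℤ)) ∧ α ∈ S}.ncard : ℝ) ≤ C * (T : ℝ) ^ ((m : ℝ) - b))
    (G : Matrix (Fin (d + 1)) (Fin (d + 1)) ℤ) (hG : G.det ≠ 0) (c : Fin (d + 1) → ℤ) :
    ∃ K N₀ : ℕ, ∀ N : ℕ, N₀ ≤ N →
      ({s : Fin (d + 1) → ℤ | (∀ j, |s j| ≤ (N : ℤ)) ∧ first hm G c s ∈ S}.ncard : ℝ) ≤
        K * (N : ℝ) ^ ((d : ℝ) + 1 - b) := by
  classical
  obtain ⟨K, hK1, hK⟩ := bound_mulVec G c
  obtain ⟨C', hC'⟩ := exists_nat_ge (C * (K : ℝ) ^ ((m : ℝ) - b) * (3 * K) ^ (d + 1 - m))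
  refine ⟨C', 1, fun N hN => ?_⟩
  have hT : 1 ≤ K * N := Nat.mul_pos hK1 hN
  have hN0 : (0 : ℝ) < N := by exact_mod_cast hN
  have hK0 : (0 : ℝ) < K := by exact_mod_cast hK1
  have hfin : {α : Fin m → ℤ | (∀ i, |α i| ≤ ((K * N : ℕ) : ℤ)) ∧ α ∈ S}.Finite := by
    refine (SBox m (K * N)).finite_toSet.subset ?_
    intro s hs
    rw [mem_coe, mem_SBox]
    exact hs.1
  have h1 : {s : Fin (d + 1) → ℤ | (∀ j, |s j| ≤ (N : ℤ)) ∧ first hm G c s ∈ S}.ncard ≤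
      (hfin.toFinset ×ˢ SBox (d + 1 - m) (K * N)).card := by
    rw [← Set.ncard_coe_finset]
    refine Set.ncard_le_ncard_of_injOn
      (fun s => (first hm G c s, fun i : Fin (d + 1 - m) => (G.mulVec s + c) ⟨m + i, by omega⟩)) ?_ ?_
      (Finset.finite_toSet _)
    · rintro s ⟨h1, h2⟩
      have h3 := hK N hN s h1
      rw [mem_coe, mem_product, Set.Finite.mem_toFinset, mem_SBox]
      exact ⟨⟨fun i => h3 _, h2⟩, fun i => h3 _⟩
    · intro s hs s' hs' hss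
      rw [Prod.mk.injEq] at hss
      have h3 : G.mulVec s = G.mulVec s' := by
        funext i
        have h4 : (G.mulVec s + c) i = (G.mulVec s' + c) i := by
          by_cases hi : (i : ℕ) < m
          · have := congrFun hss.1 ⟨i, hi⟩
            exact this
          · have := congrFun hss.2 ⟨i - m, by omega⟩
            dsimp only at this
            have h5 : (⟨m + ((i : ℕ) - m), by omega⟩ : Fin (d + 1)) = i := by
              apply Fin.ext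
              simp only
              omega
            rw [h5] at this
            exact this
        simpa using h4
      have h6 : G.mulVec (s - s') = 0 := by rw [Matrix.mulVec_sub, h3, sub_self]
      exact sub_eq_zero.1 (Matrix.eq_zero_of_mulVec_eq_zero hG h6)
  rw [card_product, card_SBox, ← Set.ncard_eq_toFinset_card _ hfin] at h1
  have h2 := hS (K * N) hT
  have h3 : ((2 * (K * N) + 1 : ℕ) : ℝ) ≤ 3 * K * N := by
    have : (1 : ℝ) ≤ ((K * N : ℕ) : ℝ) := by exact_mod_cast hT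
    push_cast at this ⊢
    nlinarith
  have h4 : ({s : Fin (d + 1) → ℤ | (∀ j, |s j| ≤ (N : ℤ)) ∧ first hm G c s ∈ S}.ncard : ℝ) ≤
      (C * ((K * N : ℕ) : ℝ) ^ ((m : ℝ) - b)) * (3 * K * N) ^ (d + 1 - m) := by
    have h5 : ({s : Fin (d + 1) → ℤ | (∀ j, |s j| ≤ (N : ℤ)) ∧ first hm G c s ∈ S}.ncard : ℝ) ≤
        ({α : Fin m → ℤ | (∀ i, |α i| ≤ ((K * N : ℕ) : ℤ)) ∧ α ∈ S}.ncard : ℝ) *
          ((2 * (K * N) + 1 : ℕ) : ℝ) ^ (d + 1 - m) := by exact_mod_cast h1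
    refine h5.trans ?_
    have h6 := pow_le_pow_left₀ (Nat.cast_nonneg _) h3 (d + 1 - m)
    have h7 : (0 : ℝ) ≤ ({α : Fin m → ℤ | (∀ i, |α i| ≤ ((K * N : ℕ) : ℤ)) ∧ α ∈ S}.ncard : ℝ) := Nat.cast_nonneg _
    exact mul_le_mul h2 h6 (by positivity) (h7.trans h2)
  refine h4.trans ?_
  have h8 : (C * ((K * N : ℕ) : ℝ) ^ ((m : ℝ) - b)) * (3 * K * N) ^ (d + 1 - m) =
      (C * (K : ℝ) ^ ((m : ℝ) - b) * (3 * K) ^ (d + 1 - m)) * (N : ℝ) ^ ((d : ℝ) + 1 - b) := by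
    have h9 : (N : ℝ) ^ ((d : ℝ) + 1 - b) = (N : ℝ) ^ ((m : ℝ) - b) * (N : ℝ) ^ (d + 1 - m) := by
      rw [← Real.rpow_natCast (N : ℝ) (d + 1 - m), ← Real.rpow_add hN0, Nat.cast_sub hm]
      congr 1
      push_cast
      ring
    rw [h9, Nat.cast_mul, Real.mul_rpow hK0.le hN0.le, mul_pow (3 * (K : ℝ)) (N : ℝ)]
    ring
  rw [h8]
  exact mul_le_mul_of_nonneg_right hC' (by positivity)

end Pool.Agent.U513.AP
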