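import Pool.Agent.U513.AP.Laws

/-!
# The law for sets of integers with a power saving at each scale
-/

set_option autoImplicit false

open Finset Filter MeasureTheory

namespace Pool.Agent.U513.AP

/-- from the counts between `N / 2` and `N` to the counts up to `X` -/
lemma cum_halves {B : Set ℕ} {s C : ℝ} (hs : 0 < s) (hs1 : s ≤ 1) (hC : 0 ≤ C) (N0 : ℕ)
    (h : ∀ N : ℕ, N0 ≤ N → ({b : ℕ | b ∈ B ∧ 1 ≤ b ∧ b ≤ N ∧ N < 2 * b}.ncard : ℝ) ≤ C * (N : ℝ) ^ s) :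
    ∃ C' : ℝ, ∀ X : ℝ, 1 ≤ X → {b : ℕ | b ∈ {b : ℕ | 1 ≤ b ∧ b ∈ B} ∧ (b : ℝ) ≤ X}.Finite ∧
      ({b : ℕ | b ∈ {b : ℕ | 1 ≤ b ∧ b ∈ B} ∧ (b : ℝ) ≤ X}.ncard : ℝ) ≤ C' * X ^ s := by
  classical
  have h2s : (2 : ℝ) ^ (-s) < 1 := Real.rpow_lt_one_of_one_lt_of_neg (by norm_num) (by linarith)
  obtain ⟨A, hA⟩ : ∃ A : ℝ, A = N0 + C / (1 - (2 : ℝ) ^ (-s)) := ⟨_, rfl⟩
  have hdiv : 0 ≤ C / (1 - (2 : ℝ) ^ (-s)) := div_nonneg hC (by linarith)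
  have hN0 : (0 : ℝ) ≤ N0 := Nat.cast_nonneg _
  have hA0 : 0 ≤ A := by rw [hA]; linarith
  have hfin : ∀ N : ℕ, {b : ℕ | b ∈ B ∧ 1 ≤ b ∧ b ≤ N}.Finite := fun N =>
    (Set.finite_Iic N).subset fun b hb => hb.2.2
  have key : ∀ N : ℕ, ({b : ℕ | b ∈ B ∧ 1 ≤ b ∧ b ≤ N}.ncard : ℝ) ≤ A * (N : ℝ) ^ s := by
    intro N
    induction N using Nat.strong_induction_on with
    | _ N ih =>
      by_cases hN : N = 0
      · have he : {b : ℕ | b ∈ B ∧ 1 ≤ b ∧ b ≤ N} = ∅ := by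
          ext b
          simp only [Set.mem_ofPred_eq, Set.mem_empty_iff_false, iff_false, not_and]
          omega
        rw [he, Set.ncard_empty, Nat.cast_zero]
        positivity
      have hN1 : 1 ≤ N := Nat.one_le_iff_ne_zero.2 hN
      have hN1r : (1 : ℝ) ≤ N := by exact_mod_cast hN1
      have hNs : 1 ≤ (N : ℝ) ^ s := Real.one_le_rpow hN1r hs.le
      by_cases hc : N0 ≤ N
      · have hsub : {b : ℕ | b ∈ B ∧ 1 ≤ b ∧ b ≤ N} ⊆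
            {b : ℕ | b ∈ B ∧ 1 ≤ b ∧ b ≤ N ∧ N < 2 * b} ∪ {b : ℕ | b ∈ B ∧ 1 ≤ b ∧ b ≤ N / 2} := by
          rintro b ⟨h1, h2, h3⟩
          by_cases h4 : N < 2 * b
          · exact Or.inl ⟨h1, h2, h3, h4⟩
          · exact Or.inr ⟨h1, h2, by omega⟩
        have hf1 : {b : ℕ | b ∈ B ∧ 1 ≤ b ∧ b ≤ N ∧ N < 2 * b}.Finite :=
          (hfin N).subset fun b hb => ⟨hb.1, hb.2.1, hb.2.2.1⟩
        have h1 := (Set.ncard_le_ncard hsub (hf1.union (hfin _))).trans (Set.ncard_union_le _ _)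
        have h2 := ih (N / 2) (Nat.div_lt_self hN1 (by norm_num))
        have h3 := h N hc
        have h4 : ((N / 2 : ℕ) : ℝ) ^ s ≤ (2 : ℝ) ^ (-s) * (N : ℝ) ^ s := by
          have h5 : ((N / 2 : ℕ) : ℝ) ≤ N / 2 := Nat.cast_div_le
          calc ((N / 2 : ℕ) : ℝ) ^ s ≤ ((N : ℝ) / 2) ^ s := Real.rpow_le_rpow (Nat.cast_nonneg _) h5 hs.le
            _ = (N : ℝ) ^ s / 2 ^ s := Real.div_rpow (by linarith) (by norm_num) s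
            _ = _ := by rw [Real.rpow_neg (by norm_num)]; ring
        have h5 : ({b : ℕ | b ∈ B ∧ 1 ≤ b ∧ b ≤ N}.ncard : ℝ) ≤ C * (N : ℝ) ^ s + A * ((2 : ℝ) ^ (-s) * (N : ℝ) ^ s) := by
          have h6 : ({b : ℕ | b ∈ B ∧ 1 ≤ b ∧ b ≤ N}.ncard : ℝ) ≤
              ({b : ℕ | b ∈ B ∧ 1 ≤ b ∧ b ≤ N ∧ N < 2 * b}.ncard : ℝ) + ({b : ℕ | b ∈ B ∧ 1 ≤ b ∧ b ≤ N / 2}.ncard : ℝ) := by
            exact_mod_cast h1
          have h7 := mul_le_mul_of_nonneg_left h4 hA0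
          linarith
        refine h5.trans ?_
        have h6 : C ≤ A * (1 - (2 : ℝ) ^ (-s)) := by
          rw [hA, add_mul, div_mul_cancel₀ _ (by linarith)]
          have : 0 ≤ (N0 : ℝ) * (1 - (2 : ℝ) ^ (-s)) := mul_nonneg hN0 (by linarith)
          linarith
        have h7 := mul_le_mul_of_nonneg_right h6 (by linarith : (0 : ℝ) ≤ (N : ℝ) ^ s)
        nlinarith
      · have h1 : ({b : ℕ | b ∈ B ∧ 1 ≤ b ∧ b ≤ N}).ncard ≤ N := by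
          have h2 : ({b : ℕ | b ∈ B ∧ 1 ≤ b ∧ b ≤ N}).ncard ≤ ((Icc 1 N : Finset ℕ) : Set ℕ).ncard := by
            refine Set.ncard_le_ncard ?_ (Finset.finite_toSet _)
            rintro b ⟨_, hb1, hb2⟩
            simpa using ⟨hb1, hb2⟩
          rwa [Set.ncard_coe_finset, Nat.card_Icc, Nat.add_sub_cancel] at h2
        have h2 : ({b : ℕ | b ∈ B ∧ 1 ≤ b ∧ b ≤ N}.ncard : ℝ) ≤ N0 := by
          exact_mod_cast h1.trans (by omega)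
        calc ({b : ℕ | b ∈ B ∧ 1 ≤ b ∧ b ≤ N}.ncard : ℝ) ≤ N0 := h2
          _ ≤ A := by rw [hA]; linarith
          _ ≤ A * (N : ℝ) ^ s := le_mul_of_one_le_right hA0 hNs
  refine ⟨A, fun X hX => ?_⟩
  have hX0 : 0 ≤ X := by linarith
  have hsub : {b : ℕ | b ∈ {b : ℕ | 1 ≤ b ∧ b ∈ B} ∧ (b : ℝ) ≤ X} ⊆ {b : ℕ | b ∈ B ∧ 1 ≤ b ∧ b ≤ ⌊X⌋₊} := by
    rintro b ⟨⟨h1, h2⟩, h3⟩
    exact ⟨h2, h1, Nat.le_floor h3⟩
  refine ⟨(hfin _).subset hsub, ?_⟩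
  calc ({b : ℕ | b ∈ {b : ℕ | 1 ≤ b ∧ b ∈ B} ∧ (b : ℝ) ≤ X}.ncard : ℝ)
      ≤ ({b : ℕ | b ∈ B ∧ 1 ≤ b ∧ b ≤ ⌊X⌋₊}.ncard : ℝ) := Nat.cast_le.2 (Set.ncard_le_ncard hsub (hfin _))
    _ ≤ A * ((⌊X⌋₊ : ℕ) : ℝ) ^ s := key _
    _ ≤ A * X ^ s := mul_le_mul_of_nonneg_left (Real.rpow_le_rpow (Nat.cast_nonneg _) (Nat.floor_le hX0) hs.le) hA0

/-- **The law for sets of integers with a power saving at each scale.** -/
theorem scale_nat_law {G : ℕ → Prop} {δ C : ℝ} (hδ : 0 < δ) (hδ1 : δ < 1) (hC : 0 ≤ C) (N0 : ℕ)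
    (h : ∀ N : ℕ, N0 ≤ N → ({b : ℕ | 1 ≤ b ∧ b ≤ N ∧ N < 2 * b ∧ ¬ G b}.ncard : ℝ) ≤ C * (N : ℝ) ^ (1 - δ))
    {d D : ℕ} {τ w l : ℝ} (hd : 1 ≤ d) (hD : 1 ≤ D) (hτ : 0 ≤ τ) (hw : 0 ≤ w) (γ : Fin d → ℝ) :
    ∃ E : Set (Fin d → ℝ), dimH E ≤ ENNReal.ofReal ((d + 1 - l + D + w - δ / 2) / (1 + τ)) ∧
      (D + w + 1 ≤ l + d * τ → volume E = 0) ∧
      ∀ α, α ∉ E → ∀ P : MvPolynomial (Fin (d + 1)) ℤ, P.totalDegree ≤ D → Lev P l → ∀ᶠ k : ℕ in atTop, ∀ p : Fin d → ℤ,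
        (∀ i, |(k : ℝ) * α i - γ i - p i| ≤ (k : ℝ) ^ (-τ)) → ∀ m : ℕ, 1 ≤ m →
          |(m : ℝ) - (MvPolynomial.eval (Fin.cons (k : ℤ) p : Fin (d + 1) → ℤ) P : ℤ)| ≤ (k : ℝ) ^ w → G m := by
  obtain ⟨C', hC'⟩ := cum_halves (B := {b : ℕ | ¬ G b}) (s := 1 - δ) (by linarith) (by linarith) hC N0 (fun N hN => by
    refine le_trans (le_of_eq ?_) (h N hN)
    congr 2
    ext b
    simp only [Set.mem_ofPred_eq]
    tauto)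
  obtain ⟨E, h1, h2, h3⟩ := nat_law (G := G) (e := 1) (δ0 := δ) (C := C') (by linarith) hδ hC' hd hD hτ hw γ
  refine ⟨E, ?_, ?_, h3⟩
  · rwa [one_mul] at h1
  · rwa [one_mul] at h2

end Pool.Agent.U513.AP
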