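import Pool.Agent.U513.AP.Core

/-!
# Sets with a logarithmic saving and integral affine forms at simultaneous approximations

`B` is a set of natural numbers with at most `C X / (log X) ^ (W + 2)` elements `≤ X`. The set of the `α ∈ ℝ ^ d` for which an
element of `B` is within `(log q_0) ^ W` of a given integral affine form `c_0 + ∑ c_i q_i` for infinitely many integral vectors
`q` with `|q_0 α_i - γ_i - q_i| ≤ q_0 ^ (-τ)` has Hausdorff measure zero in the dimension `(d + 1) / (1 + τ)`.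
-/

set_option autoImplicit false

open Finset Filter MeasureTheory Topology
open scoped ENNReal NNReal

namespace Pool.Agent.U513.AP

/-- at most `C X / (log X) ^ A` elements `≤ X` -/
def FewLog (B : Set ℕ) (A : ℕ) : Prop :=
  ∃ C : ℝ, ∀ X : ℕ, 2 ≤ X → ({b : ℕ | b ∈ B ∧ 1 ≤ b ∧ b ≤ X}.ncard : ℝ) ≤ C * X / Real.log X ^ A

lemma fibre {d : ℕ} (c : Fin (d + 1) → ℤ) (i0 : Fin (d + 1)) (h0 : c i0 ≠ 0) (R : ℕ) (v : ℤ)
    (T : Finset (Fin (d + 1) → ℤ)) (hT : ∀ q ∈ T, (∀ i, |q i| ≤ R) ∧ ∑ i, c i * q i = v) :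
    T.card ≤ (2 * R + 1) ^ d := by
  classical
  have hinj : Set.InjOn (fun q : Fin (d + 1) → ℤ => fun i : Fin d => q (i0.succAbove i)) T := by
    intro q hq q' hq' h
    have h1 := (hT q hq).2
    have h2 := (hT q' hq').2
    have h3 : ∀ i : Fin d, q (i0.succAbove i) = q' (i0.succAbove i) := fun i => congrFun h i
    rw [Fin.sum_univ_succAbove _ i0] at h1 h2
    have h5 : ∑ i : Fin d, c (i0.succAbove i) * q (i0.succAbove i) =
        ∑ i : Fin d, c (i0.succAbove i) * q' (i0.succAbove i) :=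
      Finset.sum_congr rfl (fun i _ => by rw [h3 i])
    have h6 : c i0 * q i0 = c i0 * q' i0 := by linarith
    have h4 := mul_left_cancel₀ h0 h6
    ext i
    rcases Fin.eq_self_or_eq_succAbove i0 i with h | ⟨j, h⟩
    · rw [h, h4]
    · rw [h, h3 j]
  rw [← card_image_of_injOn hinj]
  have hsub : T.image (fun q : Fin (d + 1) → ℤ => fun i : Fin d => q (i0.succAbove i)) ⊆ SBox d R := by
    intro x hx
    rw [mem_image] at hx
    obtain ⟨q, hq, rfl⟩ := hx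
    rw [mem_SBox]
    intro i
    exact (hT q hq).1 _
  refine (card_le_card hsub).trans ?_
  rw [card_SBox]

/-- the upper limit of finite families of small sets, general version -/
lemma limsup_null_gen {X Q : Type*} [EMetricSpace X] [MeasurableSpace X] [BorelSpace X] (E : Set X) (I : ℕ → Finset Q)
    (t : Q → Set X) {s : ℝ} (hs : 0 < s) (D : ℕ → ℝ) (hD0 : ∀ j, 0 ≤ D j) (hDa : Antitone D)
    (hDl : Tendsto D atTop (𝓝 0)) (g : ℕ → ℝ) (hg0 : ∀ j, 0 ≤ g j) (hg : Summable g)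
    (hI : ∀ j, ((I j).card : ℝ) * (D j) ^ s ≤ g j)
    (ht : ∀ j, ∀ q ∈ I j, Metric.ediam (t q) ≤ ENNReal.ofReal (D j))
    (hE : ∀ x ∈ E, ∀ N : ℕ, ∃ j, N ≤ j ∧ ∃ q ∈ I j, x ∈ t q) : μH[s] E = 0 := by
  classical
  have hr : Tendsto (fun N : ℕ => ENNReal.ofReal (D N)) atTop (𝓝 0) := by
    rw [← ENNReal.ofReal_zero]
    exact ENNReal.tendsto_ofReal hDl
  have hmain := Measure.hausdorffMeasure_le_liminf_tsum (β := ℕ) (ι := fun N => Σ j : ℕ, {q // q ∈ I (j + N)}) s E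
    (l := atTop) (fun N : ℕ => ENNReal.ofReal (D N)) hr (fun N x => t x.2.1)
    (Eventually.of_forall (fun N x =>
      (ht _ _ x.2.2).trans (ENNReal.ofReal_le_ofReal (hDa (Nat.le_add_left _ _)))))
    (Eventually.of_forall (fun N x hx => by
      obtain ⟨j, hj, q, hq, hxq⟩ := hE x hx N
      obtain ⟨i, rfl⟩ := Nat.exists_eq_add_of_le' hj
      exact Set.mem_iUnion.2 ⟨⟨i, q, hq⟩, hxq⟩))
  have hbound : ∀ N : ℕ, ∑' x : (Σ j : ℕ, {q // q ∈ I (j + N)}), Metric.ediam (t x.2.1) ^ s ≤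
      ENNReal.ofReal (∑' j : ℕ, g (j + N)) := by
    intro N
    rw [ENNReal.tsum_sigma']
    have h1 : ∀ j : ℕ, ∑' x : {q // q ∈ I (j + N)}, Metric.ediam (t x.1) ^ s ≤ ENNReal.ofReal (g (j + N)) := by
      intro j
      have h2 : ∑' x : {q // q ∈ I (j + N)}, Metric.ediam (t x.1) ^ s = ∑ q ∈ I (j + N), Metric.ediam (t q) ^ s :=
        Finset.tsum_subtype (I (j + N)) (fun q => Metric.ediam (t q) ^ s)
      rw [h2]
      have h3 : ∑ q ∈ I (j + N), Metric.ediam (t q) ^ s ≤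
          (I (j + N)).card • ENNReal.ofReal ((D (j + N)) ^ s) := by
        apply Finset.sum_le_card_nsmul
        intro q hq
        rw [← ENNReal.ofReal_rpow_of_nonneg (hD0 _) hs.le]
        exact ENNReal.rpow_le_rpow (ht _ _ hq) hs.le
      refine h3.trans ?_
      rw [nsmul_eq_mul, ← ENNReal.ofReal_natCast, ← ENNReal.ofReal_mul (Nat.cast_nonneg _)]
      exact ENNReal.ofReal_le_ofReal (hI _)
    refine (ENNReal.tsum_le_tsum h1).trans ?_
    rw [← ENNReal.ofReal_tsum_of_nonneg (fun j => hg0 _) ((summable_nat_add_iff N).2 hg)]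
  have hlim : Tendsto (fun N : ℕ => ENNReal.ofReal (∑' j : ℕ, g (j + N))) atTop (𝓝 0) := by
    rw [← ENNReal.ofReal_zero]
    exact ENNReal.tendsto_ofReal (tendsto_sum_nat_add g)
  have h5 : liminf (fun N : ℕ => ∑' x : (Σ j : ℕ, {q // q ∈ I (j + N)}), Metric.ediam (t x.2.1) ^ s) atTop ≤ 0 := by
    rw [← hlim.liminf_eq]
    exact liminf_le_liminf (Eventually.of_forall hbound)
  exact le_antisymm (hmain.trans h5) (zero_le)

/-- the `α` which are approximated by infinitely many vectors `q` with an affine form close to `B` -/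
def ExcLog {d : ℕ} (B : Set ℕ) (W : ℕ) (τ : ℝ) (γ : Fin d → ℝ) (c0 : ℤ) (c : Fin (d + 1) → ℤ) : Set (Fin d → ℝ) :=
  {α | ∀ N : ℕ, ∃ q : Fin (d + 1) → ℤ, (N : ℤ) ≤ q 0 ∧ α ∈ pts τ γ q ∧
    ∃ b ∈ B, 1 ≤ b ∧ |(b : ℝ) - (c0 + ∑ i, c i * q i : ℤ)| ≤ Real.log (q 0 : ℤ) ^ W}

/-- the number of the approximating vectors of size `2 ^ j` -/
lemma log_vectors {B : Set ℕ} {W : ℕ} (hB : FewLog B (W + 2)) {d : ℕ} (c0 : ℤ) (c : Fin (d + 1) → ℤ) (hc : c ≠ 0)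
    (R : ℕ) (hR : 2 ≤ R) :
    ∃ C : ℝ, 0 ≤ C ∧ ∀ j : ℕ, 1 ≤ j → ∀ T : Finset (Fin (d + 1) → ℤ),
      (∀ q ∈ T, (∀ i, |q i| ≤ (R * 2 ^ j : ℕ)) ∧
        ∃ b ∈ B, 1 ≤ b ∧ |(b : ℝ) - (c0 + ∑ i, c i * q i : ℤ)| ≤ Real.log ((R * 2 ^ j : ℕ) : ℝ) ^ W) →
      (T.card : ℝ) ≤ C * ((2 : ℝ) ^ j) ^ (d + 1) / (j : ℝ) ^ 2 := by
  classical
  obtain ⟨i0, h0⟩ : ∃ i0, c i0 ≠ 0 := by
    by_contra h
    push Not at h
    exact hc (funext h)
  obtain ⟨C0, hC0⟩ := hB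
  obtain ⟨Λ, hΛ⟩ : ∃ Λ : ℕ, Λ = (∑ i, (c i).natAbs) * R + c0.natAbs := ⟨_, rfl⟩
  obtain ⟨ρ, hρ⟩ : ∃ ρ : ℝ, ρ = Real.log R + Real.log 2 := ⟨_, rfl⟩
  have hR2 : (2 : ℝ) ≤ R := by exact_mod_cast hR
  have hl2 : 0 < Real.log 2 := Real.log_pos (by norm_num)
  have hlR : 0 < Real.log R := Real.log_pos (by linarith)
  have hρ0 : 0 < ρ := by rw [hρ]; linarith
  -- `(ρ j) ^ W ≤ M 2 ^ j`
  obtain ⟨M, hM⟩ : ∃ M : ℕ, ∀ j : ℕ, (ρ * j) ^ W ≤ (M : ℝ) * (2 : ℝ) ^ j := by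
    have t1 : Tendsto (fun j : ℕ => (j : ℝ) ^ W / (2 : ℝ) ^ j) atTop (𝓝 0) :=
      tendsto_pow_const_div_const_pow_of_one_lt W (by norm_num)
    obtain ⟨M0, hM0⟩ := t1.bddAbove_range
    obtain ⟨M, hM⟩ := exists_nat_ge (ρ ^ W * |M0|)
    refine ⟨M, fun j => ?_⟩
    have h1 : (j : ℝ) ^ W / (2 : ℝ) ^ j ≤ |M0| := (hM0 ⟨j, rfl⟩).trans (le_abs_self _)
    rw [div_le_iff₀ (by positivity)] at h1
    calc (ρ * j) ^ W = ρ ^ W * (j : ℝ) ^ W := mul_pow _ _ _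
      _ ≤ ρ ^ W * (|M0| * (2 : ℝ) ^ j) := mul_le_mul_of_nonneg_left h1 (by positivity)
      _ = ρ ^ W * |M0| * (2 : ℝ) ^ j := by ring
      _ ≤ _ := mul_le_mul_of_nonneg_right hM (by positivity)
  obtain ⟨K, hK⟩ : ∃ K : ℕ, K = Λ + M + 1 := ⟨_, rfl⟩
  refine ⟨(3 * R) ^ d * (|C0| * K / Real.log 2 ^ (W + 2)) * (2 * ρ ^ W + 1), by positivity, fun j hj T hT => ?_⟩
  have hj1 : (1 : ℝ) ≤ j := by exact_mod_cast hj
  have hj0 : (0 : ℝ) < j := by linarith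
  obtain ⟨n, hn⟩ : ∃ n : ℕ, n = 2 ^ j := ⟨_, rfl⟩
  have hn2 : 2 ≤ n := by
    rw [hn]
    calc 2 = 2 ^ 1 := by norm_num
      _ ≤ 2 ^ j := Nat.pow_le_pow_right (by norm_num) hj
  have hnr : (n : ℝ) = (2 : ℝ) ^ j := by rw [hn]; push_cast; ring
  have hn1 : (1 : ℝ) ≤ n := by exact_mod_cast (by omega : 1 ≤ n)
  rw [← hn] at hT
  rw [← hnr]
  obtain ⟨r, hr⟩ : ∃ r : ℝ, r = Real.log ((R * n : ℕ) : ℝ) ^ W := ⟨_, rfl⟩
  rw [← hr] at hT
  have hlog : Real.log ((R * n : ℕ) : ℝ) ≤ ρ * j := by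
    push_cast
    rw [Real.log_mul (by positivity) (by positivity), hnr, Real.log_pow, hρ]
    nlinarith
  have hlog0 : 0 ≤ Real.log ((R * n : ℕ) : ℝ) := Real.log_nonneg (by push_cast; nlinarith)
  have hr0 : 0 ≤ r := by rw [hr]; positivity
  have hr1 : r ≤ (ρ * j) ^ W := by rw [hr]; exact pow_le_pow_left₀ hlog0 hlog W
  have hr2 : r ≤ M * n := by rw [hnr]; exact hr1.trans (hM j)
  have hr3 : 2 * r + 1 ≤ (2 * ρ ^ W + 1) * (j : ℝ) ^ W := by
    have : 1 ≤ (j : ℝ) ^ W := one_le_pow₀ hj1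
    rw [mul_pow] at hr1
    nlinarith
  obtain ⟨X, hX⟩ : ∃ X : ℕ, X = K * n := ⟨_, rfl⟩
  have hK1 : 1 ≤ K := by omega
  have hX2 : 2 ≤ X := by
    rw [hX]
    nlinarith
  have hfin : {b : ℕ | b ∈ B ∧ 1 ≤ b ∧ b ≤ X}.Finite := (Set.finite_Iic X).subset fun b hb => hb.2.2
  have hcard := hC0 X hX2
  obtain ⟨S, hS⟩ : ∃ S, S = hfin.toFinset := ⟨_, rfl⟩
  have hsub : T.image (fun q : Fin (d + 1) → ℤ => ∑ i, c i * q i) ⊆
      S.biUnion (fun b => Icc ⌈(b : ℝ) - c0 - r⌉ ⌊(b : ℝ) - c0 + r⌋) := by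
    intro v hv
    rw [mem_image] at hv
    obtain ⟨q, hq, rfl⟩ := hv
    obtain ⟨g1, b, hb, hb1, g3⟩ := hT q hq
    have g4 : |∑ i, c i * q i| ≤ (((∑ i, (c i).natAbs) * R * n : ℕ) : ℤ) := by
      calc |∑ i, c i * q i| ≤ ∑ i, |c i * q i| := abs_sum_le_sum_abs _ _
        _ ≤ ∑ i, ((c i).natAbs : ℤ) * ((R * n : ℕ) : ℤ) := by
            apply sum_le_sum
            intro i _
            rw [abs_mul, Int.abs_eq_natAbs (c i)]
            exact mul_le_mul_of_nonneg_left (g1 i) (by positivity)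
        _ = _ := by
            rw [← Finset.sum_mul]
            push_cast
            ring
    have g5 : |((∑ i, c i * q i : ℤ) : ℝ)| ≤ (((∑ i, (c i).natAbs) * R * n : ℕ) : ℝ) := by
      calc |((∑ i, c i * q i : ℤ) : ℝ)| = ((|∑ i, c i * q i| : ℤ) : ℝ) := Int.cast_abs.symm
        _ ≤ ((((∑ i, (c i).natAbs) * R * n : ℕ) : ℤ) : ℝ) := Int.cast_le.2 g4
        _ = _ := Int.cast_natCast _
    have g6 : |(c0 : ℝ)| ≤ (c0.natAbs : ℝ) * n := by
      have : |(c0 : ℝ)| = (c0.natAbs : ℝ) := by rw [Nat.cast_natAbs, Int.cast_abs]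
      rw [this]
      exact le_mul_of_one_le_right (Nat.cast_nonneg _) hn1
    have g3' := abs_le.1 g3
    have g5' := abs_le.1 g5
    have g6' := abs_le.1 g6
    push_cast at g3' g5' g6' ⊢
    rw [mem_biUnion]
    refine ⟨b, ?_, ?_⟩
    · rw [hS, Set.Finite.mem_toFinset]
      refine ⟨hb, hb1, ?_⟩
      have : (b : ℝ) ≤ X := by
        rw [hX, hK, hΛ]
        push_cast
        nlinarith
      exact_mod_cast this
    · rw [mem_Icc]
      constructor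
      · rw [Int.ceil_le]
        push_cast
        linarith
      · rw [Int.le_floor]
        push_cast
        linarith
  have h1 := (card_le_card hsub).trans (card_biUnion_le_card_mul S _ (⌊2 * r⌋₊ + 1) (by
    intro b hb
    rw [Int.card_Icc]
    have h2 : (⌊(b : ℝ) - c0 + r⌋ : ℝ) ≤ b - c0 + r := Int.floor_le _
    have h3 : (b : ℝ) - c0 - r ≤ (⌈(b : ℝ) - c0 - r⌉ : ℝ) := Int.le_ceil _
    have h4 : ((⌊(b : ℝ) - c0 + r⌋ - ⌈(b : ℝ) - c0 - r⌉ : ℤ) : ℝ) ≤ 2 * r := by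
      push_cast
      linarith
    have h5 : ⌊(b : ℝ) - c0 + r⌋ - ⌈(b : ℝ) - c0 - r⌉ ≤ (⌊2 * r⌋₊ : ℤ) := by
      have h6 : ⌊(b : ℝ) - c0 + r⌋ - ⌈(b : ℝ) - c0 - r⌉ ≤ ⌊2 * r⌋ := Int.le_floor.2 h4
      have h7 : (⌊2 * r⌋₊ : ℤ) = ⌊2 * r⌋ := Int.natCast_floor_eq_floor (by linarith)
      omega
    omega))
  have h2 := card_le_mul_card_image (f := fun q : Fin (d + 1) → ℤ => ∑ i, c i * q i) T ((2 * (R * n) + 1) ^ d) (by
    intro v _
    refine fibre c i0 h0 (R * n) v _ ?_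
    intro q hq
    rw [mem_filter] at hq
    exact ⟨(hT q hq.1).1, hq.2⟩)
  have h3 : (S.card : ℝ) ≤ |C0| * K / Real.log 2 ^ (W + 2) * (n / (j : ℝ) ^ (W + 2)) := by
    have h4 : (S.card : ℝ) ≤ C0 * X / Real.log X ^ (W + 2) := by
      rw [hS, ← Set.ncard_eq_toFinset_card _ hfin]
      exact hcard
    have h5 : j * Real.log 2 ≤ Real.log X := by
      rw [← Real.log_pow, ← hnr]
      apply Real.log_le_log (by linarith)
      rw [hX]
      push_cast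
      exact le_mul_of_one_le_left (by linarith) (by exact_mod_cast hK1)
    have h6 : (j * Real.log 2) ^ (W + 2) ≤ Real.log X ^ (W + 2) := pow_le_pow_left₀ (by positivity) h5 _
    have h7 : 0 < (j * Real.log 2) ^ (W + 2) := by positivity
    calc (S.card : ℝ) ≤ C0 * X / Real.log X ^ (W + 2) := h4
      _ ≤ |C0| * X / Real.log X ^ (W + 2) := by
          apply div_le_div_of_nonneg_right _ (h7.le.trans h6)
          exact mul_le_mul_of_nonneg_right (le_abs_self _) (Nat.cast_nonneg _)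
      _ ≤ |C0| * X / (j * Real.log 2) ^ (W + 2) := div_le_div_of_nonneg_left (by positivity) h7 h6
      _ = _ := by
          rw [hX, mul_pow]
          push_cast
          field_simp
  have h4 : ((T.image (fun q : Fin (d + 1) → ℤ => ∑ i, c i * q i)).card : ℝ) ≤ (S.card : ℝ) * (2 * r + 1) := by
    have h5 : ((T.image (fun q : Fin (d + 1) → ℤ => ∑ i, c i * q i)).card : ℝ) ≤ (S.card : ℝ) * ((⌊2 * r⌋₊ : ℝ) + 1) := by
      exact_mod_cast h1
    refine h5.trans (mul_le_mul_of_nonneg_left ?_ (Nat.cast_nonneg _))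
    have := Nat.floor_le (show 0 ≤ 2 * r by linarith)
    linarith
  have h5 : (T.card : ℝ) ≤ ((2 * (R * n) + 1 : ℕ) : ℝ) ^ d *
      ((T.image (fun q : Fin (d + 1) → ℤ => ∑ i, c i * q i)).card : ℝ) := by exact_mod_cast h2
  have h6 : ((2 * (R * n) + 1 : ℕ) : ℝ) ^ d ≤ (3 * R) ^ d * (n : ℝ) ^ d := by
    rw [← mul_pow]
    apply pow_le_pow_left₀ (by positivity)
    push_cast
    nlinarith
  calc (T.card : ℝ) ≤ _ := h5
    _ ≤ ((3 * R) ^ d * (n : ℝ) ^ d) * ((|C0| * K / Real.log 2 ^ (W + 2) * (n / (j : ℝ) ^ (W + 2))) *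
        ((2 * ρ ^ W + 1) * (j : ℝ) ^ W)) := by
        refine mul_le_mul h6 (h4.trans ?_) (Nat.cast_nonneg _) (by positivity)
        exact mul_le_mul h3 hr3 (by positivity) (by positivity)
    _ = _ := by
        rw [pow_succ (n : ℝ) d, show (j : ℝ) ^ (W + 2) = (j : ℝ) ^ W * (j : ℝ) ^ 2 from pow_add _ _ _]
        field_simp

theorem null_exc {d : ℕ} {B : Set ℕ} {W : ℕ} (hB : FewLog B (W + 2)) {τ : ℝ} (hτ : 0 ≤ τ)
    (γ : Fin d → ℝ) (c0 : ℤ) (c : Fin (d + 1) → ℤ) (hc : c ≠ 0) :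
    μH[((d : ℝ) + 1) / (1 + τ)] (ExcLog B W τ γ c0 c) = 0 := by
  classical
  have hcov : ExcLog B W τ γ c0 c ⊆ ⋃ A : ℕ, {α | α ∈ ExcLog B W τ γ c0 c ∧ ∀ i, |α i| ≤ A} := by
    intro α hα
    obtain ⟨A, hA⟩ := exists_nat_ge (∑ i, |α i|)
    refine Set.mem_iUnion.2 ⟨A, hα, fun i => ?_⟩
    exact (Finset.single_le_sum (fun i _ => abs_nonneg (α i)) (mem_univ i)).trans hA
  refine measure_mono_null hcov (measure_iUnion_null fun A => ?_)
  obtain ⟨G, hG⟩ := exists_nat_ge (∑ i, |γ i|)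
  have hG' : ∀ i, |γ i| ≤ G := fun i =>
    (Finset.single_le_sum (fun i _ => abs_nonneg (γ i)) (mem_univ i)).trans hG
  obtain ⟨R, hR⟩ : ∃ R : ℕ, R = 2 * (A + G + 1) := ⟨_, rfl⟩
  obtain ⟨C, hC, hV⟩ := log_vectors hB c0 c hc R (by omega)
  have h1τ : 0 < 1 + τ := by linarith
  obtain ⟨s, hs⟩ : ∃ s : ℝ, s = ((d : ℝ) + 1) / (1 + τ) := ⟨_, rfl⟩
  rw [← hs]
  have hs0 : 0 < s := by rw [hs]; positivity
  have hb1 : (2 : ℝ) ^ (-(1 + τ)) < 1 := Real.rpow_lt_one_of_one_lt_of_neg (by norm_num) (by linarith)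
  have hb0 : (0 : ℝ) < (2 : ℝ) ^ (-(1 + τ)) := by positivity
  have hpow : ∀ (j : ℕ) (x : ℝ), ((2 : ℝ) ^ j) ^ x = ((2 : ℝ) ^ x) ^ j := by
    intro j x
    rw [← Real.rpow_natCast, ← Real.rpow_natCast, ← Real.rpow_mul (by norm_num), ← Real.rpow_mul (by norm_num), mul_comm]
  refine limsup_null_gen _
    (fun j => if j = 0 then ∅ else (SBox (d + 1) (R * 2 ^ j)).filter (fun q => ((2 ^ j : ℕ) : ℤ) ≤ q 0 ∧
      ∃ b ∈ B, 1 ≤ b ∧ |(b : ℝ) - (c0 + ∑ i, c i * q i : ℤ)| ≤ Real.log ((R * 2 ^ j : ℕ) : ℝ) ^ W))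
    (fun q => pts τ γ q) hs0 (fun j => 2 * ((2 : ℝ) ^ j) ^ (-(1 + τ))) (fun j => by positivity) ?_ ?_
    (fun j => C * 2 ^ s * (1 / (j : ℝ) ^ 2)) (fun j => by positivity)
    ((Real.summable_one_div_nat_pow.2 (by norm_num : 1 < 2)).mul_left _) ?_ ?_ ?_
  · intro i j hij
    show 2 * ((2 : ℝ) ^ j) ^ (-(1 + τ)) ≤ 2 * ((2 : ℝ) ^ i) ^ (-(1 + τ))
    refine mul_le_mul_of_nonneg_left ?_ (by norm_num)
    rw [hpow, hpow]
    exact pow_le_pow_of_le_one hb0.le hb1.le hij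
  · have h1 : Tendsto (fun N : ℕ => 2 * ((2 : ℝ) ^ (-(1 + τ))) ^ N) atTop (𝓝 (2 * 0)) :=
      (tendsto_pow_atTop_nhds_zero_of_lt_one hb0.le hb1).const_mul 2
    rw [mul_zero] at h1
    exact h1.congr (fun N => by rw [hpow])
  · intro j
    by_cases hj : j = 0
    · simp [hj]
    · simp only [hj, if_false]
      have hj1 : 1 ≤ j := Nat.one_le_iff_ne_zero.2 hj
      have h1 := hV j hj1 ((SBox (d + 1) (R * 2 ^ j)).filter (fun q => ((2 ^ j : ℕ) : ℤ) ≤ q 0 ∧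
        ∃ b ∈ B, 1 ≤ b ∧ |(b : ℝ) - (c0 + ∑ i, c i * q i : ℤ)| ≤ Real.log ((R * 2 ^ j : ℕ) : ℝ) ^ W)) (by
          intro q hq
          rw [mem_filter, mem_SBox] at hq
          exact ⟨hq.1, hq.2.2⟩)
      have h2 : (2 * ((2 : ℝ) ^ j) ^ (-(1 + τ))) ^ s = 2 ^ s * (((2 : ℝ) ^ j) ^ (d + 1))⁻¹ := by
        rw [Real.mul_rpow (by norm_num) (by positivity), ← Real.rpow_mul (by positivity)]
        congr 1
        have e1 : -(1 + τ) * s = -((d + 1 : ℕ) : ℝ) := by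
          rw [hs]
          push_cast
          field_simp
        rw [e1, Real.rpow_neg (by positivity), Real.rpow_natCast]
      rw [h2]
      have hj0 : (0 : ℝ) < (j : ℝ) ^ 2 := by positivity
      calc _ ≤ (C * ((2 : ℝ) ^ j) ^ (d + 1) / (j : ℝ) ^ 2) * (2 ^ s * (((2 : ℝ) ^ j) ^ (d + 1))⁻¹) :=
            mul_le_mul_of_nonneg_right h1 (by positivity)
        _ = _ := by field_simp
  · intro j q hq
    by_cases hj : j = 0
    · simp [hj] at hq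
    · simp only [hj, if_false] at hq
      rw [mem_filter] at hq
      have := diam_pts hτ γ q (2 ^ j) Nat.one_le_two_pow hq.2.1
      push_cast at this
      exact this
  · rintro α ⟨hα, hA⟩ N
    obtain ⟨q, h1, h2, b, hb, hb1, h3⟩ := hα (2 ^ (N + 1))
    obtain ⟨k, hk⟩ : ∃ k : ℕ, (k : ℤ) = q 0 := ⟨(q 0).toNat, Int.toNat_of_nonneg (le_trans (by positivity) h1)⟩
    rw [← hk] at h1
    have h1' : 2 ^ (N + 1) ≤ k := by exact_mod_cast h1
    have hk0 : k ≠ 0 := by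
      have : 1 ≤ 2 ^ (N + 1) := Nat.one_le_two_pow
      omega
    have h4 : 2 ^ (Nat.log 2 k) ≤ k := Nat.pow_log_le_self 2 hk0
    have h5 : k < 2 ^ (Nat.log 2 k + 1) := Nat.lt_pow_succ_log_self (by norm_num) k
    have h6 : N + 1 ≤ Nat.log 2 k := Nat.le_log_of_pow_le (by norm_num) h1'
    refine ⟨Nat.log 2 k, by omega, q, ?_, h2⟩
    have hne : Nat.log 2 k ≠ 0 := by omega
    simp only [hne, if_false]
    obtain ⟨n, hn⟩ : ∃ n, n = 2 ^ (Nat.log 2 k) := ⟨_, rfl⟩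
    rw [pow_succ] at h5
    rw [← hn] at h4 h5 ⊢
    have hsz := size hτ hA hG' h2 (by rw [← hk]; exact_mod_cast Nat.one_le_iff_ne_zero.2 hk0)
    rw [← hk] at hsz
    rw [mem_filter, mem_SBox]
    have hkR : (k : ℝ) ≤ 2 * n := by
      have : k ≤ n * 2 := h5.le
      have : (k : ℝ) ≤ n * 2 := by exact_mod_cast this
      linarith
    have hk1 : (1 : ℝ) ≤ k := by exact_mod_cast Nat.one_le_iff_ne_zero.2 hk0
    refine ⟨?_, by rw [← hk]; exact_mod_cast h4, b, hb, hb1, h3.trans ?_⟩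
    · intro i
      have h6 : |(q i : ℝ)| ≤ ((R * n : ℕ) : ℝ) := by
        refine (hsz i).trans ?_
        rw [hR]
        push_cast
        have : (0 : ℝ) ≤ A + G + 1 := by positivity
        nlinarith
      exact_mod_cast h6
    · rw [← hk]
      refine pow_le_pow_left₀ (Real.log_nonneg (by exact_mod_cast hk1)) ?_ W
      apply Real.log_le_log (by push_cast; linarith)
      push_cast
      have hR2 : (2 : ℝ) ≤ R := by
        rw [hR]
        push_cast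
        have : (0 : ℝ) ≤ A + G := by positivity
        linarith
      have : (0 : ℝ) ≤ n := Nat.cast_nonneg _
      nlinarith

/-- all the affine forms at once -/
theorem null_forms {d : ℕ} {B : Set ℕ} {W : ℕ} (hB : FewLog B (W + 2)) {τ : ℝ} (hτ : 0 ≤ τ) (γ : Fin d → ℝ) :
    ∃ E : Set (Fin d → ℝ), μH[((d : ℝ) + 1) / (1 + τ)] E = 0 ∧ (1 ≤ d * τ → volume E = 0) ∧
      ∀ α, α ∉ E → ∀ (c a : ℤ) (b : Fin d → ℤ), ¬ (a = 0 ∧ b = 0) → ∀ᶠ k : ℕ in atTop, ∀ p : Fin d → ℤ,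
        (∀ i, |(k : ℝ) * α i - γ i - p i| ≤ (k : ℝ) ^ (-τ)) →
          ∀ m ∈ B, 1 ≤ m → ¬ |(m : ℝ) - (c + a * k + ∑ i, b i * p i : ℤ)| ≤ Real.log k ^ W := by
  classical
  obtain ⟨E, hE⟩ : ∃ E : Set (Fin d → ℝ), E = ⋃ c0 : ℤ, ⋃ c : {c : Fin (d + 1) → ℤ // c ≠ 0}, ExcLog B W τ γ c0 c.1 := ⟨_, rfl⟩
  have h0 : μH[((d : ℝ) + 1) / (1 + τ)] E = 0 := by
    rw [hE]
    exact measure_iUnion_null fun c0 => measure_iUnion_null fun c => null_exc hB hτ γ c0 c.1 c.2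
  refine ⟨E, h0, fun hdτ => ?_, ?_⟩
  · have h1 : ((d : ℝ) + 1) / (1 + τ) ≤ d := by
      rw [div_le_iff₀ (by linarith)]
      nlinarith
    have h3 : (μH[(d : ℝ)] : Measure (Fin d → ℝ)) = volume := by
      have := hausdorffMeasure_pi_real (ι := Fin d)
      rwa [Fintype.card_fin] at this
    rw [← h3]
    exact le_antisymm ((Measure.hausdorffMeasure_mono h1 E).trans h0.le) (zero_le)
  · intro α hα c a b hab
    rw [hE, Set.mem_iUnion, not_exists] at hα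
    have hα := hα c
    rw [Set.mem_iUnion, not_exists] at hα
    have hne : (Fin.cons a b : Fin (d + 1) → ℤ) ≠ 0 := by
      intro h
      apply hab
      constructor
      · have := congrFun h 0
        simpa using this
      · funext i
        have := congrFun h i.succ
        simpa using this
    have h := hα ⟨Fin.cons a b, hne⟩
    unfold ExcLog at h
    simp only [Set.mem_ofPred_eq, not_forall, not_exists, not_and] at h
    obtain ⟨N, hN⟩ := h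
    rw [eventually_atTop]
    refine ⟨N, fun k hk p hp m hm hm1 hle => ?_⟩
    refine hN (Fin.cons (k : ℤ) p) (by simpa using hk) ?_ m hm hm1 ?_
    · intro i
      have := hp i
      simpa using this
    · have e1 : (c + ∑ i, (Fin.cons a b : Fin (d + 1) → ℤ) i * (Fin.cons (k : ℤ) p : Fin (d + 1) → ℤ) i) =
          c + a * k + ∑ i, b i * p i := by
        rw [Fin.sum_univ_succ]
        simp only [Fin.cons_zero, Fin.cons_succ]
        ring
      rw [e1]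
      simpa using hle

/-- all the powers of the logarithm at once -/
theorem null_forms_all {d : ℕ} {B : Set ℕ} (hB : ∀ A : ℕ, FewLog B A) {τ : ℝ} (hτ : 0 ≤ τ) (γ : Fin d → ℝ) :
    ∃ E : Set (Fin d → ℝ), μH[((d : ℝ) + 1) / (1 + τ)] E = 0 ∧ (1 ≤ d * τ → volume E = 0) ∧
      ∀ α, α ∉ E → ∀ (W : ℕ) (c a : ℤ) (b : Fin d → ℤ), ¬ (a = 0 ∧ b = 0) → ∀ᶠ k : ℕ in atTop, ∀ p : Fin d → ℤ,
        (∀ i, |(k : ℝ) * α i - γ i - p i| ≤ (k : ℝ) ^ (-τ)) →
          ∀ m ∈ B, 1 ≤ m → ¬ |(m : ℝ) - (c + a * k + ∑ i, b i * p i : ℤ)| ≤ Real.log k ^ W := by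
  choose E h1 h2 h3 using fun W : ℕ => null_forms (W := W) (hB (W + 2)) hτ γ
  refine ⟨⋃ W, E W, measure_iUnion_null h1, fun h => measure_iUnion_null fun W => h2 W h, fun α hα W => ?_⟩
  rw [Set.mem_iUnion, not_exists] at hα
  exact h3 W α (hα W)

/-- a bound for all the large `X` -/
lemma fewLog_of {B : Set ℕ} {A : ℕ} (h : ∃ X₀ : ℕ, ∀ X : ℕ, X₀ ≤ X →
    ({b : ℕ | b ∈ B ∧ 1 ≤ b ∧ b ≤ X}.ncard : ℝ) ≤ X / Real.log X ^ A) : FewLog B A := by
  obtain ⟨X₀, hX₀⟩ := h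
  refine ⟨1 + Real.log (X₀ + 2) ^ A, fun X hX => ?_⟩
  have hX2 : (2 : ℝ) ≤ X := by exact_mod_cast hX
  have hlX : 0 < Real.log X := Real.log_pos (by linarith)
  have hX0' : (0 : ℝ) ≤ X₀ := Nat.cast_nonneg _
  have hl0 : 0 ≤ Real.log ((X₀ : ℝ) + 2) := Real.log_nonneg (by linarith)
  rw [le_div_iff₀ (by positivity)]
  by_cases hc : X₀ ≤ X
  · have h1 := hX₀ X hc
    rw [le_div_iff₀ (by positivity)] at h1
    refine h1.trans ?_
    have : 0 ≤ Real.log ((X₀ : ℝ) + 2) ^ A * X := by positivity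
    nlinarith
  · have h1 : ({b : ℕ | b ∈ B ∧ 1 ≤ b ∧ b ≤ X}.ncard : ℝ) ≤ X := by
      have h2 : ({b : ℕ | b ∈ B ∧ 1 ≤ b ∧ b ≤ X}).ncard ≤ ((Icc 1 X : Finset ℕ) : Set ℕ).ncard := by
        refine Set.ncard_le_ncard ?_ (Finset.finite_toSet _)
        rintro b ⟨_, hb1, hb2⟩
        simpa using ⟨hb1, hb2⟩
      rw [Set.ncard_coe_finset, Nat.card_Icc, Nat.add_sub_cancel] at h2
      exact_mod_cast h2
    have h2 : Real.log X ^ A ≤ Real.log ((X₀ : ℝ) + 2) ^ A := by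
      refine pow_le_pow_left₀ hlX.le (Real.log_le_log (by linarith) ?_) A
      have : (X : ℝ) ≤ X₀ := by exact_mod_cast (not_le.1 hc).le
      linarith
    calc ({b : ℕ | b ∈ B ∧ 1 ≤ b ∧ b ≤ X}.ncard : ℝ) * Real.log X ^ A ≤ X * Real.log ((X₀ : ℝ) + 2) ^ A :=
          mul_le_mul h1 h2 (by positivity) (by positivity)
      _ ≤ (1 + Real.log ((X₀ : ℝ) + 2) ^ A) * X := by nlinarith

end Pool.Agent.U513.AP
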