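import Pool.Agent.U513.AP.Core

/-!
# Sets of rational numbers with few elements of bounded height, and rational approximations
-/

set_option autoImplicit false

open Finset Filter MeasureTheory Topology
open scoped ENNReal NNReal

namespace Pool.Agent.U513.AP

/-- **The law for rational numbers.** If for all `A` and `ε > 0` at most `O(H ^ (e + ε))` elements of `B` in `[-A, A]` have a
denominator at most `H`, then for every `τ > 0` all `α` outside of a set of Hausdorff dimension at most `e / τ` have only finitely many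
approximations `b` in `B` with `|α - b| ≤ den(b) ^ (-τ)`. -/
theorem rat_law {B : Set ℚ} {e : ℝ} (he : 0 ≤ e)
    (h : ∀ (A : ℕ) (ε : ℝ), 0 < ε → ∃ (C : ℝ), ∀ H : ℕ, 1 ≤ H →
      {b : ℚ | b ∈ B ∧ |(b : ℝ)| ≤ A ∧ b.den ≤ H}.Finite ∧
        ({b : ℚ | b ∈ B ∧ |(b : ℝ)| ≤ A ∧ b.den ≤ H}.ncard : ℝ) ≤ C * (H : ℝ) ^ (e + ε)) {τ : ℝ} (hτ : 0 < τ) :
    ∃ E : Set ℝ, dimH E ≤ ENNReal.ofReal (e / τ) ∧ (e < τ → volume E = 0) ∧
      ∀ α : ℝ, α ∉ E → {b : ℚ | b ∈ B ∧ |α - b| ≤ (b.den : ℝ) ^ (-τ)}.Finite := by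
  classical
  obtain ⟨E, hE⟩ : ∃ E : Set ℝ, E = {α : ℝ | ¬ {b : ℚ | b ∈ B ∧ |α - b| ≤ (b.den : ℝ) ^ (-τ)}.Finite} := ⟨_, rfl⟩
  have hfinbox : ∀ A H : ℕ, {b : ℚ | |(b : ℝ)| ≤ A ∧ b.den ≤ H}.Finite := by
    intro A H
    refine Set.Finite.subset (Set.Finite.image (fun p : ℤ × ℤ => ((p.1 : ℚ) / (p.2 : ℚ)))
      (Set.Finite.prod (Set.finite_Icc (-((A * H : ℕ) : ℤ)) ((A * H : ℕ) : ℤ)) (Set.finite_Icc (0 : ℤ) H))) ?_
    rintro b ⟨hb1, hb2⟩
    refine ⟨(b.num, (b.den : ℤ)), ⟨?_, ?_⟩, ?_⟩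
    · rw [Set.mem_Icc, ← abs_le]
      have h1 : |(b.num : ℝ)| ≤ A * H := by
        have h2 : (b : ℝ) = (b.num : ℝ) / (b.den : ℝ) := by
          have := Rat.num_div_den b
          calc (b : ℝ) = (((b.num : ℚ) / (b.den : ℚ) : ℚ) : ℝ) := by rw [this]
            _ = _ := by push_cast; rfl
        have h3 : (0 : ℝ) < b.den := by exact_mod_cast b.den_pos
        have h4 : (b.num : ℝ) = b * b.den := by rw [h2]; field_simp
        rw [h4, abs_mul, abs_of_pos h3]
        exact mul_le_mul hb1 (by exact_mod_cast hb2) h3.le (Nat.cast_nonneg _)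
      exact_mod_cast h1
    · show (b.den : ℤ) ∈ Set.Icc (0 : ℤ) H
      rw [Set.mem_Icc]
      exact ⟨by positivity, by exact_mod_cast hb2⟩
    · dsimp only
      rw [Int.cast_natCast]
      exact Rat.num_div_den b
  have hdim : ∀ ε : ℝ, 0 < ε → dimH E ≤ ENNReal.ofReal ((e + ε) / τ) := by
    intro ε hε
    have hcov : E ⊆ ⋃ A : ℕ, {α | α ∈ E ∧ |α| ≤ A} := by
      intro α hα
      obtain ⟨A, hA⟩ := exists_nat_ge |α|
      exact Set.mem_iUnion.2 ⟨A, hα, hA⟩
    refine (dimH_mono hcov).trans ?_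
    rw [dimH_iUnion]
    refine iSup_le fun A => ?_
    obtain ⟨C, hC⟩ := h (A + 1) ε hε
    refine limsup_dim (Q := ℚ) _
      (fun j => ((hC (2 ^ (j + 1)) Nat.one_le_two_pow).1.toFinset).filter (fun b => 2 ^ j ≤ b.den))
      (fun b => {α : ℝ | |α - b| ≤ (b.den : ℝ) ^ (-τ)}) (a := e + ε) (b := τ) (C := max C 0 * 2 ^ (e + ε)) (D := 2) hτ
      (by positivity) (by norm_num) (by linarith) ?_ ?_ ?_
    · intro j
      have h1 := (hC (2 ^ (j + 1)) Nat.one_le_two_pow).2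
      have h2 : ((((hC (2 ^ (j + 1)) Nat.one_le_two_pow).1.toFinset).filter (fun b => 2 ^ j ≤ b.den)).card : ℝ) ≤
          ({b : ℚ | b ∈ B ∧ |(b : ℝ)| ≤ ((A + 1 : ℕ) : ℝ) ∧ b.den ≤ 2 ^ (j + 1)}.ncard : ℝ) := by
        have g1 := card_filter_le ((hC (2 ^ (j + 1)) Nat.one_le_two_pow).1.toFinset) (fun b : ℚ => 2 ^ j ≤ b.den)
        rw [← Set.ncard_eq_toFinset_card _ (hC (2 ^ (j + 1)) Nat.one_le_two_pow).1] at g1
        exact_mod_cast g1
      refine h2.trans (h1.trans ?_)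
      rw [mul_assoc, ← Real.mul_rpow (by norm_num) (by positivity)]
      refine mul_le_mul (le_max_left _ _) (le_of_eq ?_) (by positivity) (le_max_right _ _)
      congr 1
      push_cast
      ring
    · intro j b hb
      rw [mem_filter] at hb
      have hb1 : ((2 : ℝ) ^ j) ≤ b.den := by exact_mod_cast hb.2
      apply Metric.ediam_le
      intro x hx y hy
      rw [edist_dist, Real.dist_eq]
      apply ENNReal.ofReal_le_ofReal
      have h3 : (b.den : ℝ) ^ (-τ) ≤ ((2 : ℝ) ^ j) ^ (-τ) :=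
        Real.rpow_le_rpow_of_nonpos (by positivity) hb1 (by linarith)
      have hx' := abs_le.1 (show |x - b| ≤ (b.den : ℝ) ^ (-τ) from hx)
      have hy' := abs_le.1 (show |y - b| ≤ (b.den : ℝ) ^ (-τ) from hy)
      rw [abs_le]
      constructor <;> linarith
    · rintro α ⟨hα, hA⟩ N
      rw [hE] at hα
      have hinf : ({b : ℚ | b ∈ B ∧ |α - b| ≤ (b.den : ℝ) ^ (-τ)} \ {b : ℚ | |(b : ℝ)| ≤ ((A + 1 : ℕ) : ℝ) ∧ b.den ≤ 2 ^ N}).Nonempty := by
        by_contra hcon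
        rw [Set.not_nonempty_iff_eq_empty, Set.sdiff_eq_empty] at hcon
        exact hα ((hfinbox (A + 1) (2 ^ N)).subset hcon)
      obtain ⟨b, ⟨hb, hbα⟩, hbN⟩ := hinf
      have hden1 : 1 ≤ b.den := b.den_pos
      have hden : (1 : ℝ) ≤ b.den := by exact_mod_cast hden1
      have hle1 : (b.den : ℝ) ^ (-τ) ≤ 1 := Real.rpow_le_one_of_one_le_of_nonpos hden (by linarith)
      have hbA : |(b : ℝ)| ≤ ((A + 1 : ℕ) : ℝ) := by
        have h1 := abs_le.1 (hbα.trans hle1)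
        have h2 := abs_le.1 hA
        push_cast
        rw [abs_le]
        constructor <;> linarith
      have hbN' : 2 ^ N < b.den := by
        by_contra hcon
        exact hbN ⟨hbA, not_lt.1 hcon⟩
      refine ⟨Nat.log 2 b.den, Nat.le_log_of_pow_le (by norm_num) hbN'.le, b, ?_, hbα⟩
      rw [mem_filter, Set.Finite.mem_toFinset]
      exact ⟨⟨hb, hbA, (Nat.lt_pow_succ_log_self (by norm_num) _).le⟩, Nat.pow_log_le_self 2 (by omega)⟩
  have hdim' : dimH E ≤ ENNReal.ofReal (e / τ) := by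
    have ht : Tendsto (fun n : ℕ => ENNReal.ofReal ((e + 1 / ((n : ℝ) + 1)) / τ)) atTop (𝓝 (ENNReal.ofReal (e / τ))) := by
      apply ENNReal.tendsto_ofReal
      have t0 : Tendsto (fun n : ℕ => 1 / ((n : ℝ) + 1)) atTop (𝓝 0) := tendsto_one_div_add_atTop_nhds_zero_nat
      have t1 := (t0.const_add e).div_const τ
      rwa [add_zero] at t1
    exact ge_of_tendsto ht (Eventually.of_forall fun n => hdim _ (by positivity))
  refine ⟨E, hdim', fun hlt => ?_, fun α hα => ?_⟩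
  · have h1 : dimH E < 1 := by
      refine hdim'.trans_lt ?_
      rw [ENNReal.ofReal_lt_one, div_lt_one hτ]
      exact hlt
    have h2 : μH[((1 : ℝ≥0) : ℝ)] E = 0 := hausdorffMeasure_of_dimH_lt (by simpa using h1)
    rw [NNReal.coe_one, hausdorffMeasure_real] at h2
    exact h2
  · by_contra hcon
    exact hα (by rw [hE]; exact hcon)

end Pool.Agent.U513.AP
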