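import Pool.Agent.U513.AP.Core
import Pool.Agent.H510R2.Div
import Pool.Agent.H383.Reps

/-!
# The two laws for integral polynomials at simultaneous approximations
-/

set_option autoImplicit false

open Finset Filter MeasureTheory Topology
open scoped ENNReal NNReal

namespace Pool.Agent.U513.AP

/-- the polynomial `A + Q(x_2, …)` -/
noncomputable def ext {r : ℕ} (A : MvPolynomial (Fin (r + 2)) ℤ) (Q : MvPolynomial (Fin r) ℤ) :
    MvPolynomial (Fin (r + 2)) ℤ :=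
  A + MvPolynomial.rename (fun i : Fin r => i.succ.succ) Q

/-- sums of two squares in a box -/
theorem few_squares (ε : ℝ) (hε : 0 < ε) : ∃ C : ℝ, 0 ≤ C ∧ ∀ X : ℕ, 1 ≤ X → ∀ (v : ℤ) (T : Finset (ℤ × ℤ)),
    (∀ t ∈ T, |t.1| ≤ X ∧ |t.2| ≤ X ∧ t.1 ^ 2 + t.2 ^ 2 = v) → (T.card : ℝ) ≤ C * (X : ℝ) ^ ε := by
  classical
  obtain ⟨D, hD, hdiv⟩ := Pool.Agent.H510R2.divisor_bound (ε / 2) (by positivity)
  refine ⟨1 + 4 * D * 2 ^ (ε / 2), by positivity, fun X hX v T hT => ?_⟩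
  have hX1 : (1 : ℝ) ≤ X := by exact_mod_cast hX
  have hX0 : (0 : ℝ) < X := by linarith
  have hXε : 1 ≤ (X : ℝ) ^ ε := Real.one_le_rpow hX1 hε.le
  rcases T.eq_empty_or_nonempty with h0 | ⟨t, ht⟩
  · rw [h0, card_empty, Nat.cast_zero]
    positivity
  · obtain ⟨h1, h2, h3⟩ := hT t ht
    have hv0 : 0 ≤ v := by rw [← h3]; positivity
    obtain ⟨n, hn⟩ : ∃ n : ℕ, (n : ℤ) = v := ⟨v.toNat, Int.toNat_of_nonneg hv0⟩
    rcases Nat.eq_zero_or_pos n with hn0 | hn0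
    · have h4 : T ⊆ {((0 : ℤ), (0 : ℤ))} := by
        intro u hu
        obtain ⟨-, -, h5⟩ := hT u hu
        rw [← hn, hn0] at h5
        rw [mem_singleton]
        have a1 : u.1 = 0 := by
          by_contra h
          have : 0 < u.1 ^ 2 := by positivity
          have : 0 ≤ u.2 ^ 2 := by positivity
          push_cast at h5
          linarith
        have a2 : u.2 = 0 := by
          by_contra h
          have : 0 < u.2 ^ 2 := by positivity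
          have : 0 ≤ u.1 ^ 2 := by positivity
          push_cast at h5
          linarith
        exact Prod.ext a1 a2
      have h5 := card_le_card h4
      rw [card_singleton] at h5
      have h6 : (T.card : ℝ) ≤ 1 := by exact_mod_cast h5
      have h7 : 0 ≤ 4 * D * 2 ^ (ε / 2) := by positivity
      nlinarith
    have hn2 : n ≤ 2 * X ^ 2 := by
      have b1 := sq_le_sq.2 (h1.trans (le_abs_self _))
      have b2 := sq_le_sq.2 (h2.trans (le_abs_self _))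
      have : (n : ℤ) ≤ 2 * (X : ℤ) ^ 2 := by
        rw [hn, ← h3]
        linarith
      exact_mod_cast this
    have h4 : T.card ≤ (Pool.Agent.H383.Gauss.A n).ncard := by
      rw [← Set.ncard_coe_finset]
      refine Set.ncard_le_ncard_of_injOn (fun t : ℤ × ℤ => (⟨t.1, t.2⟩ : GaussianInt)) ?_ ?_
        (Pool.Agent.H383.Gauss.A_finite n)
      · intro u hu
        rw [mem_coe] at hu
        rw [Pool.Agent.H383.Gauss.mem_A, Pool.Agent.H383.Gauss.norm_eq, hn]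
        exact (hT u hu).2.2
      · intro u _ u' _ h
        rw [Zsqrtd.ext_iff] at h
        exact Prod.ext h.1 h.2
    have h5 := h4.trans (Pool.Agent.H383.Gauss.card_A_le n hn0)
    have h6 := hdiv n hn0
    calc (T.card : ℝ) ≤ 4 * (n.divisors.card : ℝ) := by exact_mod_cast h5
      _ ≤ 4 * (D * (n : ℝ) ^ (ε / 2)) := by linarith
      _ ≤ 4 * (D * (2 * (X : ℝ) ^ 2) ^ (ε / 2)) := by
          have h7 : (n : ℝ) ≤ 2 * (X : ℝ) ^ 2 := by exact_mod_cast hn2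
          have := Real.rpow_le_rpow (Nat.cast_nonneg n) h7 (by positivity : 0 ≤ ε / 2)
          have := mul_le_mul_of_nonneg_left this hD.le
          linarith
      _ = 4 * D * 2 ^ (ε / 2) * (X : ℝ) ^ ε := by
          rw [Real.mul_rpow (by norm_num) (by positivity), ← Real.rpow_natCast (X : ℝ) 2, ← Real.rpow_mul hX0.le]
          have : ((2 : ℕ) : ℝ) * (ε / 2) = ε := by push_cast; ring
          rw [this]
          ring
      _ ≤ _ := by nlinarith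

theorem lev_squares {r : ℕ} (Q : MvPolynomial (Fin r) ℤ) : Lev (ext (MvPolynomial.X 0 ^ 2 + MvPolynomial.X 1 ^ 2) Q) 2 := by
  classical
  refine ⟨by push_cast; linarith [Nat.cast_nonneg (α := ℝ) r], fun ε hε => ?_⟩
  obtain ⟨C, hC0, hC⟩ := few_squares ε hε
  refine ⟨3 ^ r * C, fun X hX v => ?_⟩
  have hX1 : (1 : ℝ) ≤ X := by exact_mod_cast hX
  have hX0 : (0 : ℝ) < X := by linarith
  obtain ⟨P, hP⟩ : ∃ P, P = ext (MvPolynomial.X 0 ^ 2 + MvPolynomial.X 1 ^ 2) Q := ⟨_, rfl⟩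
  have hval : ∀ w : Fin (r + 2) → ℤ, MvPolynomial.eval w P = w 0 ^ 2 + w 1 ^ 2 +
      MvPolynomial.eval (fun i : Fin r => w i.succ.succ) Q := by
    intro w
    rw [hP, ext, map_add, MvPolynomial.eval_rename]
    simp only [map_add, map_pow, MvPolynomial.eval_X]
    rfl
  rw [← hP]
  have hset : {w : Fin (r + 2) → ℤ | (∀ i, |w i| ≤ X) ∧ MvPolynomial.eval w P = v} =
      ((SBox (r + 2) X).filter (fun w => MvPolynomial.eval w P = v) : Finset _) := by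
    ext w
    rw [mem_coe, mem_filter, mem_SBox]
    rfl
  rw [hset, Set.ncard_coe_finset]
  have h1 : ((SBox (r + 2) X).filter (fun w => MvPolynomial.eval w P = v)).card ≤
      ∑ u ∈ SBox r X, (((Icc (-(X : ℤ)) X) ×ˢ (Icc (-(X : ℤ)) X)).filter
        (fun t : ℤ × ℤ => t.1 ^ 2 + t.2 ^ 2 = v - MvPolynomial.eval u Q)).card := by
    rw [← card_sigma]
    refine card_le_card_of_injOn (fun w => ⟨fun i => w i.succ.succ, (w 0, w 1)⟩) ?_ ?_
    · intro w hw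
      rw [mem_coe, mem_filter, mem_SBox] at hw
      rw [mem_coe, mem_sigma, mem_SBox, mem_filter, mem_product, mem_Icc, mem_Icc, ← abs_le, ← abs_le]
      refine ⟨fun i => hw.1 _, ⟨hw.1 0, hw.1 1⟩, ?_⟩
      have h2 := hval w
      rw [hw.2] at h2
      show w 0 ^ 2 + w 1 ^ 2 = v - MvPolynomial.eval (fun i : Fin r => w i.succ.succ) Q
      linarith
    · intro w _ w' _ h
      simp only [Sigma.mk.injEq, heq_eq_eq, Prod.mk.injEq] at h
      obtain ⟨h2, h3, h4⟩ := h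
      funext i
      refine Fin.cases h3 (fun i => Fin.cases h4 (fun i => ?_) i) i
      exact congrFun h2 i
  have h2 : (((SBox r X).card : ℕ) : ℝ) ≤ 3 ^ r * (X : ℝ) ^ r := by
    rw [card_SBox, ← mul_pow]
    push_cast
    exact pow_le_pow_left₀ (by positivity) (by linarith) _
  calc (((SBox (r + 2) X).filter (fun w => MvPolynomial.eval w P = v)).card : ℝ)
      ≤ ∑ u ∈ SBox r X, ((((Icc (-(X : ℤ)) X) ×ˢ (Icc (-(X : ℤ)) X)).filter
        (fun t : ℤ × ℤ => t.1 ^ 2 + t.2 ^ 2 = v - MvPolynomial.eval u Q)).card : ℝ) := by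
        exact_mod_cast h1
    _ ≤ ∑ _u ∈ SBox r X, C * (X : ℝ) ^ ε := sum_le_sum fun u _ => hC X hX (v - MvPolynomial.eval u Q) _ (by
        intro t ht
        rw [mem_filter, mem_product, mem_Icc, mem_Icc, ← abs_le, ← abs_le] at ht
        exact ⟨ht.1.1, ht.1.2, ht.2⟩)
    _ = ((SBox r X).card : ℝ) * (C * (X : ℝ) ^ ε) := by rw [sum_const, nsmul_eq_mul]
    _ ≤ (3 ^ r * (X : ℝ) ^ r) * (C * (X : ℝ) ^ ε) := mul_le_mul_of_nonneg_right h2 (by positivity)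
    _ = 3 ^ r * C * (X : ℝ) ^ (((r + 2 : ℕ) : ℝ) - 2 + ε) := by
        push_cast
        rw [show (r : ℝ) + 2 - 2 + ε = r + ε by ring, Real.rpow_add hX0, Real.rpow_natCast]
        ring

/-- **The law for sets of integers.** -/
theorem nat_law {G : ℕ → Prop} {e δ0 C : ℝ} (he : δ0 ≤ e) (hδ0 : 0 < δ0)
    (hG : ∀ X : ℝ, 1 ≤ X → {b : ℕ | b ∈ {b : ℕ | 1 ≤ b ∧ ¬ G b} ∧ (b : ℝ) ≤ X}.Finite ∧
      ({b : ℕ | b ∈ {b : ℕ | 1 ≤ b ∧ ¬ G b} ∧ (b : ℝ) ≤ X}.ncard : ℝ) ≤ C * X ^ (e - δ0))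
    {d D : ℕ} {τ w l : ℝ} (hd : 1 ≤ d) (hD : 1 ≤ D) (hτ : 0 ≤ τ) (hw : 0 ≤ w) (γ : Fin d → ℝ) :
    ∃ E : Set (Fin d → ℝ), dimH E ≤ ENNReal.ofReal ((d + 1 - l + e * D + w - δ0 / 2) / (1 + τ)) ∧
      (e * D + w + 1 ≤ l + d * τ → volume E = 0) ∧
      ∀ α, α ∉ E → ∀ P : MvPolynomial (Fin (d + 1)) ℤ, P.totalDegree ≤ D → Lev P l → ∀ᶠ k : ℕ in atTop, ∀ p : Fin d → ℤ,
        (∀ i, |(k : ℝ) * α i - γ i - p i| ≤ (k : ℝ) ^ (-τ)) → ∀ m : ℕ, 1 ≤ m →
          |(m : ℝ) - (MvPolynomial.eval (Fin.cons (k : ℤ) p : Fin (d + 1) → ℤ) P : ℤ)| ≤ (k : ℝ) ^ w → G m := by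
  classical
  obtain ⟨B, hB⟩ : ∃ B : Set ℕ, B = {b : ℕ | 1 ≤ b ∧ ¬ G b} := ⟨_, rfl⟩
  rw [← hB] at hG
  have hfew : Few ((fun b : ℕ => (b : ℝ)) '' B) (e - δ0) := by
    refine ⟨C, fun X hX => ?_⟩
    obtain ⟨h1, h2⟩ := hG X hX
    have hs : {t | t ∈ (fun b : ℕ => (b : ℝ)) '' B ∧ t ≤ X} = (fun b : ℕ => (b : ℝ)) '' {b : ℕ | b ∈ B ∧ (b : ℝ) ≤ X} := by
      ext t
      constructor
      · rintro ⟨⟨b, hb, rfl⟩, h⟩
        exact ⟨b, ⟨hb, h⟩, rfl⟩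
      · rintro ⟨b, ⟨hb, h⟩, rfl⟩
        exact ⟨⟨b, hb, rfl⟩, h⟩
    rw [hs]
    exact ⟨h1.image _, (Nat.cast_le.2 (Set.ncard_image_le h1)).trans h2⟩
  obtain ⟨E, hE1, hE2⟩ := dim_polys (w := w) (l := l) (ε := δ0 / 2) hfew (by linarith) hw hτ (by positivity) γ D
  have hD1 : (1 : ℝ) ≤ D := by exact_mod_cast hD
  have hE1' : dimH E ≤ ENNReal.ofReal ((d + 1 - l + e * D + w - δ0 / 2) / (1 + τ)) := by
    refine hE1.trans (ENNReal.ofReal_le_ofReal ?_)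
    apply div_le_div_of_nonneg_right _ (by linarith)
    nlinarith
  refine ⟨E, hE1', fun h => null_of_dim hd hE1' ?_, fun α hα P hP1 hP2 => ?_⟩
  · rw [div_lt_iff₀ (by linarith)]
    nlinarith
  · filter_upwards [hE2 α hα P hP1 hP2] with k hk p hp m hm hmP
    by_contra hbad
    refine hk p hp (m : ℝ) ⟨m, by rw [hB]; exact ⟨hm, hbad⟩, rfl⟩ ?_
    have : 0 ≤ (k : ℝ) ^ w := by positivity
    linarith

/-- **The law for neighbourhoods of the points of a sparse set.** -/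
theorem near_law {G : ℕ → Prop} {e δ0 K κ : ℝ} {S : Set ℝ} (he : δ0 ≤ e) (hδ0 : 0 < δ0) (hS : Few S (e - δ0))
    (hK : 0 ≤ K) (hκ : 0 < κ) (hκ1 : κ ≤ 1) (hG : ∀ m : ℕ, 1 ≤ m → ¬ G m → ∃ s ∈ S, |s - m| ≤ K * (m : ℝ) ^ κ)
    {d D : ℕ} {τ w l : ℝ} (hd : 1 ≤ d) (hD : 1 ≤ D) (hτ : 0 ≤ τ) (hw : κ * D ≤ w) (γ : Fin d → ℝ) :
    ∃ E : Set (Fin d → ℝ), dimH E ≤ ENNReal.ofReal ((d + 1 - l + e * D + w - δ0 / 2) / (1 + τ)) ∧
      (e * D + w + 1 ≤ l + d * τ → volume E = 0) ∧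
      ∀ α, α ∉ E → ∀ P : MvPolynomial (Fin (d + 1)) ℤ, P.totalDegree ≤ D → Lev P l → ∀ᶠ k : ℕ in atTop, ∀ p : Fin d → ℤ,
        (∀ i, |(k : ℝ) * α i - γ i - p i| ≤ (k : ℝ) ^ (-τ)) → ∀ m : ℕ, 1 ≤ m →
          |(m : ℝ) - (MvPolynomial.eval (Fin.cons (k : ℤ) p : Fin (d + 1) → ℤ) P : ℤ)| ≤ (k : ℝ) ^ w → G m := by
  classical
  have hD1 : (1 : ℝ) ≤ D := by exact_mod_cast hD
  have hw0 : 0 < w := lt_of_lt_of_le (by positivity) hw
  obtain ⟨E, hE1, hE2⟩ := dim_polys (w := w + δ0 / 4) (l := l) (ε := δ0 / 4) hS (by linarith) (by positivity) hτ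
    (by positivity) γ D
  have hE1' : dimH E ≤ ENNReal.ofReal ((d + 1 - l + e * D + w - δ0 / 2) / (1 + τ)) := by
    refine hE1.trans (ENNReal.ofReal_le_ofReal ?_)
    apply div_le_div_of_nonneg_right _ (by linarith)
    nlinarith
  refine ⟨E, hE1', fun h => null_of_dim hd hE1' ?_, fun α hα P hP1 hP2 => ?_⟩
  · rw [div_lt_iff₀ (by linarith)]
    nlinarith
  obtain ⟨A, hA⟩ := exists_nat_ge (∑ i, |α i|)
  obtain ⟨Gm, hGm⟩ := exists_nat_ge (∑ i, |γ i|)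
  have hA' : ∀ i, |α i| ≤ A := fun i =>
    (Finset.single_le_sum (fun i _ => abs_nonneg (α i)) (mem_univ i)).trans hA
  have hG' : ∀ i, |γ i| ≤ Gm := fun i =>
    (Finset.single_le_sum (fun i _ => abs_nonneg (γ i)) (mem_univ i)).trans hGm
  obtain ⟨R, hR⟩ : ∃ R : ℝ, R = ((A + Gm + 1 : ℕ) : ℝ) := ⟨_, rfl⟩
  have hR1 : 1 ≤ R := by
    rw [hR]
    push_cast
    have : (0 : ℝ) ≤ A + Gm := by positivity
    linarith
  obtain ⟨M, hM⟩ : ∃ M : ℝ, M = ht P * R ^ D + 1 := ⟨_, rfl⟩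
  have hM1 : 1 ≤ M := by
    rw [hM]
    have : 0 ≤ ht P * R ^ D := by positivity
    linarith
  have t0 : Tendsto (fun n : ℕ => (n : ℝ) ^ (δ0 / 4)) atTop atTop :=
    (tendsto_rpow_atTop (by positivity)).comp tendsto_natCast_atTop_atTop
  filter_upwards [hE2 α hα P hP1 hP2, eventually_ge_atTop 1, t0.eventually_ge_atTop (K * M ^ κ)] with k hk hk1 hk2 p hp m hm hmP
  by_contra hbad
  obtain ⟨s, hs, hsm⟩ := hG m hm hbad
  refine hk p hp s hs ?_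
  have hk1' : (1 : ℝ) ≤ k := by exact_mod_cast hk1
  have hk0 : (0 : ℝ) < k := by linarith
  obtain ⟨v, hv⟩ : ∃ v : ℤ, v = MvPolynomial.eval (Fin.cons (k : ℤ) p : Fin (d + 1) → ℤ) P := ⟨_, rfl⟩
  rw [← hv] at hmP ⊢
  have hval : |(v : ℝ)| ≤ ht P * (R * k) ^ D := by
    rw [hv]
    refine abs_val_le P hP1 (by nlinarith) (fun i => ?_)
    have := size hτ hA' hG' (q := (Fin.cons (k : ℤ) p : Fin (d + 1) → ℤ)) (α := α) (fun i => by
      have := hp i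
      simpa using this) (by simpa using hk1) i
    rw [hR]
    simpa using this
  obtain ⟨t, ht'⟩ : ∃ t : ℝ, t = max (D : ℝ) w := ⟨_, rfl⟩
  have htD : (D : ℝ) ≤ t := by rw [ht']; exact le_max_left _ _
  have htw : w ≤ t := by rw [ht']; exact le_max_right _ _
  have hkD : (k : ℝ) ^ D ≤ (k : ℝ) ^ t := by
    rw [← Real.rpow_natCast]
    exact Real.rpow_le_rpow_of_exponent_le hk1' htD
  have hkw : (k : ℝ) ^ w ≤ (k : ℝ) ^ t := Real.rpow_le_rpow_of_exponent_le hk1' htw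
  have hmM : (m : ℝ) ≤ M * (k : ℝ) ^ t := by
    have h1 := (abs_le.1 hmP).2
    have h2 := (abs_le.1 hval).2
    rw [mul_pow] at h2
    have h3 : ht P * (R ^ D * (k : ℝ) ^ D) ≤ ht P * R ^ D * (k : ℝ) ^ t := by
      rw [← mul_assoc]
      exact mul_le_mul_of_nonneg_left hkD (by positivity)
    rw [hM]
    linarith
  have htκ : t * κ ≤ w := by
    rw [ht']
    rcases le_total (D : ℝ) w with h | h
    · rw [max_eq_right h]
      nlinarith
    · rw [max_eq_left h]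
      linarith
  have hmκ : K * (m : ℝ) ^ κ ≤ (k : ℝ) ^ (w + δ0 / 4) := by
    calc K * (m : ℝ) ^ κ ≤ K * (M * (k : ℝ) ^ t) ^ κ :=
          mul_le_mul_of_nonneg_left (Real.rpow_le_rpow (Nat.cast_nonneg _) hmM hκ.le) hK
      _ = (K * M ^ κ) * (k : ℝ) ^ (t * κ) := by
          rw [Real.mul_rpow (by linarith) (by positivity), ← Real.rpow_mul hk0.le]
          ring
      _ ≤ (k : ℝ) ^ (δ0 / 4) * (k : ℝ) ^ w := by
          refine mul_le_mul hk2 (Real.rpow_le_rpow_of_exponent_le hk1' htκ) (by positivity) (by positivity)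
      _ = _ := by
          rw [← Real.rpow_add hk0]
          congr 1
          ring
  have hkw2 : (k : ℝ) ^ w ≤ (k : ℝ) ^ (w + δ0 / 4) := Real.rpow_le_rpow_of_exponent_le hk1' (by linarith)
  have h9 : |s - v| ≤ |s - m| + |(m : ℝ) - v| := abs_sub_le _ _ _
  linarith

/-- finitely many points may be added -/
lemma few_union {S : Set ℝ} {e : ℝ} (he : 0 ≤ e) (hS : Few S e) (n : ℕ) :
    Few (S ∪ ((fun j : ℕ => (j : ℝ)) '' {j : ℕ | j < n})) e := by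
  obtain ⟨C, hC⟩ := hS
  have hfin : ((fun j : ℕ => (j : ℝ)) '' {j : ℕ | j < n}).Finite := (Set.finite_Iio n).image _
  refine ⟨C + ((fun j : ℕ => (j : ℝ)) '' {j : ℕ | j < n}).ncard, fun X hX => ?_⟩
  obtain ⟨h1, h2⟩ := hC X hX
  have hs : {t | t ∈ S ∪ ((fun j : ℕ => (j : ℝ)) '' {j : ℕ | j < n}) ∧ t ≤ X} ⊆
      {t | t ∈ S ∧ t ≤ X} ∪ ((fun j : ℕ => (j : ℝ)) '' {j : ℕ | j < n}) := by
    rintro t ⟨ht | ht, htX⟩
    · exact Or.inl ⟨ht, htX⟩
    · exact Or.inr ht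
  refine ⟨(h1.union hfin).subset hs, ?_⟩
  have h3 := (Set.ncard_le_ncard hs (h1.union hfin)).trans (Set.ncard_union_le _ _)
  have h4 : 1 ≤ X ^ e := Real.one_le_rpow hX he
  have h5 : (({t | t ∈ S ∪ ((fun j : ℕ => (j : ℝ)) '' {j : ℕ | j < n}) ∧ t ≤ X}).ncard : ℝ) ≤
      ({t | t ∈ S ∧ t ≤ X}.ncard : ℝ) + (((fun j : ℕ => (j : ℝ)) '' {j : ℕ | j < n}).ncard : ℝ) := by exact_mod_cast h3
  have h6 : (((fun j : ℕ => (j : ℝ)) '' {j : ℕ | j < n}).ncard : ℝ) ≤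
      (((fun j : ℕ => (j : ℝ)) '' {j : ℕ | j < n}).ncard : ℝ) * X ^ e := le_mul_of_one_le_right (Nat.cast_nonneg _) h4
  calc _ ≤ _ := h5
    _ ≤ C * X ^ e + (((fun j : ℕ => (j : ℝ)) '' {j : ℕ | j < n}).ncard : ℝ) * X ^ e := add_le_add h2 h6
    _ = _ := by ring

end Pool.Agent.U513.AP
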