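import Mathlib

/-!
# Sparse sets and integral polynomials at simultaneous approximations

`S` is a set of real numbers with at most `C X ^ e` elements `≤ X`. For `α : Fin d → ℝ` consider the integral vectors
`q = (q_0, …, q_d)`, `q_0 ≥ 1`, with `|q_0 α_i - γ_i - q_i| ≤ q_0 ^ (-τ)` for all `i`. Let `P` be a polynomial in `d + 1` variables
with integral coefficients of degree `≤ D` which has small level sets: at most `C X ^ (d + 1 - l + ε)` solutions of `P(q) = v` with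
`|q_i| ≤ X`. The set of the `α` for which `P(q)` is within `2 q_0 ^ w` of `S` for infinitely many of these `q` has
Hausdorff dimension at most `(d + 1 - l + e D + w) / (1 + τ)`.
-/

set_option autoImplicit false

open Finset Filter MeasureTheory Topology
open scoped ENNReal NNReal

namespace Pool.Agent.U513.AP

/-- at most `C X ^ e` elements of `S` are `≤ X` -/
def Few (S : Set ℝ) (e : ℝ) : Prop :=
  ∃ C : ℝ, ∀ X : ℝ, 1 ≤ X → {t | t ∈ S ∧ t ≤ X}.Finite ∧ ({t | t ∈ S ∧ t ≤ X}.ncard : ℝ) ≤ C * X ^ e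

/-- the level sets of `P` in the boxes `|w_i| ≤ X` have at most `C X ^ (r - l + ε)` elements -/
def Lev {r : ℕ} (P : MvPolynomial (Fin r) ℤ) (l : ℝ) : Prop :=
  l ≤ r ∧ ∀ ε : ℝ, 0 < ε → ∃ C : ℝ, ∀ X : ℕ, 1 ≤ X → ∀ v : ℤ,
    ({w : Fin r → ℤ | (∀ i, |w i| ≤ X) ∧ MvPolynomial.eval w P = v}.ncard : ℝ) ≤ C * (X : ℝ) ^ (r - l + ε)

/-- the box `[-X, X] ^ r` -/
noncomputable def SBox (r X : ℕ) : Finset (Fin r → ℤ) := Fintype.piFinset (fun _ : Fin r => Icc (-(X : ℤ)) X)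

lemma mem_SBox {r X : ℕ} {w : Fin r → ℤ} : w ∈ SBox r X ↔ ∀ i, |w i| ≤ X := by
  unfold SBox
  rw [Fintype.mem_piFinset]
  simp only [mem_Icc, abs_le]

lemma card_SBox (r X : ℕ) : (SBox r X).card = (2 * X + 1) ^ r := by
  unfold SBox
  rw [Fintype.card_piFinset_const, Int.card_Icc]
  congr 1
  omega

lemma lev_card {r : ℕ} {P : MvPolynomial (Fin r) ℤ} {l : ℝ} (h : Lev P l) {ε : ℝ} (hε : 0 < ε) :
    ∃ C : ℝ, 0 ≤ C ∧ ∀ X : ℕ, 1 ≤ X → ∀ (v : ℤ) (T : Finset (Fin r → ℤ)),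
      (∀ w ∈ T, (∀ i, |w i| ≤ X) ∧ MvPolynomial.eval w P = v) → (T.card : ℝ) ≤ C * (X : ℝ) ^ (r - l + ε) := by
  obtain ⟨C, hC⟩ := h.2 ε hε
  refine ⟨max C 0, le_max_right _ _, fun X hX v T hT => ?_⟩
  have h1 : (T.card : ℝ) ≤ ({w : Fin r → ℤ | (∀ i, |w i| ≤ X) ∧ MvPolynomial.eval w P = v}.ncard : ℝ) := by
    rw [← Set.ncard_coe_finset]
    refine Nat.cast_le.2 (Set.ncard_le_ncard (fun w hw => hT w hw) ?_)
    refine (Finset.finite_toSet (SBox r X)).subset ?_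
    rintro w ⟨hw, -⟩
    exact mem_coe.2 (mem_SBox.2 hw)
  refine (h1.trans (hC X hX v)).trans ?_
  exact mul_le_mul_of_nonneg_right (le_max_left _ _) (by positivity)

/-- nonconstant polynomials -/
theorem lev_one {r : ℕ} (P : MvPolynomial (Fin r) ℤ) (hP : ∀ c : ℤ, P ≠ MvPolynomial.C c) : Lev P 1 := by
  classical
  have hr : r ≠ 0 := by
    rintro rfl
    exact hP (MvPolynomial.isEmptyAlgEquiv ℤ (Fin 0) P) ((MvPolynomial.isEmptyAlgEquiv ℤ (Fin 0)).injective (by simp))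
  refine ⟨by exact_mod_cast Nat.one_le_iff_ne_zero.2 hr, fun ε hε => ⟨P.totalDegree * 3 ^ (r - 1), fun X hX v => ?_⟩⟩
  have hne : P - MvPolynomial.C v ≠ 0 := fun h => hP v (sub_eq_zero.1 h)
  have hdeg : (P - MvPolynomial.C v).totalDegree ≤ P.totalDegree := by
    refine (MvPolynomial.totalDegree_sub _ _).trans ?_
    rw [MvPolynomial.totalDegree_C]
    exact max_le le_rfl (Nat.zero_le _)
  have h1 := MvPolynomial.schwartz_zippel_totalDegree hne (Icc (-(X : ℤ)) X)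
  have hSc : (Icc (-(X : ℤ)) X).card = 2 * X + 1 := by
    rw [Int.card_Icc]
    omega
  rw [hSc] at h1
  have hset : {w : Fin r → ℤ | (∀ i, |w i| ≤ X) ∧ MvPolynomial.eval w P = v} =
      ((Fintype.piFinset fun _ : Fin r => Icc (-(X : ℤ)) X).filter
        fun f => MvPolynomial.eval f (P - MvPolynomial.C v) = 0 : Finset (Fin r → ℤ)) := by
    ext w
    rw [mem_coe, mem_filter, Fintype.mem_piFinset, map_sub, MvPolynomial.eval_C, sub_eq_zero]
    simp only [mem_Icc, ← abs_le]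
    rfl
  rw [hset, Set.ncard_coe_finset]
  have h2 : ((((Fintype.piFinset fun _ : Fin r => Icc (-(X : ℤ)) X).filter
      fun f => MvPolynomial.eval f (P - MvPolynomial.C v) = 0).card : ℕ) : ℚ≥0) ≤
      (P.totalDegree : ℚ≥0) * ((2 * X + 1 : ℕ) : ℚ≥0) ^ (r - 1) := by
    rw [div_le_iff₀ (by positivity)] at h1
    refine h1.trans ?_
    have h3 : ((2 * X + 1 : ℕ) : ℚ≥0) ^ r = ((2 * X + 1 : ℕ) : ℚ≥0) ^ (r - 1) * ((2 * X + 1 : ℕ) : ℚ≥0) := by
      rw [← pow_succ]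
      congr 1
      omega
    have h4 : ((P - MvPolynomial.C v).totalDegree : ℚ≥0) ≤ P.totalDegree := by exact_mod_cast hdeg
    have h0 : ((2 * X + 1 : ℕ) : ℚ≥0) ≠ 0 := by positivity
    calc ((P - MvPolynomial.C v).totalDegree : ℚ≥0) / ((2 * X + 1 : ℕ) : ℚ≥0) * ((2 * X + 1 : ℕ) : ℚ≥0) ^ r
        = ((P - MvPolynomial.C v).totalDegree : ℚ≥0) * ((2 * X + 1 : ℕ) : ℚ≥0) ^ (r - 1) := by
          rw [h3]
          field_simp
      _ ≤ _ := mul_le_mul_of_nonneg_right h4 (by positivity)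
  have h5 : (((Fintype.piFinset fun _ : Fin r => Icc (-(X : ℤ)) X).filter
      fun f => MvPolynomial.eval f (P - MvPolynomial.C v) = 0).card : ℝ) ≤
      (P.totalDegree : ℝ) * ((2 * X + 1 : ℕ) : ℝ) ^ (r - 1) := by exact_mod_cast h2
  have hX1 : (1 : ℝ) ≤ X := by exact_mod_cast hX
  have h6 : ((2 * X + 1 : ℕ) : ℝ) ^ (r - 1) ≤ 3 ^ (r - 1) * (X : ℝ) ^ (r - 1) := by
    rw [← mul_pow]
    apply pow_le_pow_left₀ (by positivity)
    push_cast
    linarith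
  have h7 : (X : ℝ) ^ (r - 1) ≤ (X : ℝ) ^ (r - 1 + ε) := by
    rw [← Real.rpow_natCast, Nat.cast_sub (Nat.one_le_iff_ne_zero.2 hr), Nat.cast_one]
    exact Real.rpow_le_rpow_of_exponent_le hX1 (by linarith)
  calc _ ≤ (P.totalDegree : ℝ) * ((2 * X + 1 : ℕ) : ℝ) ^ (r - 1) := h5
    _ ≤ (P.totalDegree : ℝ) * (3 ^ (r - 1) * (X : ℝ) ^ (r - 1 + ε)) := by
        refine mul_le_mul_of_nonneg_left (h6.trans ?_) (Nat.cast_nonneg _)
        exact mul_le_mul_of_nonneg_left h7 (by positivity)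
    _ = _ := by ring

/-- the sum of the absolute values of the coefficients -/
def ht {r : ℕ} (P : MvPolynomial (Fin r) ℤ) : ℕ := ∑ m ∈ P.support, (P.coeff m).natAbs

theorem abs_val_le {r : ℕ} (P : MvPolynomial (Fin r) ℤ) {D : ℕ} (hD : P.totalDegree ≤ D) {X : ℝ} (hX : 1 ≤ X)
    {w : Fin r → ℤ} (hw : ∀ i, |(w i : ℝ)| ≤ X) :
    |((MvPolynomial.eval w P : ℤ) : ℝ)| ≤ ht P * X ^ D := by
  unfold ht
  rw [MvPolynomial.eval_eq']
  push_cast
  refine (abs_sum_le_sum_abs _ _).trans ?_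
  rw [sum_mul]
  refine sum_le_sum fun m hm => ?_
  rw [abs_mul]
  have h1 : |∏ i, ((w i : ℝ)) ^ (m i)| ≤ X ^ D := by
    rw [abs_prod]
    calc ∏ i, |((w i : ℝ)) ^ (m i)| ≤ ∏ i, X ^ (m i) := by
          refine prod_le_prod (fun i _ => by positivity) fun i _ => ?_
          rw [abs_pow]
          exact pow_le_pow_left₀ (by positivity) (hw i) _
      _ = X ^ (∑ i, m i) := by rw [prod_pow_eq_pow_sum]
      _ ≤ X ^ D := by
          refine pow_le_pow_right₀ hX ?_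
          have h2 := MvPolynomial.le_totalDegree hm
          rw [Finsupp.sum_fintype _ _ (by intro i; rfl)] at h2
          exact h2.trans hD
  have h3 : |((P.coeff m : ℤ) : ℝ)| = ((P.coeff m).natAbs : ℝ) := by
    rw [Nat.cast_natAbs, Int.cast_abs]
  rw [h3]
  exact mul_le_mul_of_nonneg_left h1 (Nat.cast_nonneg _)

lemma values {S : Set ℝ} {e w : ℝ} (hS : Few S e) (he : 0 ≤ e) (hw : 0 ≤ w) (D : ℕ) {Λ K : ℝ} (hΛ : 0 ≤ Λ) (hK : 1 ≤ K) :
    ∃ C : ℝ, 0 ≤ C ∧ ∀ n : ℝ, 1 ≤ n → ∀ V : Finset ℤ,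
      (∀ v ∈ V, |(v : ℝ)| ≤ Λ * n ^ D ∧ ∃ s ∈ S, |s - v| ≤ K * n ^ w) →
      (V.card : ℝ) ≤ C * n ^ (e * D + w) := by
  classical
  obtain ⟨C0, hC0⟩ := hS
  by_cases hew : (D : ℝ) ≤ e * D + w
  · refine ⟨2 * Λ + 1, by positivity, fun n hn V hV => ?_⟩
    have hsub : V ⊆ Icc (-(⌊Λ * n ^ D⌋₊ : ℤ)) ⌊Λ * n ^ D⌋₊ := by
      intro v hv
      rw [mem_Icc, ← abs_le]
      have h1 := (hV v hv).1
      have h2 : (v.natAbs : ℝ) ≤ Λ * n ^ D := by
        rw [Nat.cast_natAbs, Int.cast_abs]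
        exact h1
      have h3 : v.natAbs ≤ ⌊Λ * n ^ D⌋₊ := Nat.le_floor h2
      rw [Int.abs_eq_natAbs]
      exact_mod_cast h3
    have h1 := card_le_card hsub
    rw [Int.card_Icc] at h1
    have h2 : V.card ≤ 2 * ⌊Λ * n ^ D⌋₊ + 1 := by omega
    have h3 : (V.card : ℝ) ≤ 2 * (⌊Λ * n ^ D⌋₊ : ℝ) + 1 := by exact_mod_cast h2
    have h6 := Nat.floor_le (show 0 ≤ Λ * n ^ D by positivity)
    have h4 : n ^ D ≤ n ^ (e * D + w) := by
      rw [← Real.rpow_natCast]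
      exact Real.rpow_le_rpow_of_exponent_le hn hew
    have h5 : (0 : ℝ) ≤ 2 * Λ + 1 := by positivity
    have h7 : 1 ≤ n ^ D := one_le_pow₀ hn
    calc (V.card : ℝ) ≤ 2 * (Λ * n ^ D) + 1 := by linarith
      _ ≤ (2 * Λ + 1) * n ^ D := by nlinarith
      _ ≤ (2 * Λ + 1) * n ^ (e * D + w) := mul_le_mul_of_nonneg_left h4 h5
  · have heD : 0 ≤ e * D := by positivity
    have hw1 : w ≤ D := by linarith
    refine ⟨|C0| * (Λ + K) ^ e * (3 * K), by positivity, fun n hn V hV => ?_⟩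
    have hn0 : 0 < n := by linarith
    obtain ⟨r, hr⟩ : ∃ r, r = K * n ^ w := ⟨_, rfl⟩
    have hnw : 1 ≤ n ^ w := Real.one_le_rpow hn hw
    have hr1 : 1 ≤ r := by
      rw [hr]
      nlinarith
    have hrR : r ≤ K * n ^ D := by
      rw [hr, ← Real.rpow_natCast n D]
      exact mul_le_mul_of_nonneg_left (Real.rpow_le_rpow_of_exponent_le hn hw1) (by linarith)
    obtain ⟨X, hX⟩ : ∃ X : ℝ, X = (Λ + K) * n ^ D := ⟨_, rfl⟩
    have hnD : 1 ≤ n ^ D := one_le_pow₀ hn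
    have hX1 : 1 ≤ X := by
      rw [hX]
      nlinarith
    obtain ⟨hfin, hcard⟩ := hC0 X hX1
    obtain ⟨T, hT⟩ : ∃ T, T = hfin.toFinset := ⟨_, rfl⟩
    have hsub : V ⊆ T.biUnion (fun s => Icc ⌈s - r⌉ ⌊s + r⌋) := by
      intro v hv
      obtain ⟨h1, s, hs, h3⟩ := hV v hv
      rw [← hr] at h3
      have h3' := abs_le.1 h3
      have h1' := abs_le.1 h1
      rw [mem_biUnion]
      refine ⟨s, ?_, ?_⟩
      · rw [hT, Set.Finite.mem_toFinset]
        refine ⟨hs, ?_⟩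
        rw [hX]
        nlinarith
      · rw [mem_Icc]
        constructor
        · rw [Int.ceil_le]; linarith
        · rw [Int.le_floor]; linarith
    have h1 := (card_le_card hsub).trans (card_biUnion_le_card_mul T _ (⌊2 * r⌋₊ + 1) (by
      intro s hs
      rw [Int.card_Icc]
      have h2 : (⌊s + r⌋ : ℝ) ≤ s + r := Int.floor_le _
      have h3 : s - r ≤ (⌈s - r⌉ : ℝ) := Int.le_ceil _
      have h4 : ((⌊s + r⌋ - ⌈s - r⌉ : ℤ) : ℝ) ≤ 2 * r := by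
        push_cast
        linarith
      have h5 : ⌊s + r⌋ - ⌈s - r⌉ ≤ (⌊2 * r⌋₊ : ℤ) := by
        have h6 : ⌊s + r⌋ - ⌈s - r⌉ ≤ ⌊2 * r⌋ := Int.le_floor.2 h4
        have h7 : (⌊2 * r⌋₊ : ℤ) = ⌊2 * r⌋ := Int.natCast_floor_eq_floor (by linarith)
        omega
      omega))
    have h2 : (V.card : ℝ) ≤ (T.card : ℝ) * ((⌊2 * r⌋₊ : ℝ) + 1) := by exact_mod_cast h1
    have h3 : ((⌊2 * r⌋₊ : ℝ) + 1) ≤ 3 * r := by
      have := Nat.floor_le (show 0 ≤ 2 * r by linarith)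
      linarith
    have h4 : (T.card : ℝ) ≤ |C0| * X ^ e := by
      have h5 : (T.card : ℝ) ≤ C0 * X ^ e := by
        rw [hT, ← Set.ncard_eq_toFinset_card _ hfin]
        exact hcard
      exact h5.trans (mul_le_mul_of_nonneg_right (le_abs_self _) (by positivity))
    have h6 : X ^ e = (Λ + K) ^ e * n ^ (e * D) := by
      rw [hX, Real.mul_rpow (by linarith) (by positivity), ← Real.rpow_natCast n D, ← Real.rpow_mul hn0.le, mul_comm (D : ℝ) e]
    calc (V.card : ℝ) ≤ (T.card : ℝ) * ((⌊2 * r⌋₊ : ℝ) + 1) := h2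
      _ ≤ (|C0| * X ^ e) * (3 * r) := mul_le_mul h4 h3 (by positivity) (by positivity)
      _ = |C0| * (Λ + K) ^ e * (3 * K) * (n ^ (e * D) * n ^ w) := by
          rw [h6, hr]
          ring
      _ = _ := by rw [Real.rpow_add hn0]

/-- the approximating vectors of size `n` whose value is close to `S` -/
lemma vectors {S : Set ℝ} {e w l ε : ℝ} (hS : Few S e) (he : 0 ≤ e) (hw : 0 ≤ w) (hε : 0 < ε) {r : ℕ}
    (P : MvPolynomial (Fin r) ℤ) {D : ℕ} (hD : P.totalDegree ≤ D) (hP : Lev P l) (R : ℕ) (hR : 1 ≤ R) :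
    ∃ C : ℝ, 0 ≤ C ∧ ∀ n : ℕ, 1 ≤ n → ∀ T : Finset (Fin r → ℤ),
      (∀ q ∈ T, (∀ i, |q i| ≤ (R * n : ℕ)) ∧ ∃ s ∈ S, |s - (MvPolynomial.eval q P : ℤ)| ≤ 2 * ((R * n : ℕ) : ℝ) ^ w) →
      (T.card : ℝ) ≤ C * (n : ℝ) ^ (r - l + e * D + w + ε) := by
  classical
  obtain ⟨C1, hC1, hL⟩ := lev_card hP hε
  have hR1 : (1 : ℝ) ≤ R := by exact_mod_cast hR
  have hRw : 1 ≤ (R : ℝ) ^ w := Real.one_le_rpow hR1 hw
  obtain ⟨C2, hC2, hV⟩ := values (w := w) hS he hw D (Λ := ht P * (R : ℝ) ^ D) (K := 2 * (R : ℝ) ^ w) (by positivity) (by linarith)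
  refine ⟨C2 * (C1 * (R : ℝ) ^ (r - l + ε)), by positivity, fun n hn T hT => ?_⟩
  have hn1 : (1 : ℝ) ≤ n := by exact_mod_cast hn
  have hn0 : (0 : ℝ) < n := by linarith
  have hRn1 : 1 ≤ R * n := Nat.mul_pos hR hn
  have h2 := hV n hn1 (T.image (fun q => MvPolynomial.eval q P)) (by
    intro v hv
    rw [mem_image] at hv
    obtain ⟨q, hq, rfl⟩ := hv
    obtain ⟨g1, s, hs, g3⟩ := hT q hq
    constructor
    · have := abs_val_le P hD (X := ((R * n : ℕ) : ℝ)) (by exact_mod_cast hRn1) (w := q) (fun i => by exact_mod_cast g1 i)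
      refine this.trans (le_of_eq ?_)
      push_cast
      rw [mul_pow]
      ring
    · refine ⟨s, hs, g3.trans (le_of_eq ?_)⟩
      push_cast
      rw [Real.mul_rpow (by positivity) (by positivity)]
      ring)
  have h3 : T.card = ∑ v ∈ T.image (fun q => MvPolynomial.eval q P), (T.filter (fun q => MvPolynomial.eval q P = v)).card :=
    card_eq_sum_card_image _ _
  have h4 : (T.card : ℝ) ≤ ((T.image (fun q => MvPolynomial.eval q P)).card : ℝ) *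
      (C1 * ((R * n : ℕ) : ℝ) ^ (r - l + ε)) := by
    rw [h3]
    push_cast
    rw [← nsmul_eq_mul]
    apply sum_le_card_nsmul
    intro v _
    have := hL (R * n) hRn1 v (T.filter (fun q => MvPolynomial.eval q P = v)) (by
      intro q hq
      rw [mem_filter] at hq
      exact ⟨(hT q hq.1).1, hq.2⟩)
    push_cast at this
    exact this
  calc (T.card : ℝ) ≤ _ := h4
    _ ≤ (C2 * (n : ℝ) ^ (e * D + w)) * (C1 * ((R * n : ℕ) : ℝ) ^ (r - l + ε)) := by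
        refine mul_le_mul_of_nonneg_right h2 (by positivity)
    _ = C2 * (C1 * (R : ℝ) ^ (r - l + ε)) * ((n : ℝ) ^ (e * D + w) * (n : ℝ) ^ (r - l + ε)) := by
        push_cast
        rw [Real.mul_rpow (by positivity) (by positivity)]
        ring
    _ = _ := by
        rw [← Real.rpow_add hn0]
        congr 2
        ring

/-- the points approximated by the vector `q` -/
def pts {d : ℕ} (τ : ℝ) (γ : Fin d → ℝ) (q : Fin (d + 1) → ℤ) : Set (Fin d → ℝ) :=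
  {α | ∀ i : Fin d, |(q 0 : ℝ) * α i - γ i - q i.succ| ≤ (q 0 : ℝ) ^ (-τ)}

lemma diam_pts {d : ℕ} {τ : ℝ} (hτ : 0 ≤ τ) (γ : Fin d → ℝ) (q : Fin (d + 1) → ℤ) (n : ℕ) (hn : 1 ≤ n)
    (hq : (n : ℤ) ≤ q 0) : Metric.ediam (pts τ γ q) ≤ ENNReal.ofReal (2 * (n : ℝ) ^ (-(1 + τ))) := by
  apply Metric.ediam_le
  intro α hα β hβ
  rw [edist_pi_le_iff]
  intro i
  rw [edist_dist, Real.dist_eq]
  apply ENNReal.ofReal_le_ofReal
  have hn1 : (1 : ℝ) ≤ n := by exact_mod_cast hn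
  have hq1 : (n : ℝ) ≤ q 0 := by exact_mod_cast hq
  have hq0 : (0 : ℝ) < q 0 := by linarith
  have h1 := abs_le.1 (hα i)
  have h2 := abs_le.1 (hβ i)
  have h3 : (q 0 : ℝ) * |α i - β i| ≤ 2 * (q 0 : ℝ) ^ (-τ) := by
    rw [← abs_of_pos hq0, ← abs_mul, abs_of_pos hq0, abs_le]
    constructor <;> nlinarith
  have h4 : (q 0 : ℝ) ^ (-τ) = (q 0 : ℝ) * (q 0 : ℝ) ^ (-(1 + τ)) := by
    rw [mul_comm, ← Real.rpow_add_one hq0.ne']
    congr 1
    ring
  rw [h4] at h3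
  have h5 : |α i - β i| ≤ 2 * (q 0 : ℝ) ^ (-(1 + τ)) := by
    by_contra h
    push Not at h
    have := mul_lt_mul_of_pos_left h hq0
    linarith
  refine h5.trans ?_
  have h6 : (q 0 : ℝ) ^ (-(1 + τ)) ≤ (n : ℝ) ^ (-(1 + τ)) :=
    Real.rpow_le_rpow_of_nonpos (by linarith) hq1 (by linarith)
  linarith

/-- the upper limit of finite families of small sets -/
lemma limsup_null {X Q : Type*} [EMetricSpace X] [MeasurableSpace X] [BorelSpace X] (E : Set X) (I : ℕ → Finset Q)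
    (t : Q → Set X) {a b C D s : ℝ} (hb : 0 < b) (hC : 0 ≤ C) (hD : 0 < D) (ha : 0 ≤ a) (hs : a < s * b)
    (hI : ∀ j, ((I j).card : ℝ) ≤ C * ((2 : ℝ) ^ j) ^ a)
    (ht : ∀ j, ∀ q ∈ I j, Metric.ediam (t q) ≤ ENNReal.ofReal (D * ((2 : ℝ) ^ j) ^ (-b)))
    (hE : ∀ x ∈ E, ∀ N : ℕ, ∃ j, N ≤ j ∧ ∃ q ∈ I j, x ∈ t q) : μH[s] E = 0 := by
  classical
  have hs0 : 0 < s := by
    by_contra h
    push Not at h
    nlinarith
  obtain ⟨ρ, hρ⟩ : ∃ ρ : ℝ, ρ = (2 : ℝ) ^ (a - s * b) := ⟨_, rfl⟩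
  have hρ0 : 0 < ρ := by rw [hρ]; positivity
  have hρ1 : ρ < 1 := by
    rw [hρ]
    exact Real.rpow_lt_one_of_one_lt_of_neg (by norm_num) (by linarith)
  have hpow : ∀ (j : ℕ) (x : ℝ), ((2 : ℝ) ^ j) ^ x = ((2 : ℝ) ^ x) ^ j := by
    intro j x
    rw [← Real.rpow_natCast, ← Real.rpow_natCast, ← Real.rpow_mul (by norm_num), ← Real.rpow_mul (by norm_num), mul_comm]
  have hb1 : (2 : ℝ) ^ (-b) < 1 := Real.rpow_lt_one_of_one_lt_of_neg (by norm_num) (by linarith)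
  have hb0 : (0 : ℝ) < (2 : ℝ) ^ (-b) := by positivity
  have hr : Tendsto (fun N : ℕ => ENNReal.ofReal (D * ((2 : ℝ) ^ N) ^ (-b))) atTop (𝓝 0) := by
    rw [← ENNReal.ofReal_zero]
    apply ENNReal.tendsto_ofReal
    have h1 : Tendsto (fun N : ℕ => D * ((2 : ℝ) ^ (-b)) ^ N) atTop (𝓝 (D * 0)) :=
      (tendsto_pow_atTop_nhds_zero_of_lt_one hb0.le hb1).const_mul D
    rw [mul_zero] at h1
    refine h1.congr (fun N => ?_)
    rw [hpow]
  have hmain := Measure.hausdorffMeasure_le_liminf_tsum (β := ℕ) (ι := fun N => Σ j : ℕ, {q // q ∈ I (N + j)}) s E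
    (l := atTop) (fun N : ℕ => ENNReal.ofReal (D * ((2 : ℝ) ^ N) ^ (-b))) hr (fun N x => t x.2.1)
    (Eventually.of_forall (fun N x => by
      refine (ht _ _ x.2.2).trans (ENNReal.ofReal_le_ofReal ?_)
      refine mul_le_mul_of_nonneg_left ?_ hD.le
      rw [hpow, hpow]
      exact pow_le_pow_of_le_one hb0.le hb1.le (Nat.le_add_right _ _)))
    (Eventually.of_forall (fun N x hx => by
      obtain ⟨j, hj, q, hq, hxq⟩ := hE x hx N
      obtain ⟨i, rfl⟩ := Nat.exists_eq_add_of_le hj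
      exact Set.mem_iUnion.2 ⟨⟨i, q, hq⟩, hxq⟩))
  have hbound : ∀ N : ℕ, ∑' x : (Σ j : ℕ, {q // q ∈ I (N + j)}), Metric.ediam (t x.2.1) ^ s ≤
      ENNReal.ofReal (C * D ^ s * (1 - ρ)⁻¹ * ρ ^ N) := by
    intro N
    rw [ENNReal.tsum_sigma']
    have h1 : ∀ j : ℕ, ∑' x : {q // q ∈ I (N + j)}, Metric.ediam (t x.1) ^ s ≤ ENNReal.ofReal (C * D ^ s * ρ ^ N * ρ ^ j) := by
      intro j
      have h2 : ∑' x : {q // q ∈ I (N + j)}, Metric.ediam (t x.1) ^ s = ∑ q ∈ I (N + j), Metric.ediam (t q) ^ s :=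
        Finset.tsum_subtype (I (N + j)) (fun q => Metric.ediam (t q) ^ s)
      rw [h2]
      have h3 : ∑ q ∈ I (N + j), Metric.ediam (t q) ^ s ≤
          (I (N + j)).card • ENNReal.ofReal ((D * ((2 : ℝ) ^ (N + j)) ^ (-b)) ^ s) := by
        apply Finset.sum_le_card_nsmul
        intro q hq
        rw [← ENNReal.ofReal_rpow_of_nonneg (by positivity) hs0.le]
        exact ENNReal.rpow_le_rpow (ht _ _ hq) hs0.le
      refine h3.trans ?_
      rw [nsmul_eq_mul, ← ENNReal.ofReal_natCast, ← ENNReal.ofReal_mul (Nat.cast_nonneg _)]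
      apply ENNReal.ofReal_le_ofReal
      have h4 : (D * ((2 : ℝ) ^ (N + j)) ^ (-b)) ^ s = D ^ s * ((2 : ℝ) ^ (N + j)) ^ (-(s * b)) := by
        rw [Real.mul_rpow hD.le (by positivity), ← Real.rpow_mul (by positivity)]
        congr 2
        ring
      rw [h4]
      calc ((I (N + j)).card : ℝ) * (D ^ s * ((2 : ℝ) ^ (N + j)) ^ (-(s * b)))
          ≤ (C * ((2 : ℝ) ^ (N + j)) ^ a) * (D ^ s * ((2 : ℝ) ^ (N + j)) ^ (-(s * b))) :=
            mul_le_mul_of_nonneg_right (hI _) (by positivity)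
        _ = C * D ^ s * (((2 : ℝ) ^ (N + j)) ^ a * ((2 : ℝ) ^ (N + j)) ^ (-(s * b))) := by ring
        _ = C * D ^ s * ρ ^ (N + j) := by
            rw [← Real.rpow_add (by positivity), hρ, hpow, sub_eq_add_neg]
        _ = C * D ^ s * ρ ^ N * ρ ^ j := by rw [pow_add]; ring
        _ ≤ _ := le_rfl
    refine (ENNReal.tsum_le_tsum h1).trans ?_
    rw [← ENNReal.ofReal_tsum_of_nonneg (fun j => by positivity)
      ((summable_geometric_of_lt_one hρ0.le hρ1).mul_left _), tsum_mul_left, tsum_geometric_of_lt_one hρ0.le hρ1]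
    apply ENNReal.ofReal_le_ofReal
    apply le_of_eq
    ring
  have hlim : Tendsto (fun N : ℕ => ENNReal.ofReal (C * D ^ s * (1 - ρ)⁻¹ * ρ ^ N)) atTop (𝓝 0) := by
    rw [← ENNReal.ofReal_zero]
    apply ENNReal.tendsto_ofReal
    have h1 := (tendsto_pow_atTop_nhds_zero_of_lt_one hρ0.le hρ1).const_mul (C * D ^ s * (1 - ρ)⁻¹)
    rw [mul_zero] at h1
    exact h1
  have h5 : liminf (fun N : ℕ => ∑' x : (Σ j : ℕ, {q // q ∈ I (N + j)}), Metric.ediam (t x.2.1) ^ s) atTop ≤ 0 := by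
    rw [← hlim.liminf_eq]
    exact liminf_le_liminf (Eventually.of_forall hbound)
  exact le_antisymm (hmain.trans h5) (zero_le)

lemma limsup_dim {X Q : Type*} [EMetricSpace X] [MeasurableSpace X] [BorelSpace X] (E : Set X) (I : ℕ → Finset Q)
    (t : Q → Set X) {a b C D : ℝ} (hb : 0 < b) (hC : 0 ≤ C) (hD : 0 < D) (ha : 0 ≤ a)
    (hI : ∀ j, ((I j).card : ℝ) ≤ C * ((2 : ℝ) ^ j) ^ a)
    (ht : ∀ j, ∀ q ∈ I j, Metric.ediam (t q) ≤ ENNReal.ofReal (D * ((2 : ℝ) ^ j) ^ (-b)))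
    (hE : ∀ x ∈ E, ∀ N : ℕ, ∃ j, N ≤ j ∧ ∃ q ∈ I j, x ∈ t q) : dimH E ≤ ENNReal.ofReal (a / b) := by
  apply dimH_le
  intro s hs
  by_contra hcon
  rw [not_le, ← ENNReal.ofReal_coe_nnreal, ENNReal.ofReal_lt_ofReal_iff_of_nonneg (by positivity)] at hcon
  have h := limsup_null E I t (s := (s : ℝ)) hb hC hD ha (by
    rwa [div_lt_iff₀ hb] at hcon) hI ht hE
  rw [h] at hs
  exact ENNReal.zero_ne_top hs

/-- the `α` which are approximated by infinitely many vectors `q` with `P(q)` close to `S` -/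
def Exc {d : ℕ} (S : Set ℝ) (w τ : ℝ) (γ : Fin d → ℝ) (P : MvPolynomial (Fin (d + 1)) ℤ) : Set (Fin d → ℝ) :=
  {α | ∀ N : ℕ, ∃ q : Fin (d + 1) → ℤ, (N : ℤ) ≤ q 0 ∧ α ∈ pts τ γ q ∧
    ∃ s ∈ S, |s - (MvPolynomial.eval q P : ℤ)| ≤ 2 * ((q 0 : ℤ) : ℝ) ^ w}

/-- the size of the approximating vectors -/
lemma size {d : ℕ} {τ : ℝ} (hτ : 0 ≤ τ) {α γ : Fin d → ℝ} {A G : ℕ} (hA : ∀ i, |α i| ≤ A) (hG : ∀ i, |γ i| ≤ G)
    {q : Fin (d + 1) → ℤ} (hq : α ∈ pts τ γ q) (h1 : 1 ≤ q 0) (i : Fin (d + 1)) :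
    |(q i : ℝ)| ≤ ((A + G + 1 : ℕ) : ℝ) * q 0 := by
  have hA0 : (0 : ℝ) ≤ A := Nat.cast_nonneg _
  have hG0 : (0 : ℝ) ≤ G := Nat.cast_nonneg _
  have hk1 : (1 : ℝ) ≤ q 0 := by exact_mod_cast h1
  rcases Fin.eq_zero_or_eq_succ i with h | ⟨i', h⟩
  · rw [h, abs_of_nonneg (by linarith)]
    push_cast
    nlinarith
  · have h6 := hq i'
    have h7 : ((q 0 : ℤ) : ℝ) ^ (-τ) ≤ 1 := Real.rpow_le_one_of_one_le_of_nonpos hk1 (by linarith)
    have h8 := abs_le.1 (h6.trans h7)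
    have h9 := abs_le.1 (hA i')
    have h10 := abs_le.1 (hG i')
    have h11 : (q 0 : ℝ) * α i' ≤ q 0 * A := mul_le_mul_of_nonneg_left h9.2 (by positivity)
    have h12 : (q 0 : ℝ) * (-A) ≤ q 0 * α i' := mul_le_mul_of_nonneg_left h9.1 (by positivity)
    have h14 : (G : ℝ) ≤ G * q 0 := by nlinarith
    rw [h, abs_le]
    push_cast
    constructor <;> nlinarith

theorem dim_exc {d : ℕ} {S : Set ℝ} {e w τ l ε : ℝ} (hS : Few S e) (he : 0 ≤ e) (hw : 0 ≤ w) (hτ : 0 ≤ τ) (hε : 0 < ε)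
    (γ : Fin d → ℝ) (P : MvPolynomial (Fin (d + 1)) ℤ) {D : ℕ} (hD : P.totalDegree ≤ D) (hP : Lev P l) :
    dimH (Exc S w τ γ P) ≤ ENNReal.ofReal ((d + 1 - l + e * D + w + ε) / (1 + τ)) := by
  classical
  have hcov : Exc S w τ γ P ⊆ ⋃ A : ℕ, {α | α ∈ Exc S w τ γ P ∧ ∀ i, |α i| ≤ A} := by
    intro α hα
    obtain ⟨A, hA⟩ := exists_nat_ge (∑ i, |α i|)
    refine Set.mem_iUnion.2 ⟨A, hα, fun i => ?_⟩
    exact (Finset.single_le_sum (fun i _ => abs_nonneg (α i)) (mem_univ i)).trans hA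
  refine (dimH_mono hcov).trans ?_
  rw [dimH_iUnion]
  refine iSup_le (fun A => ?_)
  obtain ⟨G, hG⟩ := exists_nat_ge (∑ i, |γ i|)
  have hG' : ∀ i, |γ i| ≤ G := fun i =>
    (Finset.single_le_sum (fun i _ => abs_nonneg (γ i)) (mem_univ i)).trans hG
  obtain ⟨R, hR⟩ : ∃ R : ℕ, R = 2 * (A + G + 1) := ⟨_, rfl⟩
  have hl := hP.1
  push_cast at hl
  obtain ⟨C, hC, hV⟩ := vectors (w := w) hS he hw hε P hD hP R (by omega)
  refine limsup_dim (a := d + 1 - l + e * D + w + ε) (b := 1 + τ) (C := C) (D := 2) _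
    (fun j => (SBox (d + 1) (R * 2 ^ j)).filter
      (fun q => ((2 ^ j : ℕ) : ℤ) ≤ q 0 ∧ ∃ s ∈ S, |s - (MvPolynomial.eval q P : ℤ)| ≤ 2 * ((R * 2 ^ j : ℕ) : ℝ) ^ w))
    (fun q => pts τ γ q) (by linarith) hC (by norm_num) (by
      have : 0 ≤ e * D := by positivity
      linarith) ?_ ?_ ?_
  · intro j
    have := hV (2 ^ j) Nat.one_le_two_pow ((SBox (d + 1) (R * 2 ^ j)).filter
      (fun q => ((2 ^ j : ℕ) : ℤ) ≤ q 0 ∧ ∃ s ∈ S, |s - (MvPolynomial.eval q P : ℤ)| ≤ 2 * ((R * 2 ^ j : ℕ) : ℝ) ^ w)) (by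
        intro q hq
        rw [mem_filter, mem_SBox] at hq
        exact ⟨hq.1, hq.2.2⟩)
    have e1 : (((d + 1 : ℕ) : ℝ) - l + e * D + w + ε) = (d + 1 - l + e * D + w + ε) := by push_cast; ring
    have e2 : (((2 ^ j : ℕ) : ℕ) : ℝ) = (2 : ℝ) ^ j := by push_cast; ring
    rw [e1, e2] at this
    exact this
  · intro j q hq
    rw [mem_filter] at hq
    have := diam_pts hτ γ q (2 ^ j) Nat.one_le_two_pow hq.2.1
    push_cast at this
    exact this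
  · rintro α ⟨hα, hA⟩ N
    obtain ⟨q, h1, h2, s, hs, h3⟩ := hα (2 ^ N)
    obtain ⟨k, hk⟩ : ∃ k : ℕ, (k : ℤ) = q 0 := ⟨(q 0).toNat, Int.toNat_of_nonneg (le_trans (by positivity) h1)⟩
    rw [← hk] at h1
    have h1' : 2 ^ N ≤ k := by exact_mod_cast h1
    have hk0 : k ≠ 0 := by
      have : 1 ≤ 2 ^ N := Nat.one_le_two_pow
      omega
    have h4 : 2 ^ (Nat.log 2 k) ≤ k := Nat.pow_log_le_self 2 hk0
    have h5 : k < 2 ^ (Nat.log 2 k + 1) := Nat.lt_pow_succ_log_self (by norm_num) k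
    refine ⟨Nat.log 2 k, Nat.le_log_of_pow_le (by norm_num) h1', q, ?_, h2⟩
    obtain ⟨n, hn⟩ : ∃ n, n = 2 ^ (Nat.log 2 k) := ⟨_, rfl⟩
    rw [pow_succ] at h5
    rw [← hn] at h4 h5 ⊢
    have hsz := size hτ hA hG' h2 (by rw [← hk]; exact_mod_cast Nat.one_le_iff_ne_zero.2 hk0)
    rw [← hk] at hsz
    rw [mem_filter, mem_SBox]
    have hkR : (k : ℝ) ≤ 2 * n := by
      have : k ≤ n * 2 := h5.le
      have : (k : ℝ) ≤ n * 2 := by exact_mod_cast this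
      linarith
    refine ⟨?_, by rw [← hk]; exact_mod_cast h4, s, hs, h3.trans ?_⟩
    · intro i
      have h6 : |(q i : ℝ)| ≤ ((R * n : ℕ) : ℝ) := by
        refine (hsz i).trans ?_
        rw [hR]
        push_cast
        have : (0 : ℝ) ≤ A + G + 1 := by positivity
        nlinarith
      exact_mod_cast h6
    · refine mul_le_mul_of_nonneg_left ?_ (by norm_num)
      rw [← hk]
      refine Real.rpow_le_rpow (by positivity) ?_ hw
      push_cast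
      have hR2 : (2 : ℝ) ≤ R := by
        rw [hR]
        push_cast
        have : (0 : ℝ) ≤ A + G := by positivity
        linarith
      have : (0 : ℝ) ≤ n := Nat.cast_nonneg _
      nlinarith

lemma countable_poly (r : ℕ) : Countable (MvPolynomial (Fin r) ℤ) := by
  have : Cardinal.mk (MvPolynomial (Fin r) ℤ) ≤ Cardinal.aleph0 := by
    refine (MvPolynomial.cardinalMk_le_max).trans ?_
    simp
  exact Cardinal.mk_le_aleph0_iff.1 this

/-- all the polynomials at once -/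
theorem dim_polys {d : ℕ} {S : Set ℝ} {e w τ l ε : ℝ} (hS : Few S e) (he : 0 ≤ e) (hw : 0 ≤ w) (hτ : 0 ≤ τ) (hε : 0 < ε)
    (γ : Fin d → ℝ) (D : ℕ) :
    ∃ E : Set (Fin d → ℝ), dimH E ≤ ENNReal.ofReal ((d + 1 - l + e * D + w + ε) / (1 + τ)) ∧
      ∀ α, α ∉ E → ∀ P : MvPolynomial (Fin (d + 1)) ℤ, P.totalDegree ≤ D → Lev P l → ∀ᶠ k : ℕ in atTop, ∀ p : Fin d → ℤ,
        (∀ i, |(k : ℝ) * α i - γ i - p i| ≤ (k : ℝ) ^ (-τ)) →
          ∀ s ∈ S, ¬ |s - (MvPolynomial.eval (Fin.cons (k : ℤ) p : Fin (d + 1) → ℤ) P : ℤ)| ≤ 2 * (k : ℝ) ^ w := by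
  classical
  have := countable_poly (d + 1)
  refine ⟨⋃ P : {P : MvPolynomial (Fin (d + 1)) ℤ // P.totalDegree ≤ D ∧ Lev P l}, Exc S w τ γ P.1, ?_, ?_⟩
  · rw [dimH_iUnion]
    exact iSup_le (fun P => dim_exc hS he hw hτ hε γ P.1 P.2.1 P.2.2)
  · intro α hα P hD hP
    rw [Set.mem_iUnion, not_exists] at hα
    have h := hα ⟨P, hD, hP⟩
    unfold Exc at h
    simp only [Set.mem_ofPred_eq, not_forall, not_exists, not_and] at h
    obtain ⟨N, hN⟩ := h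
    rw [eventually_atTop]
    refine ⟨N, fun k hk p hp s hs hle => ?_⟩
    refine hN (Fin.cons (k : ℤ) p) (by simpa using hk) ?_ s hs ?_
    · intro i
      have := hp i
      simpa using this
    · simpa using hle

/-- sets of dimension `< d` are null sets -/
lemma null_of_dim {d : ℕ} (hd : 1 ≤ d) {E : Set (Fin d → ℝ)} {x : ℝ} (hE : dimH E ≤ ENNReal.ofReal x) (hx : x < d) :
    volume E = 0 := by
  have h1 : dimH E < ((d : ℝ≥0) : ℝ≥0∞) := by
    refine lt_of_le_of_lt hE ?_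
    have e1 : ((d : ℝ≥0) : ℝ≥0∞) = ENNReal.ofReal (d : ℝ) := by
      rw [ENNReal.ofReal_natCast]
      simp
    rw [e1]
    have hd0 : (0 : ℝ) < d := by exact_mod_cast hd
    rw [ENNReal.ofReal_lt_ofReal_iff hd0]
    exact hx
  have h2 := hausdorffMeasure_of_dimH_lt h1
  have h3 : (μH[(d : ℝ)] : Measure (Fin d → ℝ)) = volume := by
    have := hausdorffMeasure_pi_real (ι := Fin d)
    rwa [Fintype.card_fin] at this
  rw [← h3]
  exact_mod_cast h2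

end Pool.Agent.U513.AP
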