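import Pool.Agent.U766.OP.Core

/-!
# From the absence of poor points to primes and gaps

(The lemmas of helper821 in `Pool/Agent/S821/PoorLaw`, repeated here without the other imports of that file.)
-/

set_option autoImplicit false

open Finset Filter

namespace Pool.Agent.U513.AP

open Pool.Agent.Q240.KS (pic)
open Pool.Agent.U766.OP (Poor exists_poor)

lemma ev (A B : ℝ) {r s : ℝ} (h : r < s) (hs : 0 < s) : ∀ᶠ x : ℝ in atTop, A * x ^ r + B ≤ x ^ s := by
  have t1 : Tendsto (fun x : ℝ => x ^ (s - r)) atTop atTop := tendsto_rpow_atTop (by linarith)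
  have t2 : Tendsto (fun x : ℝ => x ^ s) atTop atTop := tendsto_rpow_atTop hs
  filter_upwards [t1.eventually_ge_atTop (2 * A), t2.eventually_ge_atTop (2 * B), eventually_gt_atTop 0] with x h1 h2 h3
  have h4 : x ^ s = x ^ (s - r) * x ^ r := by
    rw [← Real.rpow_add h3]
    congr 1
    ring
  have h5 : 0 < x ^ r := Real.rpow_pos_of_pos h3 _
  nlinarith



/-- Every interval `(a, a + H]` of length `H ≥ a ^ θ` in `[x - x ^ ρ, x + x ^ ρ]` contains at least `c H / log a` primes. -/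
def Dense (c θ ρ x : ℝ) : Prop := ∀ a H : ℕ, |(a : ℝ) - x| ≤ x ^ ρ → |((a : ℝ) + H) - x| ≤ x ^ ρ → (a : ℝ) ^ θ ≤ H →
  c * H / Real.log a ≤ (((Finset.Ioc a (a + H)).filter Nat.Prime).card : ℝ)

/-- All consecutive primes `p < q` with `[p, q]` meeting `[x - x ^ ρ, x + x ^ ρ]` satisfy `q - p ≤ p ^ θ`. -/
def Small (θ ρ x : ℝ) : Prop := ∀ p q : ℕ, p.Prime → q.Prime → p < q → (∀ r : ℕ, p < r → r < q → ¬ r.Prime) →
  (p : ℝ) ≤ x + x ^ ρ → x - x ^ ρ ≤ q → (q : ℝ) - p ≤ (p : ℝ) ^ θ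

lemma pic_nat (a H : ℕ) : pic (a : ℝ) (H : ℝ) = ((Finset.Ioc a (a + H)).filter Nat.Prime).card := by
  unfold pic
  rw [Nat.floor_natCast, show (a : ℝ) + (H : ℝ) = ((a + H : ℕ) : ℝ) by push_cast; ring, Nat.floor_natCast]

/-- from the absence of poor points to primes and gaps -/
theorem dense_small {c θ' θ ρ : ℝ} (hc : 0 < c) (hθ' : 0 < θ') (hθ : θ' < θ) (hθ1 : θ < 1) (hθρ : θ' < ρ)
    (hρ1 : ρ < 1) :
    ∃ x₀ : ℝ, ∀ x : ℝ, x₀ ≤ x → (∀ y : ℝ, 2 ≤ y → |y - x| ≤ 2 * x ^ ρ → ¬ Poor c θ' y) →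
      Dense (c / 16) θ ρ x ∧ Small θ ρ x := by
  have hρ0 : 0 < ρ := by linarith
  have t2 : Tendsto (fun x : ℝ => x / 2) atTop atTop := tendsto_id.atTop_div_const (by norm_num)
  have hev := ((ev 12 0 hρ1 one_pos).and ((ev 32 12 hθ (by linarith)).and ((ev 12 6 (by linarith : θ' < 1) one_pos).and
    ((ev 4 1 hθρ hρ0).and ((t2.eventually (ev 4 0 hθ (by linarith))).and (eventually_ge_atTop 32))))))
  obtain ⟨x₀, hx₀⟩ := eventually_atTop.1 hev
  -- the fifth condition for all larger numbers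
  obtain ⟨x₁, hx₁⟩ := eventually_atTop.1 (ev 4 0 hθ (by linarith))
  refine ⟨max x₀ (2 * x₁), fun x hx hno => ?_⟩
  obtain ⟨e1, e2, e3, e4, -, e6⟩ := hx₀ x ((le_max_left _ _).trans hx)
  have e5 : ∀ a : ℝ, x / 2 ≤ a → 4 * a ^ θ' + 0 ≤ a ^ θ := by
    intro a ha
    apply hx₁
    have := (le_max_right x₀ (2 * x₁)).trans hx
    linarith
  rw [Real.rpow_one, add_zero] at e1
  rw [Real.rpow_one] at e3
  have hx0 : 0 < x := by linarith
  have hxρ : 0 < x ^ ρ := Real.rpow_pos_of_pos hx0 _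
  have hxθ : 0 < x ^ θ' := Real.rpow_pos_of_pos hx0 _
  have h4t : (4 : ℝ) ^ θ' ≤ 4 := by
    calc (4 : ℝ) ^ θ' ≤ 4 ^ (1 : ℝ) := Real.rpow_le_rpow_of_exponent_le (by norm_num) (by linarith)
      _ = 4 := Real.rpow_one 4
  constructor
  · intro a H ha haH hH
    by_contra hcon
    push Not at hcon
    have ha1 := abs_le.1 ha
    have ha2 := abs_le.1 haH
    have hax : x / 2 ≤ a := by linarith
    have ha16 : (16 : ℝ) ≤ a := by linarith
    have h1 : (4 * (a : ℝ)) ^ θ' ≤ H := by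
      rw [Real.mul_rpow (by norm_num) (by linarith)]
      have h2 := e5 a hax
      have h3 : 0 ≤ (a : ℝ) ^ θ' := Real.rpow_nonneg (by linarith) _
      nlinarith
    obtain ⟨y, hy1, hy2, hy3⟩ := exists_poor (c := c) (θ := θ') hc hθ' (by linarith) (x := (a : ℝ)) (a := a) (H := H)
      (by linarith) le_rfl (by linarith) h1 (by rw [pic_nat]; exact hcon)
    have hyθ : 0 ≤ y ^ θ' := Real.rpow_nonneg (by linarith) _
    refine hno y (by linarith) ?_ hy3
    rw [abs_le]
    constructor <;> linarith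
  · intro p q hp hq hpq hcons hpx hqx
    by_contra hcon
    push Not at hcon
    obtain ⟨L, hL⟩ : ∃ L : ℝ, L = (4 * x) ^ θ' := ⟨_, rfl⟩
    have hL4 : L ≤ 4 * x ^ θ' := by
      rw [hL, Real.mul_rpow (by norm_num) hx0.le]
      exact mul_le_mul_of_nonneg_right h4t hxθ.le
    have hL0 : 0 < L := by rw [hL]; positivity
    have hp0 : (0 : ℝ) ≤ p := Nat.cast_nonneg _
    have hbig : 2 * L + 2 < (q : ℝ) - p := by
      rcases le_total (x / 4) p with h | h
      · have h1 : (x / 4) ^ θ ≤ (p : ℝ) ^ θ := Real.rpow_le_rpow (by positivity) h (by linarith)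
        have h2 : x ^ θ / 4 ≤ (x / 4) ^ θ := by
          rw [Real.div_rpow hx0.le (by norm_num)]
          have h4 : (4 : ℝ) ^ θ ≤ 4 := by
            calc (4 : ℝ) ^ θ ≤ 4 ^ (1 : ℝ) := Real.rpow_le_rpow_of_exponent_le (by norm_num) hθ1.le
              _ = 4 := Real.rpow_one 4
          exact div_le_div_of_nonneg_left (Real.rpow_nonneg hx0.le _) (by positivity) h4
        linarith
      · linarith
    -- a point of the gap near `x`
    have hpq' : (p : ℝ) ≤ q := by exact_mod_cast hpq.le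
    have hpoor : ∀ y : ℝ, 2 ≤ y → (p : ℝ) ≤ y → y ≤ 4 * x → y + L < q → Poor c θ' y := by
      intro y hy2 hyp hyx hyq
      unfold Poor pic
      have h1 : ((Finset.Ioc ⌊y⌋₊ ⌊y + y ^ θ'⌋₊).filter Nat.Prime) = ∅ := by
        rw [Finset.filter_eq_empty_iff]
        intro r hr
        rw [Finset.mem_Ioc] at hr
        apply hcons
        · exact lt_of_le_of_lt (Nat.le_floor hyp) hr.1
        · have h2 : y ^ θ' ≤ L := by
            rw [hL]
            exact Real.rpow_le_rpow (by linarith) hyx hθ'.le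
          have h3 : (r : ℝ) ≤ y + y ^ θ' := by
            have := (Nat.le_floor_iff (by positivity)).1 hr.2
            exact this
          have h4 : (r : ℝ) < q := by linarith
          exact_mod_cast h4
      rw [h1, Finset.card_empty, Nat.cast_zero]
      have h5 : 0 < Real.log y := Real.log_pos (by linarith)
      have h6 : 0 < y ^ θ' := Real.rpow_pos_of_pos (by linarith) _
      positivity
    obtain ⟨z, hz⟩ : ∃ z : ℝ, z = max (p : ℝ) (x - x ^ ρ) := ⟨_, rfl⟩
    have hz1 : (p : ℝ) ≤ z := by rw [hz]; exact le_max_left _ _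
    have hz2 : x - x ^ ρ ≤ z := by rw [hz]; exact le_max_right _ _
    have hz3 : z ≤ x + x ^ ρ := by rw [hz]; exact max_le hpx (by linarith)
    have hz4 : z ≤ q := by rw [hz]; exact max_le hpq' hqx
    rcases lt_or_ge (z + L) q with h | h
    · refine hno z (by linarith) ?_ (hpoor z (by linarith) hz1 (by linarith) h)
      rw [abs_le]
      constructor <;> linarith
    · have hL5 : L + 1 ≤ x ^ ρ := by linarith
      refine hno (q - L - 1) (by linarith) ?_ (hpoor (q - L - 1) (by linarith) (by linarith) (by linarith) (by linarith))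
      rw [abs_le]
      constructor <;> linarith

theorem Dense.mono {c c' θ θ' ρ x : ℝ} (h : Dense c θ ρ x) (hc : c' ≤ c) (hθ : θ ≤ θ') : Dense c' θ' ρ x := by
  intro a H h1 h2 h3
  rcases Nat.eq_zero_or_pos a with h0 | h0
  · rw [h0, Nat.cast_zero, Real.log_zero, div_zero]
    exact Nat.cast_nonneg _
  · have ha : (1 : ℝ) ≤ a := by exact_mod_cast h0
    refine le_trans ?_ (h a H h1 h2 ((Real.rpow_le_rpow_of_exponent_le ha hθ).trans h3))
    have h4 : 0 ≤ Real.log a := Real.log_nonneg ha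
    gcongr

theorem Small.mono {θ θ' ρ x : ℝ} (h : Small θ ρ x) (hθ : θ ≤ θ') : Small θ' ρ x := by
  intro p q h1 h2 h3 h4 h5 h6
  have hp : (1 : ℝ) ≤ p := by exact_mod_cast h1.one_lt.le
  exact (h p q h1 h2 h3 h4 h5 h6).trans (Real.rpow_le_rpow_of_exponent_le hp hθ)

/-- Andrica's difference -/
theorem andrica {θ ρ x : ℝ} (h : Small θ ρ x) (p q : ℕ) (hp : p.Prime) (hq : q.Prime) (hpq : p < q)
    (hc : ∀ r : ℕ, p < r → r < q → ¬ r.Prime) (h1 : (p : ℝ) ≤ x + x ^ ρ) (h2 : x - x ^ ρ ≤ q) :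
    Real.sqrt q - Real.sqrt p < (p : ℝ) ^ (θ - 1 / 2) := by
  have h3 := h p q hp hq hpq hc h1 h2
  have hp0 : (0 : ℝ) < p := by exact_mod_cast hp.pos
  have hpq' : (p : ℝ) < q := by exact_mod_cast hpq
  have hsp : 0 < Real.sqrt p := Real.sqrt_pos.2 hp0
  have hsq : Real.sqrt p < Real.sqrt q := Real.sqrt_lt_sqrt hp0.le hpq'
  have h4 : (Real.sqrt q - Real.sqrt p) * (Real.sqrt q + Real.sqrt p) = q - p := by
    have e1 := Real.mul_self_sqrt hp0.le
    have e2 := Real.mul_self_sqrt (hp0.trans hpq').le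
    nlinarith
  have h5 : (p : ℝ) ^ θ = (p : ℝ) ^ (θ - 1 / 2) * Real.sqrt p := by
    rw [Real.sqrt_eq_rpow, ← Real.rpow_add hp0]
    congr 1
    ring
  have h6 : 0 < (p : ℝ) ^ (θ - 1 / 2) := Real.rpow_pos_of_pos hp0 _
  by_contra hcon
  push Not at hcon
  have h7 : (p : ℝ) ^ (θ - 1 / 2) * (Real.sqrt q + Real.sqrt p) ≤ q - p := by
    rw [← h4]
    exact mul_le_mul_of_nonneg_right hcon (by linarith)
  nlinarith

end Pool.Agent.U513.AP
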