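import Pool.Agent.U513.AP.Laws
import Pool.Agent.U513.AP.Dense
import Pool.Agent.S821.PowIdx
import Pool.Agent.Q278.KT.Fin

/-!
# Primes near squares, and short intervals, at simultaneous approximations
-/

set_option autoImplicit false

open Finset Filter MeasureTheory Topology
open scoped ENNReal NNReal

namespace Pool.Agent.U513.AP

open Pool.Agent.Q240.KS (MAINP)
open Pool.Agent.U766.OP (Poor)
open Pool.Agent.S821.PowIdx (RichPow)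

/-- the conclusion of the laws: a set of exceptional points of dimension `≤ x / (1 + τ)` -/
def Concl (G : ℕ → Prop) (d D : ℕ) (τ w l : ℝ) (γ : Fin d → ℝ) (e δ : ℝ) : Prop :=
  ∃ E : Set (Fin d → ℝ), dimH E ≤ ENNReal.ofReal ((d + 1 - l + e * D + w - δ) / (1 + τ)) ∧
    (e * D + w + 1 ≤ l + d * τ → volume E = 0) ∧
    ∀ α, α ∉ E → ∀ P : MvPolynomial (Fin (d + 1)) ℤ, P.totalDegree ≤ D → Lev P l → ∀ᶠ k : ℕ in atTop, ∀ p : Fin d → ℤ,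
      (∀ i, |(k : ℝ) * α i - γ i - p i| ≤ (k : ℝ) ^ (-τ)) → ∀ m : ℕ, 1 ≤ m →
        |(m : ℝ) - (MvPolynomial.eval (Fin.cons (k : ℤ) p : Fin (d + 1) → ℤ) P : ℤ)| ≤ (k : ℝ) ^ w → G m

/-- a smaller saving -/
lemma Concl.mono {G : ℕ → Prop} {d D : ℕ} {τ w l : ℝ} {γ : Fin d → ℝ} {e δ δ' : ℝ} (h : Concl G d D τ w l γ e δ)
    (hτ : 0 ≤ τ) (hδ : δ' ≤ δ) : Concl G d D τ w l γ e δ' := by
  obtain ⟨E, h1, h2, h3⟩ := h
  refine ⟨E, h1.trans (ENNReal.ofReal_le_ofReal ?_), h2, h3⟩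
  exact div_le_div_of_nonneg_right (by linarith) (by linarith)

/-- **Squares.** The numbers `g k = j k + i`. -/
theorem square_law : ∃ c δ : ℝ, 0 < c ∧ 0 < δ ∧ δ ≤ 0.0025 ∧ ∀ (G : ℕ → Prop) (j k1 : ℕ), 1 ≤ j →
    (∀ k : ℕ, k1 ≤ k → RichPow c (1 - δ) 2 3 (j * k) → G k) →
    ∀ (d D : ℕ) (τ w l : ℝ) (γ : Fin d → ℝ), 1 ≤ d → 1 ≤ D → 0 ≤ τ → 0 ≤ w → Concl G d D τ w l γ 0.612 (δ / 2) := by
  classical
  obtain ⟨c, δ, hc, hδ, hδ1, h⟩ := Pool.Agent.S821.PowIdx.bad_powers Pool.Agent.Q278.KT.mainp_half (by norm_num)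
    (by norm_num) (by norm_num) (by norm_num)
  obtain ⟨C, hC, hB⟩ := h 2 3 (by norm_num) (by norm_num) (by norm_num)
  have e : (2 : ℝ) * (1 - 1 / 2) - δ = 1 - δ := by ring
  rw [e] at hB
  refine ⟨c / 2, δ, by positivity, by positivity, by linarith, fun G j k1 hj hG d D τ w l γ hd hD hτ hw => ?_⟩
  have hj1 : (1 : ℝ) ≤ j := by exact_mod_cast hj
  refine nat_law (G := G) (e := 0.612) (δ0 := δ) (C := C * (j : ℝ) ^ (2 * 0.306 - δ) + k1) (by linarith) hδ ?_ hd hD hτ hw γ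
  intro X hX
  have hjX : 1 ≤ j * X := by nlinarith
  obtain ⟨q1, q2⟩ := hB (j * X) hjX
  obtain ⟨S, hS⟩ : ∃ S, S = {n : ℕ | n ∈ {n : ℕ | ¬ RichPow (c / 2) (1 - δ) 2 3 n} ∧ (n : ℝ) ≤ j * X} := ⟨_, rfl⟩
  rw [← hS] at q1 q2
  have hfin1 : {n : ℕ | n < k1}.Finite := Set.finite_Iio k1
  have hfin2 : ((fun n : ℕ => n / j) '' S).Finite := q1.image _
  have hs : {b : ℕ | b ∈ {b : ℕ | 1 ≤ b ∧ ¬ G b} ∧ (b : ℝ) ≤ X} ⊆ (fun n : ℕ => n / j) '' S ∪ {n : ℕ | n < k1} := by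
    rintro b ⟨hb1, hb2⟩
    by_cases hlt : b < k1
    · exact Or.inr hlt
    · left
      refine ⟨j * b, ?_, Nat.mul_div_cancel_left b (by omega)⟩
      rw [hS]
      refine ⟨fun hR => hb1.2 (hG b (not_lt.1 hlt) hR), ?_⟩
      push_cast
      exact mul_le_mul_of_nonneg_left hb2 (by linarith)
  refine ⟨(hfin2.union hfin1).subset hs, ?_⟩
  have h4 := ((Set.ncard_le_ncard hs (hfin2.union hfin1)).trans (Set.ncard_union_le _ _)).trans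
    (Nat.add_le_add_right (Set.ncard_image_le q1) _)
  have h5 : ({n : ℕ | n < k1}.ncard : ℝ) = k1 := by
    have : {n : ℕ | n < k1} = ((Finset.range k1 : Finset ℕ) : Set ℕ) := by
      ext n
      simp
    rw [this, Set.ncard_coe_finset, card_range]
  have h6 : (1 : ℝ) ≤ X ^ (0.612 - δ) := Real.one_le_rpow hX (by linarith)
  have e2 : (2 : ℝ) * 0.306 - δ = 0.612 - δ := by norm_num
  rw [e2] at q2 ⊢
  have h7 : (j * X) ^ (0.612 - δ) = (j : ℝ) ^ (0.612 - δ) * X ^ (0.612 - δ) := Real.mul_rpow (by linarith) (by linarith)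
  calc ({b : ℕ | b ∈ {b : ℕ | 1 ≤ b ∧ ¬ G b} ∧ (b : ℝ) ≤ X}.ncard : ℝ) ≤ (S.ncard : ℝ) + ({n : ℕ | n < k1}.ncard : ℝ) := by
        exact_mod_cast h4
    _ ≤ C * ((j : ℝ) ^ (0.612 - δ) * X ^ (0.612 - δ)) + k1 * X ^ (0.612 - δ) := by
        rw [h5, ← h7]
        exact add_le_add q2 (le_mul_of_one_le_right (Nat.cast_nonneg _) h6)
    _ = _ := by ring

/-- **Short intervals.** -/
theorem poor_law {lam0 e0 : ℝ} (hM : MAINP lam0 e0) (hl0 : 0.2 ≤ lam0) (hl1 : lam0 ≤ 0.9) (he0 : 0.01 ≤ e0)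
    (he1 : e0 ≤ 1) :
    ∃ c η : ℝ, 0 < c ∧ 0 < η ∧ η ≤ 0.01 ∧ ∀ (G : ℕ → Prop) (m1 : ℕ),
      (∀ m : ℕ, m1 ≤ m → (∀ y : ℝ, 2 ≤ y → |y - m| ≤ 2 * (m : ℝ) ^ (1 - lam0) → ¬ Poor c (1 - lam0 - η) y) → G m) →
      ∀ (d D : ℕ) (τ w l : ℝ) (γ : Fin d → ℝ), 1 ≤ d → 1 ≤ D → 0 ≤ τ → (1 - lam0) * D ≤ w →
        Concl G d D τ w l γ e0 (η / 4) := by
  classical
  obtain ⟨c, η, C, hc, hη, hη1, S, hS2, hSc, hSp⟩ := Pool.Agent.S821.Poor.clusters hM hl0 hl1 he0 he1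
  refine ⟨c, η, hc, hη, hη1, fun G m1 hG d D τ w l γ hd hD hτ hw => ?_⟩
  have hfew : Few (S ∪ ((fun j : ℕ => (j : ℝ)) '' {j : ℕ | j < m1})) (e0 - η / 2) :=
    few_union (by linarith) ⟨C, hSc⟩ m1
  have hκ : 0 < 1 - lam0 := by linarith
  have e1 : η / 2 / 2 = η / 4 := by ring
  rw [← e1]
  refine near_law (G := G) (e := e0) (δ0 := η / 2) (K := 8) (κ := 1 - lam0) (by linarith) (by positivity) hfew
    (by norm_num) hκ (by linarith) ?_ hd hD hτ hw γ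
  intro m hm hbad
  have hm1 : (1 : ℝ) ≤ m := by exact_mod_cast hm
  have hm0 : (0 : ℝ) < m := by linarith
  have hmκ : 1 ≤ (m : ℝ) ^ (1 - lam0) := Real.one_le_rpow hm1 hκ.le
  by_cases hlt : m < m1
  · refine ⟨(m : ℝ), Or.inr ⟨m, hlt, rfl⟩, ?_⟩
    rw [sub_self, abs_zero]
    positivity
  · have h1 : ∃ y : ℝ, 2 ≤ y ∧ |y - m| ≤ 2 * (m : ℝ) ^ (1 - lam0) ∧ Poor c (1 - lam0 - η) y := by
      by_contra hcon
      push Not at hcon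
      exact hbad (hG m (not_lt.1 hlt) hcon)
    obtain ⟨y, hy2, hym, hyp⟩ := h1
    obtain ⟨s, hs, hys⟩ := hSp y hy2 hyp
    refine ⟨s, Or.inl hs, ?_⟩
    have hmle : (m : ℝ) ^ (1 - lam0) ≤ m := by
      calc (m : ℝ) ^ (1 - lam0) ≤ (m : ℝ) ^ (1 : ℝ) := Real.rpow_le_rpow_of_exponent_le hm1 (by linarith)
        _ = m := Real.rpow_one _
    have hy3 : y ≤ 3 * m := by
      have := (abs_le.1 hym).2
      linarith
    have h3κ : (3 : ℝ) ^ (1 - lam0) ≤ 3 := by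
      calc (3 : ℝ) ^ (1 - lam0) ≤ 3 ^ (1 : ℝ) := Real.rpow_le_rpow_of_exponent_le (by norm_num) (by linarith)
        _ = 3 := Real.rpow_one 3
    have hyκ : y ^ (1 - lam0 - η) ≤ 3 * (m : ℝ) ^ (1 - lam0) := by
      calc y ^ (1 - lam0 - η) ≤ y ^ (1 - lam0) := Real.rpow_le_rpow_of_exponent_le (by linarith) (by linarith)
        _ ≤ (3 * m) ^ (1 - lam0) := Real.rpow_le_rpow (by linarith) hy3 hκ.le
        _ = 3 ^ (1 - lam0) * (m : ℝ) ^ (1 - lam0) := Real.mul_rpow (by norm_num) hm0.le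
        _ ≤ 3 * (m : ℝ) ^ (1 - lam0) := mul_le_mul_of_nonneg_right h3κ (by positivity)
    have h4 : |s - m| ≤ |y - s| + |y - m| := by
      have := abs_sub_le s y (m : ℝ)
      rwa [abs_sub_comm s y] at this
    linarith

/-- **Short intervals and gaps.** -/
theorem scale_law {lam0 e0 : ℝ} (hM : MAINP lam0 e0) (hl0 : 0.1 < lam0) (hl0' : 0.2 ≤ lam0) (hl1 : lam0 ≤ 0.9)
    (he0 : 0.01 ≤ e0) (he1 : e0 ≤ 1) :
    ∃ c δ : ℝ, 0 < c ∧ 0 < δ ∧ δ ≤ 0.005 ∧ ∀ (G : ℕ → Prop) (m1 : ℕ),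
      (∀ m : ℕ, m1 ≤ m → Dense c (1 - lam0 - δ) (1 - lam0) m ∧ Small (1 - lam0 - δ) (1 - lam0) m → G m) →
      ∀ (d D : ℕ) (τ w l : ℝ) (γ : Fin d → ℝ), 1 ≤ d → 1 ≤ D → 0 ≤ τ → (1 - lam0) * D ≤ w →
        Concl G d D τ w l γ e0 (δ / 2) := by
  obtain ⟨c, η, hc, hη, hη1, h⟩ := poor_law hM hl0' hl1 he0 he1
  obtain ⟨x₀, hx₀⟩ := dense_small (c := c) (θ' := 1 - lam0 - η) (θ := 1 - lam0 - η / 2) (ρ := 1 - lam0) hc
    (by linarith) (by linarith) (by linarith) (by linarith) (by linarith)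
  refine ⟨c / 16, η / 2, by positivity, by positivity, by linarith, fun G m1 hG d D τ w l γ hd hD hτ hw => ?_⟩
  have e : η / 2 / 2 = η / 4 := by ring
  rw [e]
  refine h G (max m1 ⌈x₀⌉₊) (fun m hm hno => ?_) d D τ w l γ hd hD hτ hw
  refine hG m ((le_max_left _ _).trans hm) (hx₀ m ?_ hno)
  exact (Nat.le_ceil x₀).trans (by exact_mod_cast (le_max_right _ _).trans hm)

end Pool.Agent.U513.AP
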