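import Pool.Agent.U513.AP.Laws

/-!
# The law for sets whose counting function has the exponent `e + ε` for all `ε > 0`
-/

set_option autoImplicit false

open Finset Filter MeasureTheory Topology
open scoped ENNReal NNReal

namespace Pool.Agent.U513.AP

theorem dim_polys_all {d : ℕ} {S : Set ℝ} {e w τ l : ℝ} (hS : ∀ ε : ℝ, 0 < ε → Few S (e + ε)) (he : 0 ≤ e) (hw : 0 ≤ w)
    (hτ : 0 ≤ τ) (γ : Fin d → ℝ) (D : ℕ) :
    ∃ E : Set (Fin d → ℝ), dimH E ≤ ENNReal.ofReal ((d + 1 - l + e * D + w) / (1 + τ)) ∧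
      ∀ α, α ∉ E → ∀ P : MvPolynomial (Fin (d + 1)) ℤ, P.totalDegree ≤ D → Lev P l → ∀ᶠ k : ℕ in atTop, ∀ p : Fin d → ℤ,
        (∀ i, |(k : ℝ) * α i - γ i - p i| ≤ (k : ℝ) ^ (-τ)) →
          ∀ s ∈ S, ¬ |s - (MvPolynomial.eval (Fin.cons (k : ℤ) p : Fin (d + 1) → ℤ) P : ℤ)| ≤ 2 * (k : ℝ) ^ w := by
  have hε : ∀ n : ℕ, (0 : ℝ) < 1 / ((n : ℝ) + 1) := fun n => by positivity
  choose E h1 h2 using fun n : ℕ => dim_polys (w := w) (l := l) (hS (1 / ((n : ℝ) + 1)) (hε n))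
    (by have := hε n; linarith) hw hτ (hε n) γ D
  refine ⟨⋂ n, E n, ?_, fun α hα => ?_⟩
  · have ht : Tendsto (fun n : ℕ => ENNReal.ofReal ((d + 1 - l + (e + 1 / ((n : ℝ) + 1)) * D + w + 1 / ((n : ℝ) + 1)) / (1 + τ)))
        atTop (𝓝 (ENNReal.ofReal ((d + 1 - l + e * D + w) / (1 + τ)))) := by
      apply ENNReal.tendsto_ofReal
      have t0 : Tendsto (fun n : ℕ => 1 / ((n : ℝ) + 1)) atTop (𝓝 0) := tendsto_one_div_add_atTop_nhds_zero_nat
      have t1 : Tendsto (fun n : ℕ => ((d : ℝ) + 1 - l + (e + 1 / ((n : ℝ) + 1)) * D + w + 1 / ((n : ℝ) + 1)) / (1 + τ))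
          atTop (𝓝 (((d : ℝ) + 1 - l + (e + 0) * D + w + 0) / (1 + τ))) := by
        exact (((((t0.const_add e).mul_const (D : ℝ)).const_add ((d : ℝ) + 1 - l)).add_const w).add t0).div_const _
      rwa [add_zero, add_zero] at t1
    exact ge_of_tendsto ht (Eventually.of_forall fun n => (dimH_mono (Set.iInter_subset E n)).trans (h1 n))
  · rw [Set.mem_iInter, not_forall] at hα
    obtain ⟨n, hn⟩ := hα
    exact h2 n α hn

end Pool.Agent.U513.AP
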